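import Mathlib

/-!
# Counting preimages along concatenated paths, and zigzag functions
-/

namespace Pool.Agent.Helper26.KToOne

open Set

/-- Concatenation of two paths, both parametrised by `[0,1]`. -/
noncomputable def cat {Y : Type*} (f g : ℝ → Y) : ℝ → Y :=
  fun t => if t ≤ 1 / 2 then f (2 * t) else g (2 * t - 1)

theorem cat_continuous {Y : Type*} [TopologicalSpace Y] {f g : ℝ → Y}
    (hf : Continuous f) (hg : Continuous g) (h : f 1 = g 0) : Continuous (cat f g) := by
  unfold cat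
  refine Continuous.if_le (by fun_prop) (by fun_prop) continuous_id continuous_const ?_
  intro t ht
  subst ht
  norm_num
  exact h

theorem cat_zero {Y : Type*} (f g : ℝ → Y) : cat f g 0 = f 0 := by
  unfold cat; norm_num

theorem cat_one {Y : Type*} (f g : ℝ → Y) : cat f g 1 = g 1 := by
  unfold cat; norm_num

/-- Number of times in `[0,1)` at which the path `f` is at `y`. -/
noncomputable def cnt {Y : Type*} (f : ℝ → Y) (y : Y) : ℕ∞ :=
  {t : ℝ | t ∈ Ico (0 : ℝ) 1 ∧ f t = y}.encard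

/-- Number of times in `(0,1)` at which the path `f` is at `y`. -/
noncomputable def cntO {Y : Type*} (f : ℝ → Y) (y : Y) : ℕ∞ :=
  {t : ℝ | t ∈ Ioo (0 : ℝ) 1 ∧ f t = y}.encard

theorem cnt_cat {Y : Type*} {f g : ℝ → Y} (h : f 1 = g 0) (y : Y) :
    cnt (cat f g) y = cnt f y + cnt g y := by
  have h1 : {t : ℝ | t ∈ Ico (0 : ℝ) 1 ∧ cat f g t = y} =
      (fun s : ℝ => s / 2) '' {t : ℝ | t ∈ Ico (0 : ℝ) 1 ∧ f t = y} ∪
      (fun s : ℝ => (s + 1) / 2) '' {t : ℝ | t ∈ Ico (0 : ℝ) 1 ∧ g t = y} := by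
    ext t
    simp only [mem_ofPred_eq, mem_union, mem_image, mem_Ico]
    constructor
    · rintro ⟨⟨h0, h1⟩, ht⟩
      rcases lt_trichotomy t (1 / 2) with hlt | heq | hgt
      · left
        refine ⟨2 * t, ⟨⟨by linarith, by linarith⟩, ?_⟩, by ring⟩
        rw [← ht]; unfold cat; rw [if_pos hlt.le]
      · right
        refine ⟨0, ⟨⟨le_refl _, by norm_num⟩, ?_⟩, by rw [heq]; norm_num⟩
        rw [← ht, ← h]; unfold cat; rw [if_pos heq.le, heq]; norm_num
      · right
        refine ⟨2 * t - 1, ⟨⟨by linarith, by linarith⟩, ?_⟩, by ring⟩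
        rw [← ht]; unfold cat; rw [if_neg (not_le.mpr hgt)]
    · rintro (⟨s, ⟨⟨h0, h1⟩, hs⟩, rfl⟩ | ⟨s, ⟨⟨h0, h1⟩, hs⟩, rfl⟩)
      · refine ⟨⟨by linarith, by linarith⟩, ?_⟩
        unfold cat
        rw [if_pos (by linarith)]
        rw [← hs]; congr 1; ring
      · refine ⟨⟨by linarith, by linarith⟩, ?_⟩
        unfold cat
        rcases h0.eq_or_lt with h0 | h0
        · rw [if_pos (by rw [← h0]; norm_num)]
          rw [← h0]
          norm_num
          rw [h, h0]; exact hs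
        · rw [if_neg (by linarith)]
          rw [← hs]; congr 1; ring
  unfold cnt
  rw [h1, encard_union_eq]
  · congr 1
    · apply Function.Injective.encard_image
      intro a b hab
      simp only at hab
      linarith
    · apply Function.Injective.encard_image
      intro a b hab
      simp only at hab
      linarith
  · rw [Set.disjoint_left]
    rintro t ⟨s, ⟨⟨h0, h1⟩, -⟩, rfl⟩ ⟨s', ⟨⟨h0', h1'⟩, -⟩, hs'⟩
    simp only at hs'
    linarith

theorem cnt_eq_cntO_add {Y : Type*} (f : ℝ → Y) (y : Y) [Decidable (f 0 = y)] :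
    cnt f y = cntO f y + (if f 0 = y then 1 else 0) := by
  unfold cnt cntO
  split_ifs with h
  · have : {t : ℝ | t ∈ Ico (0 : ℝ) 1 ∧ f t = y} =
        {t : ℝ | t ∈ Ioo (0 : ℝ) 1 ∧ f t = y} ∪ {0} := by
      ext t
      simp only [mem_ofPred_eq, mem_union, mem_singleton_iff, mem_Ico, mem_Ioo]
      constructor
      · rintro ⟨⟨h0, h1⟩, ht⟩
        rcases h0.eq_or_lt with h0 | h0
        · right; exact h0.symm
        · left; exact ⟨⟨h0, h1⟩, ht⟩
      · rintro (⟨⟨h0, h1⟩, ht⟩ | rfl)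
        · exact ⟨⟨h0.le, h1⟩, ht⟩
        · exact ⟨⟨le_refl _, by norm_num⟩, h⟩
    rw [this, encard_union_eq, encard_singleton]
    rw [Set.disjoint_singleton_right]
    simp
  · rw [add_zero]
    congr 1
    ext t
    simp only [mem_ofPred_eq, mem_Ico, mem_Ioo]
    constructor
    · rintro ⟨⟨h0, h1⟩, ht⟩
      rcases h0.eq_or_lt with h0 | h0
      · exfalso; apply h; rw [h0]; exact ht
      · exact ⟨⟨h0, h1⟩, ht⟩
    · rintro ⟨⟨h0, h1⟩, ht⟩
      exact ⟨⟨h0.le, h1⟩, ht⟩

theorem cntO_rev {Y : Type*} (f : ℝ → Y) (y : Y) :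
    cntO (fun t => f (1 - t)) y = cntO f y := by
  unfold cntO
  have : {t : ℝ | t ∈ Ioo (0 : ℝ) 1 ∧ f (1 - t) = y} =
      (fun s : ℝ => 1 - s) '' {t : ℝ | t ∈ Ioo (0 : ℝ) 1 ∧ f t = y} := by
    ext t
    simp only [mem_ofPred_eq, mem_image, mem_Ioo]
    constructor
    · rintro ⟨⟨h0, h1⟩, ht⟩
      exact ⟨1 - t, ⟨⟨by linarith, by linarith⟩, ht⟩, by ring⟩
    · rintro ⟨s, ⟨⟨h0, h1⟩, hs⟩, rfl⟩
      refine ⟨⟨by linarith, by linarith⟩, ?_⟩
      rw [← hs]; congr 1; ring
  rw [this]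
  apply Function.Injective.encard_image
  intro a b hab
  simp only at hab
  linarith

/-- The finite zigzag with `2 * j + 1` strands. -/
noncomputable def zig : ℕ → ℝ → ℝ
  | 0 => fun t => t
  | (j + 1) => cat (zig j) (cat (fun t => 1 - t) (fun t => t))

theorem zig_zero (j : ℕ) : zig j 0 = 0 := by
  induction j with
  | zero => rfl
  | succ j ih => rw [zig, cat_zero, ih]

theorem zig_one (j : ℕ) : zig j 1 = 1 := by
  cases j with
  | zero => rfl
  | succ j => rw [zig, cat_one, cat_one]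

theorem zig_continuous (j : ℕ) : Continuous (zig j) := by
  induction j with
  | zero => exact continuous_id
  | succ j ih =>
    rw [zig]
    refine cat_continuous ih (cat_continuous (by fun_prop) (by fun_prop) (by norm_num)) ?_
    rw [zig_one, cat_zero]; norm_num

theorem cat_mem_Icc {f g : ℝ → ℝ} (hf : ∀ t ∈ Icc (0 : ℝ) 1, f t ∈ Icc (0 : ℝ) 1)
    (hg : ∀ t ∈ Icc (0 : ℝ) 1, g t ∈ Icc (0 : ℝ) 1) :
    ∀ t ∈ Icc (0 : ℝ) 1, cat f g t ∈ Icc (0 : ℝ) 1 := by
  rintro t ⟨h0, h1⟩
  unfold cat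
  split_ifs with h
  · exact hf _ ⟨by linarith, by linarith⟩
  · exact hg _ ⟨by linarith, by linarith⟩

theorem zig_mem (j : ℕ) : ∀ t ∈ Icc (0 : ℝ) 1, zig j t ∈ Icc (0 : ℝ) 1 := by
  induction j with
  | zero => exact fun t ht => ht
  | succ j ih =>
    rw [zig]
    refine cat_mem_Icc ih (cat_mem_Icc ?_ (fun t ht => ht))
    rintro t ⟨h0, h1⟩
    exact ⟨by linarith, by linarith⟩

theorem cnt_id (c : ℝ) [Decidable (c ∈ Ico (0 : ℝ) 1)] :
    cnt (fun t : ℝ => t) c = if c ∈ Ico (0 : ℝ) 1 then 1 else 0 := by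
  unfold cnt
  split_ifs with h
  · rw [← encard_singleton c]
    congr 1
    ext t
    simp only [mem_ofPred_eq, mem_singleton_iff]
    constructor
    · exact fun h => h.2
    · rintro rfl; exact ⟨h, rfl⟩
  · rw [encard_eq_zero]
    ext t
    simp only [mem_ofPred_eq, mem_empty_iff_false, iff_false, not_and]
    rintro h1 rfl
    exact h h1

theorem cnt_one_sub (c : ℝ) [Decidable (c ∈ Ioc (0 : ℝ) 1)] :
    cnt (fun t : ℝ => 1 - t) c = if c ∈ Ioc (0 : ℝ) 1 then 1 else 0 := by
  unfold cnt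
  split_ifs with h
  · rw [← encard_singleton (1 - c)]
    congr 1
    ext t
    simp only [mem_ofPred_eq, mem_singleton_iff]
    constructor
    · rintro ⟨-, h⟩; linarith
    · rintro rfl
      exact ⟨⟨by linarith [h.2], by linarith [h.1]⟩, by ring⟩
  · rw [encard_eq_zero]
    ext t
    simp only [mem_ofPred_eq, mem_empty_iff_false, iff_false, not_and]
    rintro ⟨h1, h2⟩ rfl
    exact h ⟨by linarith, by linarith⟩

theorem cnt_zig_succ (j : ℕ) (c : ℝ) :
    cnt (zig (j + 1)) c = cnt (zig j) c + (cnt (fun t : ℝ => 1 - t) c + cnt (fun t : ℝ => t) c) := by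
  rw [zig, cnt_cat, cnt_cat]
  · norm_num
  · rw [zig_one, cat_zero]; norm_num

theorem cnt_zig_mid (j : ℕ) {c : ℝ} (h0 : 0 < c) (h1 : c < 1) :
    cnt (zig j) c = (2 * j + 1 : ℕ) := by
  classical
  induction j with
  | zero =>
    rw [zig, cnt_id, if_pos ⟨h0.le, h1⟩]; norm_num
  | succ j ih =>
    rw [cnt_zig_succ, ih, cnt_one_sub, cnt_id, if_pos ⟨h0, h1.le⟩, if_pos ⟨h0.le, h1⟩]
    push_cast; ring

theorem cnt_zig_zero (j : ℕ) : cnt (zig j) 0 = (j + 1 : ℕ) := by
  classical
  induction j with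
  | zero =>
    rw [zig, cnt_id, if_pos ⟨le_refl _, by norm_num⟩]; norm_num
  | succ j ih =>
    rw [cnt_zig_succ, ih, cnt_one_sub, cnt_id, if_neg (by simp), if_pos ⟨le_refl _, by norm_num⟩]
    push_cast; ring

theorem cnt_zig_one (j : ℕ) : cnt (zig j) 1 = (j : ℕ) := by
  classical
  induction j with
  | zero =>
    rw [zig, cnt_id, if_neg (by simp)]; norm_num
  | succ j ih =>
    rw [cnt_zig_succ, ih, cnt_one_sub, cnt_id, if_pos ⟨by norm_num, le_refl _⟩, if_neg (by simp)]
    push_cast; ring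

/-- The infinite zigzag, in logarithmic coordinates. -/
noncomputable def zigL (j : ℕ) (x : ℝ) : ℝ := x + (zig j (Int.fract x) - Int.fract x)

theorem zigL_eq (j : ℕ) (x : ℝ) : zigL j x = ⌊x⌋ + zig j (Int.fract x) := by
  unfold zigL
  have := Int.floor_add_fract x
  linarith

theorem zigL_continuous (j : ℕ) : Continuous (zigL j) := by
  unfold zigL
  refine continuous_id.add ?_
  have : Continuous ((fun t : ℝ => zig j t - t) ∘ (Int.fract : ℝ → ℝ)) := by
    apply ContinuousOn.comp_fract''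
    · exact ((zig_continuous j).sub continuous_id).continuousOn
    · rw [zig_zero, zig_one]; norm_num
  exact this

theorem fract_mem_Ico (x : ℝ) : Int.fract x ∈ Ico (0 : ℝ) 1 :=
  ⟨Int.fract_nonneg x, Int.fract_lt_one x⟩

theorem zigL_le (j : ℕ) (x : ℝ) : zigL j x ≤ ⌊x⌋ + 1 := by
  rw [zigL_eq]
  have := (zig_mem j _ ⟨Int.fract_nonneg x, (Int.fract_lt_one x).le⟩).2
  linarith

theorem le_zigL (j : ℕ) (x : ℝ) : (⌊x⌋ : ℝ) ≤ zigL j x := by
  rw [zigL_eq]
  have := (zig_mem j _ ⟨Int.fract_nonneg x, (Int.fract_lt_one x).le⟩).1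
  linarith

/-- Preimages of a level under the infinite zigzag. -/
theorem zigL_fiber (j : ℕ) (τ : ℝ) (n : ℤ) (s : ℝ) (hs : s ∈ Ico (0 : ℝ) 1) (h : zigL j (n + s) = τ) :
    (zig j s < 1 ∧ n = ⌊τ⌋ ∧ zig j s = Int.fract τ) ∨
      (zig j s = 1 ∧ (n : ℝ) = τ - 1) := by
  rw [zigL_eq] at h
  have h1 : ⌊(n : ℝ) + s⌋ = n := by
    rw [Int.floor_eq_iff]
    exact ⟨by linarith [hs.1], by linarith [hs.2]⟩
  have h2 : Int.fract ((n : ℝ) + s) = s := by
    rw [Int.fract, h1]; ring
  rw [h1, h2] at h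
  have h3 := zig_mem j s ⟨hs.1, hs.2.le⟩
  rcases h3.2.lt_or_eq with h4 | h4
  · left
    have : ⌊τ⌋ = n := by
      rw [Int.floor_eq_iff, ← h]
      exact ⟨by linarith [h3.1], by linarith⟩
    refine ⟨h4, this.symm, ?_⟩
    rw [Int.fract, this, ← h]; ring
  · right
    refine ⟨h4, ?_⟩
    linarith

theorem zigL_add (j : ℕ) (n : ℤ) (s : ℝ) (hs : s ∈ Ico (0 : ℝ) 1) :
    zigL j (n + s) = n + zig j s := by
  rw [zigL_eq]
  have h1 : ⌊(n : ℝ) + s⌋ = n := by
    rw [Int.floor_eq_iff]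
    exact ⟨by linarith [hs.1], by linarith [hs.2]⟩
  have h2 : Int.fract ((n : ℝ) + s) = s := by
    rw [Int.fract, h1]; ring
  rw [h1, h2]

theorem encard_zigL (j : ℕ) {τ : ℝ} (hτ : τ < 0) :
    {x : ℝ | x < 0 ∧ zigL j x = τ}.encard = (2 * j + 1 : ℕ) := by
  by_cases hint : Int.fract τ = 0
  · have hτn : (⌊τ⌋ : ℝ) = τ := by
      have := Int.floor_add_fract τ
      rw [hint] at this; linarith
    have hset : {x : ℝ | x < 0 ∧ zigL j x = τ} =
        (fun s : ℝ => (⌊τ⌋ : ℝ) + s) '' {t : ℝ | t ∈ Ico (0 : ℝ) 1 ∧ zig j t = 0} ∪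
        (fun s : ℝ => ((⌊τ⌋ - 1 : ℤ) : ℝ) + s) '' {t : ℝ | t ∈ Ico (0 : ℝ) 1 ∧ zig j t = 1} := by
      ext x
      simp only [mem_ofPred_eq, mem_union, mem_image]
      constructor
      · rintro ⟨hx, h⟩
        have hx' : (⌊x⌋ : ℝ) + Int.fract x = x := Int.floor_add_fract x
        have h' := h
        rw [← hx'] at h
        rcases zigL_fiber j τ ⌊x⌋ (Int.fract x) (fract_mem_Ico x) h with ⟨_, h2, h3⟩ | ⟨h2, h3⟩
        · left
          refine ⟨Int.fract x, ⟨fract_mem_Ico x, by rw [h3, hint]⟩, ?_⟩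
          rw [← h2]; exact hx'
        · right
          refine ⟨Int.fract x, ⟨fract_mem_Ico x, h2⟩, ?_⟩
          push_cast
          rw [hτn, ← h3]; exact hx'
      · rintro (⟨s, ⟨hs, h⟩, rfl⟩ | ⟨s, ⟨hs, h⟩, rfl⟩)
        · have h1 := zigL_add j ⌊τ⌋ s hs
          rw [h, add_zero, hτn] at h1
          refine ⟨?_, by rw [hτn]; exact h1⟩
          have h5 : ⌊τ⌋ ≤ -1 := by
            have : ⌊τ⌋ < 0 := by
              rw [Int.floor_lt]; simpa using hτ
            omega
          have h6 : (⌊τ⌋ : ℝ) ≤ -1 := by exact_mod_cast h5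
          linarith [hs.2]
        · have h1 := zigL_add j (⌊τ⌋ - 1) s hs
          rw [h] at h1
          refine ⟨?_, by rw [h1]; push_cast; rw [hτn]; ring⟩
          push_cast
          rw [hτn]
          linarith [hs.2]
    rw [hset, encard_union_eq]
    · rw [Function.Injective.encard_image (add_right_injective _),
        Function.Injective.encard_image (add_right_injective _)]
      have h1 := cnt_zig_zero j
      have h2 := cnt_zig_one j
      unfold cnt at h1 h2
      rw [h1, h2]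
      push_cast; ring
    · rw [Set.disjoint_left]
      rintro x ⟨s, ⟨hs, -⟩, rfl⟩ ⟨s', ⟨hs', -⟩, h⟩
      simp only at h
      push_cast at h
      linarith [hs.1, hs'.2]
  · have hset : {x : ℝ | x < 0 ∧ zigL j x = τ} =
        (fun s : ℝ => (⌊τ⌋ : ℝ) + s) '' {t : ℝ | t ∈ Ico (0 : ℝ) 1 ∧ zig j t = Int.fract τ} := by
      ext x
      simp only [mem_ofPred_eq, mem_image]
      constructor
      · rintro ⟨hx, h⟩
        have hx' : (⌊x⌋ : ℝ) + Int.fract x = x := Int.floor_add_fract x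
        rw [← hx'] at h
        rcases zigL_fiber j τ ⌊x⌋ (Int.fract x) (fract_mem_Ico x) h with ⟨_, h2, h3⟩ | ⟨h2, h3⟩
        · refine ⟨Int.fract x, ⟨fract_mem_Ico x, h3⟩, ?_⟩
          rw [← h2]; exact hx'
        · exfalso
          apply hint
          have : τ = ((⌊x⌋ + 1 : ℤ) : ℝ) := by push_cast; linarith
          rw [this, Int.fract_intCast]
      · rintro ⟨s, ⟨hs, h⟩, rfl⟩
        have h1 := zigL_add j ⌊τ⌋ s hs
        have h2 : (⌊τ⌋ : ℝ) + Int.fract τ = τ := Int.floor_add_fract τ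
        rw [h, h2] at h1
        refine ⟨?_, h1⟩
        have h5 : ⌊τ⌋ ≤ -1 := by
          have : ⌊τ⌋ < 0 := by
            rw [Int.floor_lt]; simpa using hτ
          omega
        have h6 : (⌊τ⌋ : ℝ) ≤ -1 := by exact_mod_cast h5
        linarith [hs.2]
    rw [hset, Function.Injective.encard_image (add_right_injective _)]
    have h1 := cnt_zig_mid j (c := Int.fract τ) (lt_of_le_of_ne (Int.fract_nonneg τ) (Ne.symm hint))
      (Int.fract_lt_one τ)
    unfold cnt at h1
    exact h1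

theorem encard_zigL_zero (j : ℕ) :
    {x : ℝ | x < 0 ∧ zigL j x = 0}.encard = (j : ℕ) := by
  have hset : {x : ℝ | x < 0 ∧ zigL j x = 0} =
      (fun s : ℝ => ((-1 : ℤ) : ℝ) + s) '' {t : ℝ | t ∈ Ico (0 : ℝ) 1 ∧ zig j t = 1} := by
    ext x
    simp only [mem_ofPred_eq, mem_image]
    constructor
    · rintro ⟨hx, h⟩
      have hx' : (⌊x⌋ : ℝ) + Int.fract x = x := Int.floor_add_fract x
      rw [← hx'] at h
      rcases zigL_fiber j 0 ⌊x⌋ (Int.fract x) (fract_mem_Ico x) h with ⟨_, h2, h3⟩ | ⟨h2, h3⟩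
      · exfalso
        have : ⌊x⌋ < 0 := by
          rw [Int.floor_lt]; simpa using hx
        rw [Int.floor_zero] at h2
        omega
      · refine ⟨Int.fract x, ⟨fract_mem_Ico x, h2⟩, ?_⟩
        push_cast
        linarith
    · rintro ⟨s, ⟨hs, h⟩, rfl⟩
      have h1 := zigL_add j (-1) s hs
      rw [h] at h1
      refine ⟨?_, by rw [h1]; push_cast; ring⟩
      push_cast
      linarith [hs.2]
  rw [hset, Function.Injective.encard_image (add_right_injective _)]
  have h1 := cnt_zig_one j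
  unfold cnt at h1
  exact h1

/-- The half-path level function: starts at level `0`, ends at level `1`, and takes every level in
between `2 * j + 1` times. -/
noncomputable def lev (j : ℕ) (t : ℝ) : ℝ :=
  if t ≤ 0 then 0 else Real.exp (zigL j (Real.log t))

theorem lev_zero (j : ℕ) : lev j 0 = 0 := by simp [lev]

theorem lev_one (j : ℕ) : lev j 1 = 1 := by
  have h : (0 : ℝ) = ((0 : ℤ) : ℝ) + 0 := by norm_num
  have h2 : zigL j 0 = 0 := by
    rw [h, zigL_add j 0 0 ⟨le_refl _, by norm_num⟩, zig_zero]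
  simp [lev, h2]

theorem lev_pos (j : ℕ) {t : ℝ} (ht : 0 < t) : 0 < lev j t := by
  rw [lev, if_neg (not_le.mpr ht)]
  exact Real.exp_pos _

theorem lev_le_one (j : ℕ) {t : ℝ} (ht : t ≤ 1) : lev j t ≤ 1 := by
  rcases le_or_gt t 0 with h | h
  · rw [lev, if_pos h]; norm_num
  · rcases ht.lt_or_eq with h1 | h1
    · rw [lev, if_neg (not_le.mpr h)]
      rw [Real.exp_le_one_iff]
      have h2 := zigL_le j (Real.log t)
      have h3 : Real.log t < 0 := Real.log_neg h h1
      have h4 : ⌊Real.log t⌋ < 0 := by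
        rw [Int.floor_lt]; simpa using h3
      have h5 : (⌊Real.log t⌋ : ℝ) ≤ -1 := by exact_mod_cast (by omega : ⌊Real.log t⌋ ≤ -1)
      linarith
    · rw [h1, lev_one]

theorem lev_continuous (j : ℕ) : Continuous (lev j) := by
  rw [continuous_iff_continuousAt]
  intro t
  rcases lt_trichotomy t 0 with h | h | h
  · have : lev j =ᶠ[nhds t] fun _ => 0 := by
      filter_upwards [gt_mem_nhds h] with s hs
      rw [lev, if_pos hs.le]
    exact (continuousAt_const).congr this.symm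
  · subst h
    rw [ContinuousAt, lev_zero]
    have hub : ∀ s, lev j s ≤ Real.exp 1 * |s| := by
      intro s
      rcases le_or_gt s 0 with hs | hs
      · rw [lev, if_pos hs]; positivity
      · rw [lev, if_neg (not_le.mpr hs), abs_of_pos hs]
        calc Real.exp (zigL j (Real.log s)) ≤ Real.exp (1 + Real.log s) := by
              apply Real.exp_le_exp.mpr
              have h1 := zigL_le j (Real.log s)
              have h2 := Int.floor_le (Real.log s)
              linarith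
          _ = Real.exp 1 * s := by rw [Real.exp_add, Real.exp_log hs]
    have hlb : ∀ s, 0 ≤ lev j s := by
      intro s
      rw [lev]; split_ifs
      · exact le_refl _
      · exact (Real.exp_pos _).le
    refine squeeze_zero hlb hub ?_
    have : Continuous fun s : ℝ => Real.exp 1 * |s| := by fun_prop
    have h2 := this.tendsto 0
    simpa using h2
  · have : lev j =ᶠ[nhds t] fun s => Real.exp (zigL j (Real.log s)) := by
      filter_upwards [lt_mem_nhds h] with s hs
      rw [lev, if_neg (not_le.mpr hs)]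
    refine ContinuousAt.congr ?_ this.symm
    exact Real.continuous_exp.continuousAt.comp
      ((zigL_continuous j).continuousAt.comp (Real.continuousAt_log h.ne'))

theorem lev_fiber (j : ℕ) {y : ℝ} (hy : 0 < y) :
    {t : ℝ | t ∈ Ioo (0 : ℝ) 1 ∧ lev j t = y} =
      Real.exp '' {x : ℝ | x < 0 ∧ zigL j x = Real.log y} := by
  ext t
  simp only [mem_ofPred_eq, mem_image, mem_Ioo]
  constructor
  · rintro ⟨⟨h0, h1⟩, ht⟩
    refine ⟨Real.log t, ⟨Real.log_neg h0 h1, ?_⟩, Real.exp_log h0⟩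
    rw [lev, if_neg (not_le.mpr h0)] at ht
    rw [← ht, Real.log_exp]
  · rintro ⟨x, ⟨hx, h⟩, rfl⟩
    refine ⟨⟨Real.exp_pos x, by rwa [Real.exp_lt_one_iff]⟩, ?_⟩
    rw [lev, if_neg (not_le.mpr (Real.exp_pos x)), Real.log_exp, h, Real.exp_log hy]

theorem cntO_lev_mid (j : ℕ) {y : ℝ} (h0 : 0 < y) (h1 : y < 1) :
    cntO (lev j) y = (2 * j + 1 : ℕ) := by
  unfold cntO
  rw [lev_fiber j h0, Function.Injective.encard_image Real.exp_injective]
  exact encard_zigL j (Real.log_neg h0 h1)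

theorem cntO_lev_one (j : ℕ) : cntO (lev j) 1 = (j : ℕ) := by
  unfold cntO
  rw [lev_fiber j one_pos, Function.Injective.encard_image Real.exp_injective, Real.log_one]
  exact encard_zigL_zero j

theorem cntO_lev_zero (j : ℕ) : cntO (lev j) 0 = 0 := by
  unfold cntO
  rw [encard_eq_zero]
  ext t
  simp only [mem_ofPred_eq, mem_empty_iff_false, iff_false, not_and, mem_Ioo]
  intro h
  exact (lev_pos j h.1).ne'

theorem cntO_lev_gt (j : ℕ) {y : ℝ} (h1 : 1 < y) : cntO (lev j) y = 0 := by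
  unfold cntO
  rw [encard_eq_zero]
  ext t
  simp only [mem_ofPred_eq, mem_empty_iff_false, iff_false, not_and, mem_Ioo]
  intro h h2
  have := lev_le_one j h.2.le
  linarith

end Pool.Agent.Helper26.KToOne
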