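import Pool.Agent.Helper26.KToOne.Defs
import Pool.Agent.Helper26.KToOne.Zigzag

/-!
# Graph structures on topological spaces
-/

namespace Pool.Agent.Helper26.KToOne

open Set

/-- A structure of a topological graph modelled on `H` on the space `Y`. -/
structure Chart (Y : Type) [TopologicalSpace Y] {W : Type} (H : SimpleGraph W) where
  pt : W → Y
  seg : W → W → ℝ → Y
  cont : ∀ a b, H.Adj a b → Continuous (seg a b)
  seg_zero : ∀ a b, H.Adj a b → seg a b 0 = pt a
  seg_rev : ∀ a b, H.Adj a b → ∀ t, seg b a t = seg a b (1 - t)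
  pt_inj : Function.Injective pt
  seg_ne : ∀ a b, H.Adj a b → ∀ t ∈ Ioo (0 : ℝ) 1, ∀ w, seg a b t ≠ pt w
  seg_inj : ∀ a b a' b', H.Adj a b → H.Adj a' b' → ∀ t ∈ Ioo (0 : ℝ) 1, ∀ t' ∈ Ioo (0 : ℝ) 1,
    seg a b t = seg a' b' t' → (a' = a ∧ b' = b ∧ t' = t) ∨ (a' = b ∧ b' = a ∧ t' = 1 - t)
  cover : ∀ y, (∃ w, pt w = y) ∨ ∃ a b, H.Adj a b ∧ ∃ t ∈ Ioo (0 : ℝ) 1, seg a b t = y

namespace Chart

variable {Y : Type} [TopologicalSpace Y] {W : Type} {H : SimpleGraph W}

theorem seg_one (c : Chart Y H) {a b : W} (h : H.Adj a b) : c.seg a b 1 = c.pt b := by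
  rw [← c.seg_zero b a h.symm, c.seg_rev a b h]; norm_num

/-- injectivity of a closed segment -/
theorem seg_injOn (c : Chart Y H) {a b : W} (h : H.Adj a b) :
    InjOn (c.seg a b) (Icc (0 : ℝ) 1) := by
  have key : ∀ t ∈ Icc (0 : ℝ) 1, t = 0 ∨ t = 1 ∨ t ∈ Ioo (0 : ℝ) 1 := by
    rintro t ⟨h0, h1⟩
    rcases h0.eq_or_lt with h0 | h0
    · left; exact h0.symm
    · rcases h1.eq_or_lt with h1 | h1
      · right; left; exact h1
      · right; right; exact ⟨h0, h1⟩
  intro t ht t' ht' heq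
  rcases key t ht with rfl | rfl | h1 <;> rcases key t' ht' with rfl | rfl | h1'
  · rfl
  · rw [c.seg_zero a b h, c.seg_one h] at heq
    exact absurd (c.pt_inj heq) h.ne
  · rw [c.seg_zero a b h] at heq
    exact absurd heq.symm (c.seg_ne a b h _ h1' _)
  · rw [c.seg_zero a b h, c.seg_one h] at heq
    exact absurd (c.pt_inj heq).symm h.ne
  · rfl
  · rw [c.seg_one h] at heq
    exact absurd heq.symm (c.seg_ne a b h _ h1' _)
  · rw [c.seg_zero a b h] at heq
    exact absurd heq (c.seg_ne a b h _ h1 _)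
  · rw [c.seg_one h] at heq
    exact absurd heq (c.seg_ne a b h _ h1 _)
  · rcases c.seg_inj a b a b h h t h1 t' h1' heq with ⟨-, -, h2⟩ | ⟨h2, -, -⟩
    · exact h2.symm
    · exact absurd h2 h.ne

end Chart

section Glue

variable {X : Type} [TopologicalSpace X] {V : Type} {G : SimpleGraph V}

theorem icc_cases {t : ℝ} (ht : t ∈ Icc (0 : ℝ) 1) : t = 0 ∨ t = 1 ∨ t ∈ Ioo (0 : ℝ) 1 := by
  rcases ht.1.eq_or_lt with h0 | h0
  · left; exact h0.symm
  · rcases ht.2.eq_or_lt with h1 | h1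
    · right; left; exact h1
    · right; right; exact ⟨h0, h1⟩

/-- Gluing paths along the edges of a graph. -/
theorem glue [T2Space X] [Finite V] (c : Chart X G) (pos : G.Dart → Prop)
    (hpos : ∀ d, pos d.symm ↔ ¬ pos d) {Y : Type} [TopologicalSpace Y] (q : V → Y)
    (p : G.Dart → ℝ → Y) (hp : ∀ d, pos d → Continuous (p d)) (hp0 : ∀ d, pos d → p d 0 = q d.fst)
    (hp1 : ∀ d, pos d → p d 1 = q d.snd) :
    ∃ f : X → Y, Continuous f ∧ (∀ v, f (c.pt v) = q v) ∧
      ∀ d, pos d → ∀ t ∈ Icc (0 : ℝ) 1, f (c.seg d.fst d.snd t) = p d t := by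
  classical
  -- values
  have hex : ∀ x : X, ∃ y : Y, (∀ v, c.pt v = x → q v = y) ∧
      ∀ d, pos d → ∀ t ∈ Ioo (0 : ℝ) 1, c.seg d.fst d.snd t = x → p d t = y := by
    intro x
    rcases c.cover x with ⟨v, rfl⟩ | ⟨a, b, hab, t, ht, rfl⟩
    · refine ⟨q v, ?_, ?_⟩
      · intro v' hv'
        rw [c.pt_inj hv']
      · intro d _ t ht h
        exact absurd h (c.seg_ne _ _ d.adj t ht v)
    · obtain ⟨d, hd, t', ht', hdt⟩ : ∃ d : G.Dart, pos d ∧ ∃ t' ∈ Ioo (0 : ℝ) 1,
          c.seg d.fst d.snd t' = c.seg a b t := by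
        by_cases hd : pos ⟨(a, b), hab⟩
        · exact ⟨_, hd, t, ht, rfl⟩
        · have hd' := (hpos ⟨(a, b), hab⟩).mpr hd
          refine ⟨_, hd', 1 - t, ⟨by linarith [ht.2], by linarith [ht.1]⟩, ?_⟩
          change c.seg b a (1 - t) = _
          rw [c.seg_rev a b hab]
          congr 1; ring
      refine ⟨p d t', ?_, ?_⟩
      · intro v hv
        exact absurd hv.symm (c.seg_ne _ _ hab t ht v)
      · intro d' hd' t'' ht'' h
        rw [← hdt] at h
        rcases c.seg_inj _ _ _ _ d'.adj d.adj t'' ht'' t' ht' h with ⟨h1, h2, h3⟩ | ⟨h1, h2, h3⟩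
        · have : d' = d := by
            ext
            · exact h1.symm
            · exact h2.symm
          rw [this, h3]
        · exfalso
          have : d' = d.symm := by
            ext
            · exact h2.symm
            · exact h1.symm
          rw [this] at hd'
          exact (hpos d).mp hd' hd
  choose f hf1 hf2 using hex
  have hfpt : ∀ v, f (c.pt v) = q v := fun v => (hf1 _ v rfl).symm
  have hfseg : ∀ d, pos d → ∀ t ∈ Icc (0 : ℝ) 1, f (c.seg d.fst d.snd t) = p d t := by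
    intro d hd t ht
    rcases icc_cases ht with rfl | rfl | ht
    · rw [c.seg_zero _ _ d.adj, hfpt, hp0 d hd]
    · rw [c.seg_one d.adj, hfpt, hp1 d hd]
    · exact (hf2 _ d hd t ht rfl).symm
  refine ⟨f, ?_, hfpt, hfseg⟩
  rw [continuous_iff_isClosed]
  intro C hC
  have hset : f ⁻¹' C = (c.pt '' {v | q v ∈ C}) ∪
      ⋃ d : {d : G.Dart // pos d}, c.seg d.1.fst d.1.snd '' ({t | t ∈ Icc (0 : ℝ) 1} ∩ (p d) ⁻¹' C) := by
    ext x
    simp only [mem_preimage, mem_union, mem_iUnion, mem_image, mem_inter_iff, mem_ofPred_eq]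
    constructor
    · intro hx
      rcases c.cover x with ⟨v, rfl⟩ | ⟨a, b, hab, t, ht, rfl⟩
      · left
        exact ⟨v, by rw [← hfpt]; exact hx, rfl⟩
      · right
        by_cases hd : pos ⟨(a, b), hab⟩
        · refine ⟨⟨_, hd⟩, t, ⟨⟨ht.1.le, ht.2.le⟩, ?_⟩, rfl⟩
          have := hfseg _ hd t ⟨ht.1.le, ht.2.le⟩
          rw [← this]; exact hx
        · have hd' := (hpos ⟨(a, b), hab⟩).mpr hd
          have hmem : 1 - t ∈ Icc (0 : ℝ) 1 := ⟨by linarith [ht.2], by linarith [ht.1]⟩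
          have hs : c.seg b a (1 - t) = c.seg a b t := by
            rw [c.seg_rev a b hab]; congr 1; ring
          refine ⟨⟨_, hd'⟩, 1 - t, ⟨hmem, ?_⟩, hs⟩
          have := hfseg _ hd' (1 - t) hmem
          rw [← this]
          change f (c.seg b a (1 - t)) ∈ C
          rw [hs]; exact hx
    · rintro (⟨v, hv, rfl⟩ | ⟨⟨d, hd⟩, t, ⟨ht, hpt⟩, rfl⟩)
      · rw [hfpt]; exact hv
      · rw [hfseg d hd t ht]; exact hpt
  rw [hset]
  refine IsClosed.union ?_ ?_
  · exact (Set.toFinite _).isClosed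
  · have : Finite G.Dart := Finite.of_injective _ SimpleGraph.Dart.toProd_injective
    refine isClosed_iUnion_of_finite ?_
    rintro ⟨d, hd⟩
    have h1 : IsCompact ({t | t ∈ Icc (0 : ℝ) 1} ∩ (p d) ⁻¹' C) :=
      (isCompact_Icc (a := (0 : ℝ)) (b := 1)).inter_right (hC.preimage (hp d hd))
    exact (h1.image (c.cont _ _ d.adj)).isClosed

theorem encard_biUnion_finset {ι α : Type*} (s : Finset ι) (t : ι → Set α)
    (h : ∀ i ∈ s, ∀ j ∈ s, i ≠ j → Disjoint (t i) (t j)) :
    (⋃ i ∈ s, t i).encard = ∑ i ∈ s, (t i).encard := by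
  classical
  induction s using Finset.induction_on with
  | empty => simp
  | insert a s ha ih =>
    rw [Finset.sum_insert ha, Finset.set_biUnion_insert, encard_union_eq, ih]
    · intro i hi j hj hij
      exact h i (Finset.mem_insert_of_mem hi) j (Finset.mem_insert_of_mem hj) hij
    · rw [Set.disjoint_iUnion₂_right]
      intro i hi
      refine h a (Finset.mem_insert_self _ _) i (Finset.mem_insert_of_mem hi) ?_
      rintro rfl
      exact ha hi

open Classical in
/-- The fibres of a map out of a graph, computed edge by edge. -/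
theorem fiber_encard [Fintype V] (c : Chart X G) (pos : G.Dart → Prop)
    (hpos : ∀ d, pos d.symm ↔ ¬ pos d) {Y : Type} (f : X → Y) (y : Y) :
    (f ⁻¹' {y}).encard = {v : V | f (c.pt v) = y}.encard +
      ∑ d ∈ Finset.univ.filter pos, cntO (fun t => f (c.seg d.fst d.snd t)) y := by
  have hset : f ⁻¹' {y} = (c.pt '' {v | f (c.pt v) = y}) ∪
      ⋃ d ∈ Finset.univ.filter pos, c.seg d.fst d.snd ''
        {t | t ∈ Ioo (0 : ℝ) 1 ∧ f (c.seg d.fst d.snd t) = y} := by
    ext x
    simp only [mem_preimage, mem_singleton_iff, mem_union, mem_iUnion, mem_image, mem_ofPred_eq,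
      Finset.mem_filter, Finset.mem_univ, true_and, exists_prop]
    constructor
    · intro hx
      rcases c.cover x with ⟨v, rfl⟩ | ⟨a, b, hab, t, ht, rfl⟩
      · left
        exact ⟨v, hx, rfl⟩
      · right
        by_cases hd : pos ⟨(a, b), hab⟩
        · exact ⟨_, hd, t, ⟨ht, hx⟩, rfl⟩
        · have hd' := (hpos ⟨(a, b), hab⟩).mpr hd
          have hmem : 1 - t ∈ Ioo (0 : ℝ) 1 := ⟨by linarith [ht.2], by linarith [ht.1]⟩
          have hs : c.seg b a (1 - t) = c.seg a b t := by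
            rw [c.seg_rev a b hab]; congr 1; ring
          refine ⟨_, hd', 1 - t, ⟨hmem, ?_⟩, hs⟩
          change f (c.seg b a (1 - t)) = y
          rw [hs]; exact hx
    · rintro (⟨v, hv, rfl⟩ | ⟨d, hd, t, ⟨ht, hpt⟩, rfl⟩)
      · exact hv
      · exact hpt
  rw [hset, encard_union_eq, encard_biUnion_finset]
  · congr 1
    · exact c.pt_inj.encard_image _
    · refine Finset.sum_congr rfl fun d _ => ?_
      unfold cntO
      apply InjOn.encard_image
      intro t ht t' ht' heq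
      exact c.seg_injOn d.adj ⟨ht.1.1.le, ht.1.2.le⟩ ⟨ht'.1.1.le, ht'.1.2.le⟩ heq
  · intro d hd d' hd' hne
    rw [Set.disjoint_left]
    rintro x ⟨t, ⟨ht, -⟩, rfl⟩ ⟨t', ⟨ht', -⟩, heq⟩
    simp only [Finset.mem_filter, Finset.mem_univ, true_and] at hd hd'
    rcases c.seg_inj _ _ _ _ d'.adj d.adj t' ht' t ht heq with ⟨h1, h2, h3⟩ | ⟨h1, h2, h3⟩
    · apply hne
      ext
      · exact h1
      · exact h2
    · have : d' = d.symm := by
        ext
        · exact h2.symm
        · exact h1.symm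
      rw [this] at hd'
      exact (hpos d).mp hd' hd
  · rw [Set.disjoint_left]
    rintro x ⟨v, -, rfl⟩ hx
    simp only [mem_iUnion, mem_image] at hx
    obtain ⟨d, -, t, ⟨ht, -⟩, heq⟩ := hx
    exact c.seg_ne _ _ d.adj t ht v heq

end Glue

end Pool.Agent.Helper26.KToOne
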