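import Pool.Agent.Helper26.KToOne.ToMap

/-!
# Combinatorics of lazy walks
-/

namespace Pool.Agent.Helper26.KToOne

open Finset

section Lists

variable {W : Type} {H : SimpleGraph W}

open Classical in
/-- number of traverses of `e` in the direction of `e` -/
noncomputable def trav (e : H.Dart) (ℓ : List (Step H)) : ℕ :=
  (ℓ.map fun s => if s.out = e ∧ s.arr = e.symm then 1 else 0).sum

/-- the lazy walk visits `x` -/
def Vis (ℓ : List (Step H)) (a x : W) : Prop := a = x ∨ ∃ s ∈ ℓ, s.arr.fst = x

open Classical in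
theorem num_cons (e : H.Dart) (s : Step H) (ℓ : List (Step H)) :
    num e (s :: ℓ) = ((if s.out = e then 1 else 0) + (if s.arr = e then 1 else 0)) + num e ℓ := by
  simp [num]

open Classical in
theorem mul_cons (e : H.Dart) (s : Step H) (ℓ : List (Step H)) :
    mul e (s :: ℓ) = ((if s.out = e then 2 * s.i + 1 else 0) +
      (if s.arr = e then 2 * s.j + 1 else 0)) + mul e ℓ := by
  simp [mul]

open Classical in
theorem dep_cons (w : W) (s : Step H) (ℓ : List (Step H)) :
    dep w (s :: ℓ) = (if s.out.fst = w then 1 else 0) + dep w ℓ := by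
  simp [dep]

open Classical in
theorem trav_cons (e : H.Dart) (s : Step H) (ℓ : List (Step H)) :
    trav e (s :: ℓ) = (if s.out = e ∧ s.arr = e.symm then 1 else 0) + trav e ℓ := by
  simp [trav]

open Classical in
theorem sum_dart_ite [Fintype W] (w : W) (e : H.Dart) :
    ∑ e' : H.Dart with e'.fst = w, (if e = e' then 1 else 0) = if e.fst = w then 1 else 0 := by
  rw [Finset.sum_ite_eq]
  simp

open Classical in
theorem sum_num [Fintype W] (w : W) (ℓ : List (Step H)) {a b : W} (h : IsLW ℓ a b) :
    (∑ e : H.Dart with e.fst = w, num e ℓ) + (if a = w then 1 else 0) =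
      2 * dep w ℓ + (if b = w then 1 else 0) := by
  induction ℓ generalizing a with
  | nil =>
    have h' : a = b := h
    subst h'
    simp [num, dep]
  | cons s ℓ ih =>
    have h1 := ih h.2
    simp only [num_cons, dep_cons, Finset.sum_add_distrib, sum_dart_ite]
    have h2 := h.1
    rw [h2]
    omega

theorem perm_num {ℓ ℓ' : List (Step H)} (h : ℓ.Perm ℓ') (e : H.Dart) : num e ℓ = num e ℓ' :=
  (h.map _).sum_eq

theorem perm_dep {ℓ ℓ' : List (Step H)} (h : ℓ.Perm ℓ') (w : W) : dep w ℓ = dep w ℓ' :=
  (h.map _).sum_eq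

/-- inserting an excursion into a lazy walk -/
theorem insert_exc (e : H.Dart) (s₀ : Step H) (h₁ : s₀.out = e) (h₂ : s₀.arr = e)
    (ℓ : List (Step H)) {a b : W} (h : IsLW ℓ a b) (hv : Vis ℓ a e.fst) :
    ∃ ℓ' : List (Step H), IsLW ℓ' a b ∧ ℓ'.Perm (s₀ :: ℓ) := by
  induction ℓ generalizing a with
  | nil =>
    rcases hv with hv | ⟨s, hs, -⟩
    · refine ⟨[s₀], ⟨?_, ?_⟩, List.Perm.refl _⟩
      · rw [h₁, hv]
      · rw [h₂, ← hv]; exact h
    · simp at hs
  | cons s ℓ ih =>
    by_cases ha : a = e.fst
    · refine ⟨s₀ :: s :: ℓ, ⟨?_, ?_⟩, List.Perm.refl _⟩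
      · rw [h₁, ha]
      · rw [h₂, ← ha]; exact h
    · have hv' : Vis ℓ s.arr.fst e.fst := by
        rcases hv with hv | ⟨s', hs', h'⟩
        · exact absurd hv ha
        · rcases List.mem_cons.mp hs' with rfl | hs'
          · left; exact h'
          · right; exact ⟨s', hs', h'⟩
      obtain ⟨ℓ', h1, h2⟩ := ih h.2 hv'
      exact ⟨s :: ℓ', ⟨h.1, h1⟩, (h2.cons s).trans (List.Perm.swap _ _ _)⟩

/-- same shape -/
def SameShape (ℓ ℓ' : List (Step H)) : Prop :=
  ℓ'.map (fun s => (s.out, s.arr)) = ℓ.map (fun s => (s.out, s.arr))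

theorem SameShape.isLW {ℓ ℓ' : List (Step H)} (h : SameShape ℓ ℓ') {a b : W} (hℓ : IsLW ℓ a b) :
    IsLW ℓ' a b := by
  induction ℓ generalizing ℓ' a with
  | nil =>
    unfold SameShape at h
    simp at h
    subst h
    exact hℓ
  | cons s ℓ ih =>
    cases ℓ' with
    | nil => simp [SameShape] at h
    | cons s' ℓ' =>
      unfold SameShape at h
      simp only [List.map_cons, List.cons.injEq, Prod.mk.injEq] at h
      refine ⟨by rw [h.1.1]; exact hℓ.1, ?_⟩
      rw [h.1.2]
      exact ih h.2 hℓ.2

theorem SameShape.num {ℓ ℓ' : List (Step H)} (h : SameShape ℓ ℓ') (e : H.Dart) :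
    num e ℓ' = num e ℓ := by
  classical
  unfold SameShape at h
  have h1 : ∀ ℓ : List (Step H), KToOne.num e ℓ = ((ℓ.map (fun s => (s.out, s.arr))).map
      (fun x : H.Dart × H.Dart => (if x.1 = e then 1 else 0) + (if x.2 = e then 1 else 0))).sum := by
    intro ℓ
    rw [KToOne.num, List.map_map]
    rfl
  rw [h1, h1, h]

theorem SameShape.dep {ℓ ℓ' : List (Step H)} (h : SameShape ℓ ℓ') (w : W) :
    dep w ℓ' = dep w ℓ := by
  classical
  unfold SameShape at h
  have h1 : ∀ ℓ : List (Step H), KToOne.dep w ℓ = ((ℓ.map (fun s => (s.out, s.arr))).map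
      (fun x : H.Dart × H.Dart => if x.1.fst = w then 1 else 0)).sum := by
    intro ℓ
    rw [KToOne.dep, List.map_map]
    rfl
  rw [h1, h1, h]

theorem SameShape.ne_nil {ℓ ℓ' : List (Step H)} (h : SameShape ℓ ℓ') (hne : ℓ ≠ []) : ℓ' ≠ [] := by
  rintro rfl
  unfold SameShape at h
  simp at h
  exact hne h

theorem SameShape.refl (ℓ : List (Step H)) : SameShape ℓ ℓ := rfl

theorem SameShape.trans {ℓ ℓ' ℓ'' : List (Step H)} (h : SameShape ℓ ℓ') (h' : SameShape ℓ' ℓ'') :
    SameShape ℓ ℓ'' := by
  unfold SameShape at *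
  rw [h', h]

/-- raising labels -/
theorem raise (e : H.Dart) (m : ℕ) (ℓ : List (Step H)) (h : 1 ≤ num e ℓ) :
    ∃ ℓ' : List (Step H), SameShape ℓ ℓ' ∧ mul e ℓ' = mul e ℓ + 2 * m ∧
      ∀ e', e' ≠ e → mul e' ℓ' = mul e' ℓ := by
  classical
  induction ℓ with
  | nil => simp [num] at h
  | cons s ℓ ih =>
    by_cases h1 : s.out = e
    · refine ⟨⟨s.out, s.arr, s.ok, s.i + m, s.j⟩ :: ℓ, rfl, ?_, ?_⟩
      · rw [mul_cons, mul_cons]
        simp only
        rw [if_pos h1, if_pos h1]
        ring
      · intro e' he'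
        rw [mul_cons, mul_cons]
        simp only
        rw [if_neg (c := s.out = e') (by rw [h1]; exact he'.symm),
          if_neg (c := s.out = e') (by rw [h1]; exact he'.symm)]
    · by_cases h2 : s.arr = e
      · refine ⟨⟨s.out, s.arr, s.ok, s.i, s.j + m⟩ :: ℓ, rfl, ?_, ?_⟩
        · rw [mul_cons, mul_cons]
          simp only
          rw [if_pos h2, if_pos h2]
          ring
        · intro e' he'
          rw [mul_cons, mul_cons]
          simp only
          rw [if_neg (c := s.arr = e') (by rw [h2]; exact he'.symm),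
            if_neg (c := s.arr = e') (by rw [h2]; exact he'.symm)]
      · rw [num_cons, if_neg h1, if_neg h2] at h
        obtain ⟨ℓ', h3, h4, h5⟩ := ih (by omega)
        refine ⟨s :: ℓ', ?_, ?_, ?_⟩
        · unfold SameShape at *
          rw [List.map_cons, List.map_cons, h3]
        · rw [mul_cons, mul_cons, h4]; ring
        · intro e' he'
          rw [mul_cons, mul_cons, h5 e' he']

end Lists

section Families

variable {V : Type} {G : SimpleGraph V} {W : Type} {H : SimpleGraph W}

open Classical in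
/-- Splitting a sum over oriented edges. -/
theorem sum_dart_eq [Fintype V] (pos : G.Dart → Prop) (hpos : ∀ d, pos d.symm ↔ ¬ pos d)
    {M : Type*} [AddCommMonoid M] (F : G.Dart → M) :
    ∑ d : G.Dart, F d = ∑ d : G.Dart with pos d, (F d + F d.symm) := by
  rw [← Finset.sum_filter_add_sum_filter_not Finset.univ pos F, Finset.sum_add_distrib]
  congr 1
  refine Finset.sum_nbij' (fun d => d.symm) (fun d => d.symm) ?_ ?_ ?_ ?_ ?_
  · intro d hd
    simp only [Finset.mem_filter, Finset.mem_univ, true_and] at hd ⊢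
    exact (hpos d).mpr hd
  · intro d hd
    simp only [Finset.mem_filter, Finset.mem_univ, true_and] at hd ⊢
    rw [hpos]; simpa using hd
  · intro d _; simp
  · intro d _; simp
  · intro d _; simp

/-- an orientation of the edges -/
theorem exists_pos [Finite V] (G : SimpleGraph V) :
    ∃ pos : G.Dart → Prop, ∀ d, pos d.symm ↔ ¬ pos d := by
  obtain ⟨n, ⟨φ⟩⟩ := Finite.exists_equiv_fin V
  refine ⟨fun d => φ d.fst < φ d.snd, fun d => ?_⟩
  change φ d.snd < φ d.fst ↔ ¬ φ d.fst < φ d.snd
  have : φ d.fst ≠ φ d.snd := fun h => d.fst_ne_snd (φ.injective h)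
  rw [not_lt]
  exact ⟨le_of_lt, fun h => lt_of_le_of_ne h this.symm⟩

open Classical in
/-- Inserting excursions to reach prescribed numbers of half steps. -/
theorem insert_all [Fintype V] [Fintype W] (pos : G.Dart → Prop) (q : V → W) (t : H.Dart → ℕ) :
    ∀ (n : ℕ) (r : H.Dart → ℕ) (L : G.Dart → List (Step H)),
      ∑ e, r e = n →
      (∀ d, pos d → IsLW (L d) (q d.fst) (q d.snd)) →
      (∀ d, ∀ s ∈ L d, s.i = 0 ∧ s.j = 0) →
      (∀ e, (∑ d : G.Dart with pos d, num e (L d)) + 2 * r e = t e) →
      (∀ w, #{d : G.Dart | pos d ∧ L d = [] ∧ q d.fst = w} ≤ ∑ e : H.Dart with e.fst = w, r e) →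
      (∀ w, ∃ d, pos d ∧ Vis (L d) (q d.fst) w) →
      ∃ L' : G.Dart → List (Step H), (∀ d, pos d → IsLW (L' d) (q d.fst) (q d.snd)) ∧
        (∀ d, ∀ s ∈ L' d, s.i = 0 ∧ s.j = 0) ∧ (∀ d, pos d → L' d ≠ []) ∧
        (∀ e, (∑ d : G.Dart with pos d, num e (L' d)) = t e) := by
  intro n
  induction n with
  | zero =>
    intro r L hr h1 h2 h3 h4 h5
    have hr0 : ∀ e, r e = 0 := by
      intro e
      rw [Finset.sum_eq_zero_iff] at hr
      exact hr e (Finset.mem_univ e)
    refine ⟨L, h1, h2, ?_, ?_⟩
    · intro d hd hnil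
      have h6 := h4 (q d.fst)
      rw [Finset.sum_eq_zero (fun e _ => hr0 e), Nat.le_zero, Finset.card_eq_zero] at h6
      have : d ∈ ({d' : G.Dart | pos d' ∧ L d' = [] ∧ q d'.fst = q d.fst} : Finset _) := by
        simp [hd, hnil]
      rw [h6] at this
      simp at this
    · intro e
      have := h3 e
      rw [hr0 e] at this
      simpa using this
  | succ n ih =>
    intro r L hr h1 h2 h3 h4 h5
    -- an edge with a remaining excursion
    obtain ⟨e, he⟩ : ∃ e, r e ≠ 0 := by
      by_contra hcon
      push Not at hcon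
      rw [Finset.sum_eq_zero (fun e _ => hcon e)] at hr
      omega
    -- choose the place
    obtain ⟨d₀, hd₀, hv₀, hnil₀⟩ : ∃ d₀, pos d₀ ∧ Vis (L d₀) (q d₀.fst) e.fst ∧
        ((∃ d, pos d ∧ L d = [] ∧ q d.fst = e.fst) → L d₀ = [] ∧ q d₀.fst = e.fst) := by
      by_cases hex : ∃ d, pos d ∧ L d = [] ∧ q d.fst = e.fst
      · obtain ⟨d, hd, hd1, hd2⟩ := hex
        exact ⟨d, hd, Or.inl hd2, fun _ => ⟨hd1, hd2⟩⟩
      · obtain ⟨d, hd, hv⟩ := h5 e.fst
        exact ⟨d, hd, hv, fun h => absurd h hex⟩
    obtain ⟨ℓ', hℓ1, hℓ2⟩ := insert_exc e ⟨e, e, Or.inl rfl, 0, 0⟩ rfl rfl (L d₀) (h1 d₀ hd₀) hv₀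
    set L₁ : G.Dart → List (Step H) := Function.update L d₀ ℓ' with hL₁
    have hL₁_same : L₁ d₀ = ℓ' := by rw [hL₁, Function.update_self]
    have hL₁_ne : ∀ d, d ≠ d₀ → L₁ d = L d := fun d hd => by
      rw [hL₁, Function.update_of_ne hd]
    set r₁ : H.Dart → ℕ := Function.update r e (r e - 1) with hr₁
    have hr₁_same : r₁ e = r e - 1 := by rw [hr₁, Function.update_self]
    have hr₁_ne : ∀ e', e' ≠ e → r₁ e' = r e' := fun e' he' => by
      rw [hr₁, Function.update_of_ne he']
    have hℓ'ne : ℓ' ≠ [] := by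
      rintro rfl
      have := hℓ2.length_eq
      simp at this
    refine ih r₁ L₁ ?_ ?_ ?_ ?_ ?_ ?_
    · have h6 := Finset.add_sum_erase Finset.univ r (Finset.mem_univ e)
      have h7 := Finset.add_sum_erase Finset.univ r₁ (Finset.mem_univ e)
      have h8 : ∑ x ∈ Finset.univ.erase e, r₁ x = ∑ x ∈ Finset.univ.erase e, r x :=
        Finset.sum_congr rfl fun x hx => hr₁_ne x (Finset.ne_of_mem_erase hx)
      omega
    · intro d hd
      by_cases hdd : d = d₀
      · subst hdd; rw [hL₁_same]; exact hℓ1
      · rw [hL₁_ne d hdd]; exact h1 d hd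
    · intro d s hs
      by_cases hdd : d = d₀
      · subst hdd
        rw [hL₁_same] at hs
        rcases List.mem_cons.mp (hℓ2.subset hs) with rfl | hs
        · exact ⟨rfl, rfl⟩
        · exact h2 _ s hs
      · rw [hL₁_ne d hdd] at hs; exact h2 d s hs
    · intro e'
      have hd₀m : d₀ ∈ (Finset.univ.filter fun d => pos d : Finset G.Dart) := by
        simp only [Finset.mem_filter, Finset.mem_univ, true_and]; exact hd₀
      have h6 := Finset.add_sum_erase (Finset.univ.filter fun d => pos d) (fun d => num e' (L d)) hd₀m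
      have h7 := Finset.add_sum_erase (Finset.univ.filter fun d => pos d) (fun d => num e' (L₁ d)) hd₀m
      have h8 : ∑ x ∈ (Finset.univ.filter fun d => pos d).erase d₀, num e' (L₁ x) =
          ∑ x ∈ (Finset.univ.filter fun d => pos d).erase d₀, num e' (L x) :=
        Finset.sum_congr rfl fun x hx => by rw [hL₁_ne x (Finset.ne_of_mem_erase hx)]
      have h9 := h3 e'
      rw [hL₁_same, perm_num hℓ2, num_cons] at h7
      by_cases hee : e = e'
      · subst hee
        rw [hr₁_same]
        simp only [if_true] at h7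
        omega
      · rw [hr₁_ne e' (Ne.symm hee)]
        simp only [if_neg hee] at h7
        omega
    · intro w
      have hsub : ({d : G.Dart | pos d ∧ L₁ d = [] ∧ q d.fst = w} : Finset G.Dart) ⊆
          ({d : G.Dart | pos d ∧ L d = [] ∧ q d.fst = w} : Finset G.Dart).erase d₀ := by
        intro d hd
        simp only [Finset.mem_filter, Finset.mem_univ, true_and, Finset.mem_erase] at hd ⊢
        by_cases hdd : d = d₀
        · subst hdd
          rw [hL₁_same] at hd
          exact absurd hd.2.1 hℓ'ne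
        · rw [hL₁_ne d hdd] at hd
          exact ⟨hdd, hd⟩
      have hle := Finset.card_le_card hsub
      have h6 := h4 w
      by_cases hw : e.fst = w
      · subst hw
        have hem : e ∈ (Finset.univ.filter fun e' : H.Dart => e'.fst = e.fst) := by simp
        have h7 := Finset.add_sum_erase (Finset.univ.filter fun e' : H.Dart => e'.fst = e.fst) r hem
        have h8 := Finset.add_sum_erase (Finset.univ.filter fun e' : H.Dart => e'.fst = e.fst) r₁ hem
        have h9 : ∑ x ∈ (Finset.univ.filter fun e' : H.Dart => e'.fst = e.fst).erase e, r₁ x =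
            ∑ x ∈ (Finset.univ.filter fun e' : H.Dart => e'.fst = e.fst).erase e, r x :=
          Finset.sum_congr rfl fun x hx => hr₁_ne x (Finset.ne_of_mem_erase hx)
        by_cases hex : ∃ d, pos d ∧ L d = [] ∧ q d.fst = e.fst
        · have h10 := hnil₀ hex
          have hmem : d₀ ∈ ({d : G.Dart | pos d ∧ L d = [] ∧ q d.fst = e.fst} : Finset G.Dart) := by
            simp only [Finset.mem_filter, Finset.mem_univ, true_and]
            exact ⟨hd₀, h10.1, h10.2⟩
          rw [Finset.card_erase_of_mem hmem] at hle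
          have hpos' : 0 < #{d : G.Dart | pos d ∧ L d = [] ∧ q d.fst = e.fst} :=
            Finset.card_pos.mpr ⟨d₀, hmem⟩
          omega
        · have hempty : ({d : G.Dart | pos d ∧ L₁ d = [] ∧ q d.fst = e.fst} : Finset G.Dart) = ∅ := by
            rw [Finset.eq_empty_iff_forall_notMem]
            intro d hd
            have h11 := hsub hd
            simp only [Finset.mem_filter, Finset.mem_univ, true_and, Finset.mem_erase] at h11
            exact hex ⟨d, h11.2⟩
          rw [hempty]
          simp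
      · have h7 : ∑ e' : H.Dart with e'.fst = w, r₁ e' = ∑ e' : H.Dart with e'.fst = w, r e' := by
          refine Finset.sum_congr rfl fun x hx => hr₁_ne x ?_
          rintro rfl
          simp only [Finset.mem_filter, Finset.mem_univ, true_and] at hx
          exact hw hx
        rw [h7]
        have := Finset.card_le_card (Finset.erase_subset d₀
          ({d : G.Dart | pos d ∧ L d = [] ∧ q d.fst = w} : Finset G.Dart))
        omega
    · intro w
      obtain ⟨d, hd, hv⟩ := h5 w
      refine ⟨d, hd, ?_⟩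
      by_cases hdd : d = d₀
      · subst hdd
        rw [hL₁_same]
        rcases hv with hv | ⟨s, hs, hv⟩
        · left; exact hv
        · right
          exact ⟨s, hℓ2.symm.subset (List.mem_cons_of_mem _ hs), hv⟩
      · rw [hL₁_ne d hdd]; exact hv

open Classical in
/-- Raising the labels so that every edge gets exactly `k` strands. -/
theorem raise_all [Fintype V] [Fintype W] (pos : G.Dart → Prop) (k : ℕ)
    (L : G.Dart → List (Step H))
    (h1 : ∀ e, 1 ≤ ∑ d : G.Dart with pos d, num e (L d))
    (h2 : ∀ e, ∃ m, (∑ d : G.Dart with pos d, mul e (L d)) + 2 * m = k) :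
    ∃ L' : G.Dart → List (Step H), (∀ d, SameShape (L d) (L' d)) ∧
      ∀ e, ∑ d : G.Dart with pos d, mul e (L' d) = k := by
  have key : ∀ S : Finset H.Dart, ∃ L' : G.Dart → List (Step H), (∀ d, SameShape (L d) (L' d)) ∧
      (∀ e ∈ S, ∑ d : G.Dart with pos d, mul e (L' d) = k) ∧
      (∀ e ∉ S, ∑ d : G.Dart with pos d, mul e (L' d) = ∑ d : G.Dart with pos d, mul e (L d)) := by
    intro S
    induction S using Finset.induction_on with
    | empty => exact ⟨L, fun d => SameShape.refl _, by simp, by simp⟩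
    | insert e S he ih =>
      obtain ⟨L₁, hL₁, hS₁, hS₂⟩ := ih
      obtain ⟨m, hm⟩ := h2 e
      obtain ⟨d₀, hd₀, hn⟩ : ∃ d₀, pos d₀ ∧ 1 ≤ num e (L₁ d₀) := by
        by_contra hcon
        push Not at hcon
        have h3 := h1 e
        have h4 : ∑ d : G.Dart with pos d, num e (L d) = 0 := by
          refine Finset.sum_eq_zero fun d hd => ?_
          simp only [Finset.mem_filter, Finset.mem_univ, true_and] at hd
          have := hcon d hd
          rw [(hL₁ d).num] at this
          omega
        omega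
      obtain ⟨ℓ', hs, hme, hmo⟩ := raise e m (L₁ d₀) hn
      have hd₀m : d₀ ∈ (Finset.univ.filter fun d => pos d : Finset G.Dart) := by
        simp only [Finset.mem_filter, Finset.mem_univ, true_and]; exact hd₀
      have hsum : ∀ e', (∑ d : G.Dart with pos d, mul e' (Function.update L₁ d₀ ℓ' d)) +
          mul e' (L₁ d₀) = (∑ d : G.Dart with pos d, mul e' (L₁ d)) + mul e' ℓ' := by
        intro e'
        have h6 := Finset.add_sum_erase (Finset.univ.filter fun d => pos d) (fun d => mul e' (L₁ d)) hd₀m
        have h7 := Finset.add_sum_erase (Finset.univ.filter fun d => pos d)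
          (fun d => mul e' (Function.update L₁ d₀ ℓ' d)) hd₀m
        have h8 : ∑ x ∈ (Finset.univ.filter fun d => pos d).erase d₀, mul e' (Function.update L₁ d₀ ℓ' x) =
            ∑ x ∈ (Finset.univ.filter fun d => pos d).erase d₀, mul e' (L₁ x) :=
          Finset.sum_congr rfl fun x hx => by
            rw [Function.update_of_ne (Finset.ne_of_mem_erase hx)]
        simp only [Function.update_self] at h6 h7
        omega
      refine ⟨Function.update L₁ d₀ ℓ', ?_, ?_, ?_⟩
      · intro d
        by_cases hdd : d = d₀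
        · subst hdd
          rw [Function.update_self]
          exact (hL₁ d).trans hs
        · rw [Function.update_of_ne hdd]; exact hL₁ d
      · intro e' he'
        have h9 := hsum e'
        rcases Finset.mem_insert.mp he' with rfl | he''
        · rw [hme, hS₂ e' he] at h9
          omega
        · have hne : e' ≠ e := by rintro rfl; exact he he''
          rw [hmo e' hne, hS₁ e' he''] at h9
          omega
      · intro e' he'
        have h9 := hsum e'
        rw [Finset.mem_insert, not_or] at he'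
        rw [hmo e' he'.1, hS₂ e' he'.2] at h9
        omega
  obtain ⟨L', hL', hS, -⟩ := key Finset.univ
  exact ⟨L', hL', fun e => hS e (Finset.mem_univ e)⟩

end Families

end Pool.Agent.Helper26.KToOne
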