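import Mathlib

/-!
# Exactly `k`-to-1 maps between finite graphs: definitions used in the statement
-/

namespace Pool.Agent.Helper26.KToOne

open Finset

/-- The geometric realisation of a finite simple graph `G`: the points of the standard simplex on
the vertex set whose support is contained in an edge of `G`, with the subspace topology. -/
def Realization {V : Type} [Fintype V] (G : SimpleGraph V) : Set (V → ℝ) :=
  {x | (∀ v, 0 ≤ x v) ∧ ∑ v, x v = 1 ∧ ∃ u v, G.Adj u v ∧ ∀ w, x w ≠ 0 → w = u ∨ w = v}

/-- There is a continuous exactly `k`-to-1 surjection from the topological graph `|G|` onto the
topological graph `|H|`. -/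
def HasKToOneMap {V W : Type} [Fintype V] [Fintype W] (k : ℕ)
    (G : SimpleGraph V) (H : SimpleGraph W) : Prop :=
  ∃ f : Realization G → Realization H,
    Continuous f ∧ Function.Surjective f ∧ ∀ y, (f ⁻¹' {y}).ncard = k

/-- The graph obtained from `H` by subdividing the edge `uv` once; `none` is the new vertex. -/
def subdivideEdge {W : Type} (H : SimpleGraph W) (u v : W) : SimpleGraph (Option W) where
  Adj
    | some x, some y => H.Adj x y ∧ s(x, y) ≠ s(u, v)
    | some x, none => x = u ∨ x = v
    | none, some y => y = u ∨ y = v
    | none, none => False
  symm := by
    constructor
    rintro (_ | x) (_ | y) h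
    · exact h
    · exact h
    · exact h
    · exact ⟨h.1.symm, by rw [Sym2.eq_swap]; exact h.2⟩
  loopless := by
    constructor
    rintro (_ | x) h
    · exact h
    · exact H.irrefl h.1

/-- `Subdivision H n H'`: the graph `H'` is obtained from `H` by `n` successive subdivisions of an
edge. -/
inductive Subdivision : ∀ {W W' : Type}, SimpleGraph W → ℕ → SimpleGraph W' → Prop
  | refl {W : Type} (H : SimpleGraph W) : Subdivision H 0 H
  | step {W W' : Type} {H : SimpleGraph W} {n : ℕ} {H' : SimpleGraph W'} {u v : W'} :
      Subdivision H n H' → H'.Adj u v → Subdivision H (n + 1) (subdivideEdge H' u v)

/-- A routing of `G` in `H`: every vertex of `G` is placed at a vertex of `H` and every edge of `G`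
is assigned a walk of `H` (possibly of length zero) between the places of its ends.  The walk is
given for both orientations of the edge, the two being reverse to each other. -/
structure Routing {V W : Type} (G : SimpleGraph V) (H : SimpleGraph W) where
  /-- the place of a vertex -/
  place : V → W
  /-- the walk assigned to an oriented edge -/
  route : ∀ d : G.Dart, H.Walk (place d.fst) (place d.snd)
  /-- the two orientations of an edge get reverse walks -/
  route_symm : ∀ d : G.Dart, route d.symm = (route d).reverse

namespace Routing

variable {V W : Type} [Fintype V] {G : SimpleGraph V} {H : SimpleGraph W}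

open Classical in
/-- The traffic through an edge of `H` (given by one of its orientations `e`): the number of times
that the walks assigned to the edges of `G` traverse it, in either direction. (The sum runs over
the oriented edges of `G`; each edge of `G` contributes its traverses along `e` through one
orientation and those against `e` through the other.) -/
noncomputable def traffic (R : Routing G H) (e : H.Dart) : ℕ :=
  ∑ d : G.Dart, (R.route d).darts.count e

open Classical in
/-- Twice the number of times that the walks assigned to the edges of `G` pass through `w` (visits
at the ends of a walk are not counted). The factor two is due to the sum running over the oriented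
edges of `G`. -/
noncomputable def twiceTransit (R : Routing G H) (w : W) : ℕ :=
  ∑ d : G.Dart, ((R.route d).support.tail.dropLast).count w

open Classical in
/-- The number of vertices of `G` placed at `w`. -/
noncomputable def occupancy (R : Routing G H) (w : W) : ℕ :=
  #{v | R.place v = w}

open Classical in
/-- The sum of `order v - 2` over the vertices `v` of `G` placed at `w`. -/
noncomputable def excess (R : Routing G H) (w : W) : ℤ :=
  ∑ v with R.place v = w, ((G.degree v : ℤ) - 2)

open Classical in
/-- The conditions on a routing that characterise the existence of a `k`-to-1 map. -/
structure Admissible [Fintype W] (k : ℕ) (R : Routing G H) : Prop where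
  /-- each edge of `H` is traversed at most `k` times -/
  traffic_le : ∀ e : H.Dart, R.traffic e ≤ k
  /-- the number of traverses of each edge of `H` has the parity of `k` -/
  traffic_parity : ∀ e : H.Dart, R.traffic e ≡ k [MOD 2]
  /-- placed vertices and passing walks together use each vertex of `H` at most `k` times -/
  capacity : ∀ w : W, 2 * R.occupancy w + R.twiceTransit w ≤ 2 * k
  /-- local Euler number inequality -/
  euler : ∀ w : W, R.excess w ≤ k * ((H.degree w : ℤ) - 2)
  /-- for even `k`, untraversed edges still need two strands at each of their ends -/
  even_lower : Even k → ∀ w : W,
    ∑ e : H.Dart with e.fst = w, (max (R.traffic e) 2 : ℤ) ≤ 2 * k + R.excess w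
  /-- each vertex of `H` lies on one of the walks -/
  covered : ∀ w : W, ∃ d : G.Dart, w ∈ (R.route d).support

end Routing

end Pool.Agent.Helper26.KToOne
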