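import Pool.Agent.Helper26.KToOne.Chart

/-!
# The graph structure of a geometric realisation, and subdivisions
-/

namespace Pool.Agent.Helper26.KToOne

open Set

section Realization

variable {V : Type} {G : SimpleGraph V}

/-- clamping to the unit interval -/
noncomputable def clamp (t : ℝ) : ℝ := max 0 (min t 1)

theorem clamp_continuous : Continuous clamp := by unfold clamp; fun_prop

theorem clamp_of_mem {t : ℝ} (h : t ∈ Icc (0 : ℝ) 1) : clamp t = t := by
  rw [clamp, min_eq_left h.2, max_eq_right h.1]

theorem clamp_mem (t : ℝ) : clamp t ∈ Icc (0 : ℝ) 1 :=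
  ⟨le_max_left _ _, max_le (by norm_num) (min_le_right _ _)⟩

theorem clamp_one_sub (t : ℝ) : clamp (1 - t) = 1 - clamp t := by
  rcases le_total t 0 with h | h
  · have h1 : clamp t = 0 := by rw [clamp, min_eq_left (by linarith), max_eq_left h]
    have h2 : clamp (1 - t) = 1 := by rw [clamp, min_eq_right (by linarith)]; norm_num
    rw [h1, h2]; norm_num
  · rcases le_total t 1 with h' | h'
    · rw [clamp_of_mem ⟨h, h'⟩, clamp_of_mem ⟨by linarith, by linarith⟩]
    · have h1 : clamp t = 1 := by rw [clamp, min_eq_right h']; norm_num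
      have h2 : clamp (1 - t) = 0 := by
        rw [clamp, min_eq_left (by linarith), max_eq_left (by linarith)]
      rw [h1, h2]; norm_num

open Classical in
/-- barycentric coordinates along an edge -/
noncomputable def bary (a b : V) (t : ℝ) : V → ℝ :=
  fun w => (if w = a then 1 - clamp t else 0) + (if w = b then clamp t else 0)

theorem bary_mem [Fintype V] {a b : V} (h : G.Adj a b) (t : ℝ) : bary a b t ∈ Realization G := by
  classical
  have hc := clamp_mem t
  refine ⟨?_, ?_, a, b, h, ?_⟩
  · intro w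
    unfold bary
    have h1 : 0 ≤ 1 - clamp t := by linarith [hc.2]
    have h2 := hc.1
    split_ifs <;> linarith
  · unfold bary
    rw [Finset.sum_add_distrib, Finset.sum_ite_eq' Finset.univ a, Finset.sum_ite_eq' Finset.univ b]
    simp
  · intro w hw
    by_contra hcon
    push Not at hcon
    apply hw
    unfold bary
    rw [if_neg hcon.1, if_neg hcon.2, add_zero]

theorem bary_left {a b : V} (h : a ≠ b) (t : ℝ) : bary a b t a = 1 - clamp t := by
  unfold bary; rw [if_pos rfl, if_neg h, add_zero]

theorem bary_right {a b : V} (h : a ≠ b) (t : ℝ) : bary a b t b = clamp t := by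
  unfold bary; rw [if_neg h.symm, if_pos rfl, zero_add]

theorem bary_other {a b w : V} (h : w ≠ a) (h' : w ≠ b) (t : ℝ) : bary a b t w = 0 := by
  unfold bary; rw [if_neg h, if_neg h', add_zero]

theorem bary_zero {a b b' : V} : bary a b 0 = bary a b' 0 := by
  funext w
  unfold bary
  rw [clamp_of_mem ⟨le_refl _, by norm_num⟩]
  simp

theorem bary_continuous (a b : V) : Continuous (bary a b) := by
  refine continuous_pi fun w => ?_
  unfold bary
  have := clamp_continuous
  refine Continuous.add ?_ ?_
  · split_ifs <;> fun_prop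
  · split_ifs <;> fun_prop

/-- The graph structure of the geometric realisation. -/
noncomputable def realChart [Fintype V] (hG : ∀ v, ∃ u, G.Adj v u) : Chart (Realization G) G where
  pt v := ⟨bary v (hG v).choose 0, bary_mem (hG v).choose_spec 0⟩
  seg a b t := by
    classical
    exact if h : G.Adj a b then ⟨bary a b t, bary_mem h t⟩
      else ⟨bary a (hG a).choose 0, bary_mem (hG a).choose_spec 0⟩
  cont a b h := by
    simp only [dif_pos h]
    exact (bary_continuous a b).subtype_mk _
  seg_zero a b h := by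
    simp only [dif_pos h]
    rw [Subtype.mk.injEq]
    exact bary_zero
  seg_rev a b h t := by
    simp only [dif_pos h, dif_pos h.symm]
    rw [Subtype.mk.injEq]
    funext w
    unfold bary
    rw [clamp_one_sub, sub_sub_cancel, add_comm]
  pt_inj := by
    intro v v' hvv
    rw [Subtype.mk.injEq] at hvv
    by_contra hne
    have h1 := congrFun hvv v
    rw [bary_left (hG v).choose_spec.ne, clamp_of_mem ⟨le_refl _, by norm_num⟩] at h1
    unfold bary at h1
    rw [if_neg hne, clamp_of_mem ⟨le_refl _, by norm_num⟩] at h1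
    simp at h1
  seg_ne := by
    classical
    intro a b h t ht w heq
    simp only [dif_pos h] at heq
    rw [Subtype.mk.injEq] at heq
    have hc : clamp t = t := clamp_of_mem ⟨ht.1.le, ht.2.le⟩
    have hc0 : clamp 0 = 0 := clamp_of_mem ⟨le_refl _, by norm_num⟩
    have key : ∀ x, bary w (hG w).choose 0 x = if x = w then 1 else 0 := by
      intro x
      unfold bary
      rw [hc0]
      simp
    have h1 := congrFun heq a
    rw [key, bary_left h.ne, hc] at h1
    have h2 := congrFun heq b
    rw [key, bary_right h.ne, hc] at h2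
    split_ifs at h1 with h3
    · linarith [ht.1]
    · linarith [ht.2]
  seg_inj := by
    intro a b a' b' h h' t ht t' ht' heq
    simp only [dif_pos h, dif_pos h'] at heq
    rw [Subtype.mk.injEq] at heq
    have hc : clamp t = t := clamp_of_mem ⟨ht.1.le, ht.2.le⟩
    have hc' : clamp t' = t' := clamp_of_mem ⟨ht'.1.le, ht'.2.le⟩
    have h1 := congrFun heq a
    rw [bary_left h.ne, hc] at h1
    have h2 := congrFun heq b
    rw [bary_right h.ne, hc] at h2
    by_cases haa : a = a'
    · subst haa
      rw [bary_left h'.ne, hc'] at h1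
      by_cases hbb : b = b'
      · subst hbb
        left
        exact ⟨rfl, rfl, by linarith⟩
      · rw [bary_other h.ne.symm hbb] at h2
        linarith [ht.1]
    · by_cases hab : a = b'
      · subst hab
        rw [bary_right h'.ne, hc'] at h1
        by_cases hba : b = a'
        · subst hba
          right
          exact ⟨rfl, rfl, by linarith⟩
        · rw [bary_other hba h.ne.symm] at h2
          linarith [ht.1]
      · rw [bary_other haa hab] at h1
        linarith [ht.2]
  cover := by
    rintro ⟨x, hx0, hx1, u, v, huv, hx⟩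
    classical
    have hsum : x u + x v = 1 := by
      rw [← hx1, ← Finset.sum_pair huv.ne]
      refine Finset.sum_subset (Finset.subset_univ _) fun w _ hw => ?_
      by_contra hcon
      apply hw
      rw [Finset.mem_insert, Finset.mem_singleton]
      exact hx w hcon
    have hmem : x v ∈ Icc (0 : ℝ) 1 := ⟨hx0 v, by linarith [hx0 u]⟩
    have hxb : x = bary u v (x v) := by
      funext w
      by_cases h1 : w = u
      · subst h1; rw [bary_left huv.ne, clamp_of_mem hmem]; linarith
      · by_cases h2 : w = v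
        · subst h2; rw [bary_right huv.ne, clamp_of_mem hmem]
        · rw [bary_other h1 h2]
          by_contra hcon
          rcases hx w hcon with h3 | h3
          · exact h1 h3
          · exact h2 h3
    rcases icc_cases hmem with h0 | h1 | h2
    · left
      refine ⟨u, Subtype.ext ?_⟩
      change bary u (hG u).choose 0 = x
      rw [hxb, h0]
      exact bary_zero
    · left
      refine ⟨v, Subtype.ext ?_⟩
      change bary v (hG v).choose 0 = x
      rw [hxb, h1]
      funext w
      unfold bary
      rw [clamp_of_mem ⟨le_refl _, by norm_num⟩, clamp_of_mem ⟨by norm_num, le_refl _⟩]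
      simp
    · right
      refine ⟨u, v, huv, x v, h2, Subtype.ext ?_⟩
      simp only [dif_pos huv]
      exact hxb.symm

theorem exists_realChart [Fintype V] (hG : G.Connected) [Nontrivial V] : Nonempty (Chart (Realization G) G) :=
  ⟨realChart fun v => hG.preconnected.exists_adj_of_nontrivial v⟩

end Realization

section Subdivision

variable {Y : Type} [TopologicalSpace Y] {W : Type} {H : SimpleGraph W}

open Classical in
/-- segments of the subdivided graph -/
noncomputable def subSeg (c : Chart Y H) (u v : W) (s : ℝ) : Option W → Option W → ℝ → Y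
  | some x, some y => c.seg x y
  | some x, none => fun t => if x = u then c.seg u v (s * t) else c.seg v u ((1 - s) * t)
  | none, some y => fun t =>
      if y = u then c.seg u v (s * (1 - t)) else c.seg v u ((1 - s) * (1 - t))
  | none, none => fun _ => c.pt u

/-- points of the subdivided graph -/
noncomputable def subPt (c : Chart Y H) (u v : W) (s : ℝ) : Option W → Y
  | some x => c.pt x
  | none => c.seg u v s

/-- description of the open segments of the subdivided graph -/
theorem subSeg_cases (c : Chart Y H) {u v : W} (huv : H.Adj u v) {s : ℝ} (hs : s ∈ Ioo (0 : ℝ) 1)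
    {p q : Option W} (hpq : (subdivideEdge H u v).Adj p q) {t : ℝ} (ht : t ∈ Ioo (0 : ℝ) 1) :
    (∃ x y, p = some x ∧ q = some y ∧ H.Adj x y ∧ s(x, y) ≠ s(u, v) ∧
      subSeg c u v s p q t = c.seg x y t) ∨
    (∃ τ ∈ Ioo (0 : ℝ) s, subSeg c u v s p q t = c.seg u v τ ∧
      ((p = some u ∧ q = none ∧ τ = s * t) ∨ (p = none ∧ q = some u ∧ τ = s * (1 - t)))) ∨
    (∃ τ ∈ Ioo s (1 : ℝ), subSeg c u v s p q t = c.seg u v τ ∧
      ((p = some v ∧ q = none ∧ τ = 1 - (1 - s) * t) ∨
        (p = none ∧ q = some v ∧ τ = 1 - (1 - s) * (1 - t)))) := by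
  have hs1 : 0 < 1 - s := by linarith [hs.2]
  have ht1 : 0 < 1 - t := by linarith [ht.2]
  rcases p with _ | x <;> rcases q with _ | y
  · exact hpq.elim
  · rcases hpq with h | h
    · subst h
      right; left
      refine ⟨s * (1 - t), ⟨by have := hs.1; positivity, ?_⟩, ?_, Or.inr ⟨rfl, rfl, rfl⟩⟩
      · nlinarith [hs.1, ht.1]
      · simp [subSeg]
    · subst h
      right; right
      refine ⟨1 - (1 - s) * (1 - t), ⟨?_, ?_⟩, ?_, Or.inr ⟨rfl, rfl, rfl⟩⟩
      · nlinarith [ht.1]
      · have : 0 < (1 - s) * (1 - t) := by positivity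
        linarith
      · simp only [subSeg]
        rw [if_neg huv.ne.symm, c.seg_rev u y huv]
  · rcases hpq with h | h
    · subst h
      right; left
      refine ⟨s * t, ⟨by have := hs.1; have := ht.1; positivity, ?_⟩, ?_, Or.inl ⟨rfl, rfl, rfl⟩⟩
      · nlinarith [hs.1, ht.2]
      · simp [subSeg]
    · subst h
      right; right
      refine ⟨1 - (1 - s) * t, ⟨?_, ?_⟩, ?_, Or.inl ⟨rfl, rfl, rfl⟩⟩
      · nlinarith [ht.2]
      · have : 0 < (1 - s) * t := by have := ht.1; positivity
        linarith
      · simp only [subSeg]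
        rw [if_neg huv.ne.symm, c.seg_rev u x huv]
  · left
    exact ⟨x, y, rfl, rfl, hpq.1, hpq.2, rfl⟩

/-- The graph structure obtained by subdividing an edge at an interior point. -/
noncomputable def subChart (c : Chart Y H) {u v : W} (huv : H.Adj u v) {s : ℝ}
    (hs : s ∈ Ioo (0 : ℝ) 1) : Chart Y (subdivideEdge H u v) where
  pt := subPt c u v s
  seg := subSeg c u v s
  cont := by
    rintro (_ | x) (_ | y) h
    · exact h.elim
    · rcases h with h | h
      · subst h
        simp only [subSeg, if_true]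
        exact (c.cont _ _ huv).comp (by fun_prop)
      · subst h
        simp only [subSeg, if_neg huv.ne.symm]
        exact (c.cont _ _ huv.symm).comp (by fun_prop)
    · rcases h with h | h
      · subst h
        simp only [subSeg, if_true]
        exact (c.cont _ _ huv).comp (by fun_prop)
      · subst h
        simp only [subSeg, if_neg huv.ne.symm]
        exact (c.cont _ _ huv.symm).comp (by fun_prop)
    · exact c.cont _ _ h.1
  seg_zero := by
    rintro (_ | x) (_ | y) h
    · exact h.elim
    · rcases h with h | h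
      · subst h; simp [subSeg, subPt]
      · subst h
        simp only [subSeg, subPt]
        rw [if_neg huv.ne.symm, c.seg_rev u y huv]
        congr 1; ring
    · rcases h with h | h
      · subst h; simp [subSeg, subPt, c.seg_zero _ _ huv]
      · subst h
        simp only [subSeg, subPt]
        rw [if_neg huv.ne.symm, mul_zero, c.seg_zero _ _ huv.symm]
    · exact c.seg_zero _ _ h.1
  seg_rev := by
    rintro (_ | x) (_ | y) h t
    · exact h.elim
    · simp only [subSeg, sub_sub_cancel]
    · simp only [subSeg]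
    · exact c.seg_rev _ _ h.1 t
  pt_inj := by
    rintro (_ | x) (_ | y) h
    · rfl
    · exact absurd h (c.seg_ne _ _ huv _ hs _)
    · exact absurd h.symm (c.seg_ne _ _ huv _ hs _)
    · rw [c.pt_inj h]
  seg_ne := by
    intro p q hpq t ht w
    rcases subSeg_cases c huv hs hpq ht with ⟨x, y, rfl, rfl, h1, h2, h3⟩ | ⟨τ, hτ, h1, -⟩ |
      ⟨τ, hτ, h1, -⟩
    · rw [h3]
      rcases w with _ | w
      · intro heq
        rcases c.seg_inj _ _ _ _ h1 huv t ht s hs heq with ⟨h4, h5, -⟩ | ⟨h4, h5, -⟩
        · apply h2; rw [h4, h5]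
        · apply h2; rw [h4, h5, Sym2.eq_swap]
      · exact c.seg_ne _ _ h1 t ht w
    · rw [h1]
      have hτ' : τ ∈ Ioo (0 : ℝ) 1 := ⟨hτ.1, hτ.2.trans hs.2⟩
      rcases w with _ | w
      · intro heq
        rcases c.seg_inj _ _ _ _ huv huv τ hτ' s hs heq with ⟨-, -, h4⟩ | ⟨h4, -, -⟩
        · linarith [hτ.2]
        · exact huv.ne h4
      · exact c.seg_ne _ _ huv τ hτ' w
    · rw [h1]
      have hτ' : τ ∈ Ioo (0 : ℝ) 1 := ⟨hs.1.trans hτ.1, hτ.2⟩
      rcases w with _ | w
      · intro heq
        rcases c.seg_inj _ _ _ _ huv huv τ hτ' s hs heq with ⟨-, -, h4⟩ | ⟨h4, -, -⟩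
        · linarith [hτ.1]
        · exact huv.ne h4
      · exact c.seg_ne _ _ huv τ hτ' w
  seg_inj := by
    intro p q p' q' hpq hpq' t ht t' ht' heq
    have hs0 : s ≠ 0 := hs.1.ne'
    have hs1 : 1 - s ≠ 0 := by have := hs.2; intro h; linarith
    rcases subSeg_cases c huv hs hpq ht with ⟨x, y, rfl, rfl, h1, h2, h3⟩ | ⟨τ, hτ, h1, h2⟩ |
      ⟨τ, hτ, h1, h2⟩ <;>
    rcases subSeg_cases c huv hs hpq' ht' with ⟨x', y', rfl, rfl, h1', h2', h3'⟩ |
      ⟨τ', hτ', h1', h2'⟩ | ⟨τ', hτ', h1', h2'⟩
    · rw [h3, h3'] at heq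
      rcases c.seg_inj _ _ _ _ h1 h1' t ht t' ht' heq with ⟨h4, h5, h6⟩ | ⟨h4, h5, h6⟩
      · left; exact ⟨by rw [h4], by rw [h5], h6⟩
      · right; exact ⟨by rw [h4], by rw [h5], h6⟩
    · rw [h3, h1'] at heq
      rcases c.seg_inj _ _ _ _ h1 huv t ht τ' ⟨hτ'.1, hτ'.2.trans hs.2⟩ heq with
        ⟨h4, h5, -⟩ | ⟨h4, h5, -⟩
      · exact absurd (by rw [h4, h5]) h2
      · exact absurd (by rw [h4, h5, Sym2.eq_swap]) h2
    · rw [h3, h1'] at heq
      rcases c.seg_inj _ _ _ _ h1 huv t ht τ' ⟨hs.1.trans hτ'.1, hτ'.2⟩ heq with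
        ⟨h4, h5, -⟩ | ⟨h4, h5, -⟩
      · exact absurd (by rw [h4, h5]) h2
      · exact absurd (by rw [h4, h5, Sym2.eq_swap]) h2
    · rw [h1, h3'] at heq
      rcases c.seg_inj _ _ _ _ huv h1' τ ⟨hτ.1, hτ.2.trans hs.2⟩ t' ht' heq with
        ⟨h4, h5, -⟩ | ⟨h4, h5, -⟩
      · exact absurd (by rw [h4, h5]) h2'
      · exact absurd (by rw [h4, h5, Sym2.eq_swap]) h2'
    · rw [h1, h1'] at heq
      rcases c.seg_inj _ _ _ _ huv huv τ ⟨hτ.1, hτ.2.trans hs.2⟩ τ'
        ⟨hτ'.1, hτ'.2.trans hs.2⟩ heq with ⟨-, -, h4⟩ | ⟨h4, -, -⟩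
      · rcases h2 with ⟨h5, h6, h7⟩ | ⟨h5, h6, h7⟩ <;> rcases h2' with ⟨h5', h6', h7'⟩ | ⟨h5', h6', h7'⟩
        · left
          refine ⟨by rw [h5, h5'], by rw [h6, h6'], ?_⟩
          rw [h7, h7'] at h4
          exact mul_left_cancel₀ hs0 h4
        · right
          refine ⟨by rw [h5', h6], by rw [h5, h6'], ?_⟩
          rw [h7, h7'] at h4
          have := mul_left_cancel₀ hs0 h4
          linarith
        · right
          refine ⟨by rw [h5', h6], by rw [h5, h6'], ?_⟩
          rw [h7, h7'] at h4
          have := mul_left_cancel₀ hs0 h4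
          linarith
        · left
          refine ⟨by rw [h5, h5'], by rw [h6, h6'], ?_⟩
          rw [h7, h7'] at h4
          have := mul_left_cancel₀ hs0 h4
          linarith
      · exact absurd h4 huv.ne
    · rw [h1, h1'] at heq
      rcases c.seg_inj _ _ _ _ huv huv τ ⟨hτ.1, hτ.2.trans hs.2⟩ τ'
        ⟨hs.1.trans hτ'.1, hτ'.2⟩ heq with ⟨-, -, h4⟩ | ⟨h4, -, -⟩
      · exfalso; linarith [hτ.2, hτ'.1]
      · exact absurd h4 huv.ne
    · rw [h1, h3'] at heq
      rcases c.seg_inj _ _ _ _ huv h1' τ ⟨hs.1.trans hτ.1, hτ.2⟩ t' ht' heq with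
        ⟨h4, h5, -⟩ | ⟨h4, h5, -⟩
      · exact absurd (by rw [h4, h5]) h2'
      · exact absurd (by rw [h4, h5, Sym2.eq_swap]) h2'
    · rw [h1, h1'] at heq
      rcases c.seg_inj _ _ _ _ huv huv τ ⟨hs.1.trans hτ.1, hτ.2⟩ τ'
        ⟨hτ'.1, hτ'.2.trans hs.2⟩ heq with ⟨-, -, h4⟩ | ⟨h4, -, -⟩
      · exfalso; linarith [hτ.1, hτ'.2]
      · exact absurd h4 huv.ne
    · rw [h1, h1'] at heq
      rcases c.seg_inj _ _ _ _ huv huv τ ⟨hs.1.trans hτ.1, hτ.2⟩ τ'
        ⟨hs.1.trans hτ'.1, hτ'.2⟩ heq with ⟨-, -, h4⟩ | ⟨h4, -, -⟩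
      · rcases h2 with ⟨h5, h6, h7⟩ | ⟨h5, h6, h7⟩ <;> rcases h2' with ⟨h5', h6', h7'⟩ | ⟨h5', h6', h7'⟩
        · left
          refine ⟨by rw [h5, h5'], by rw [h6, h6'], ?_⟩
          rw [h7, h7'] at h4
          exact mul_left_cancel₀ hs1 (by linarith)
        · right
          refine ⟨by rw [h5', h6], by rw [h5, h6'], ?_⟩
          rw [h7, h7'] at h4
          have := mul_left_cancel₀ hs1 (b := 1 - t') (c := t) (by linarith)
          linarith
        · right
          refine ⟨by rw [h5', h6], by rw [h5, h6'], ?_⟩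
          rw [h7, h7'] at h4
          have := mul_left_cancel₀ hs1 (b := t') (c := 1 - t) (by linarith)
          linarith
        · left
          refine ⟨by rw [h5, h5'], by rw [h6, h6'], ?_⟩
          rw [h7, h7'] at h4
          have := mul_left_cancel₀ hs1 (b := 1 - t') (c := 1 - t) (by linarith)
          linarith
      · exact absurd h4 huv.ne
  cover := by
    intro y
    have hs1 : 0 < 1 - s := by linarith [hs.2]
    have main : ∀ t ∈ Ioo (0 : ℝ) 1, (∃ w, subPt c u v s w = c.seg u v t) ∨
        ∃ p q, (subdivideEdge H u v).Adj p q ∧ ∃ t' ∈ Ioo (0 : ℝ) 1,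
          subSeg c u v s p q t' = c.seg u v t := by
      intro t ht
      rcases lt_trichotomy t s with h | h | h
      · right
        refine ⟨some u, none, Or.inl rfl, t / s, ⟨div_pos ht.1 hs.1, (div_lt_one hs.1).mpr h⟩, ?_⟩
        simp only [subSeg, if_true]
        congr 1
        rw [mul_div_cancel₀ _ hs.1.ne']
      · left
        exact ⟨none, by rw [h]; rfl⟩
      · right
        refine ⟨some v, none, Or.inr rfl, (1 - t) / (1 - s), ⟨div_pos (by linarith [ht.2]) hs1,
          (div_lt_one hs1).mpr (by linarith)⟩, ?_⟩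
        simp only [subSeg]
        rw [if_neg huv.ne.symm, mul_div_cancel₀ _ hs1.ne', c.seg_rev u v huv]
        congr 1; ring
    rcases c.cover y with ⟨w, rfl⟩ | ⟨a, b, hab, t, ht, rfl⟩
    · left; exact ⟨some w, rfl⟩
    · by_cases hss : s(a, b) = s(u, v)
      · rw [Sym2.eq_iff] at hss
        rcases hss with ⟨rfl, rfl⟩ | ⟨rfl, rfl⟩
        · exact main t ht
        · have := main (1 - t) ⟨by linarith [ht.2], by linarith [ht.1]⟩
          rw [← c.seg_rev b a huv] at this
          exact this
      · right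
        exact ⟨some a, some b, ⟨hab, hss⟩, t, ht, rfl⟩

theorem subChart_pt (c : Chart Y H) {u v : W} (huv : H.Adj u v) {s : ℝ}
    (hs : s ∈ Ioo (0 : ℝ) 1) (w : Option W) : (subChart c huv hs).pt w = subPt c u v s w := rfl

/-- Every subdivision of the model graph is the model of a graph structure on the space. -/
theorem chart_of_subdivision {W W' : Type} {H : SimpleGraph W} {n : ℕ} {H' : SimpleGraph W'}
    (h : Subdivision H n H') (c : Nonempty (Chart Y H)) : Nonempty (Chart Y H') := by
  induction h with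
  | refl H => exact c
  | step h huv ih =>
    obtain ⟨c'⟩ := ih c
    exact ⟨subChart c' huv (s := 1 / 2) ⟨by norm_num, by norm_num⟩⟩

/-- Finitely many points can be made vertices. -/
theorem exists_subdivision {ι : Type*} (S : Finset ι) (x : ι → Y) {W : Type} {H : SimpleGraph W}
    (c : Chart Y H) [Finite W] :
    ∃ n ≤ S.card, ∃ (W' : Type) (_ : Finite W') (H' : SimpleGraph W') (c' : Chart Y H'),
      Subdivision H n H' ∧ ∀ i ∈ S, ∃ w, c'.pt w = x i := by
  classical
  induction S using Finset.induction_on with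
  | empty => exact ⟨0, le_refl _, W, inferInstance, H, c, Subdivision.refl H, by simp⟩
  | insert i S hi ih =>
    obtain ⟨n, hn, W', hW', H', c', hsub, hpt⟩ := ih
    rw [Finset.card_insert_of_notMem hi]
    rcases c'.cover (x i) with ⟨w, hw⟩ | ⟨a, b, hab, t, ht, hw⟩
    · refine ⟨n, by omega, W', hW', H', c', hsub, ?_⟩
      intro j hj
      rcases Finset.mem_insert.mp hj with rfl | hj
      · exact ⟨w, hw⟩
      · exact hpt j hj
    · refine ⟨n + 1, by omega, Option W', inferInstance, subdivideEdge H' a b,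
        subChart c' hab ht, Subdivision.step hsub hab, ?_⟩
      intro j hj
      rcases Finset.mem_insert.mp hj with rfl | hj
      · exact ⟨none, hw⟩
      · obtain ⟨w, hw⟩ := hpt j hj
        exact ⟨some w, hw⟩

end Subdivision

end Pool.Agent.Helper26.KToOne
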