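import Pool.Agent.Helper26.KToOne.Comb

/-!
# From an admissible routing to labelled lazy walks
-/

namespace Pool.Agent.Helper26.KToOne

open Finset

theorem exists_between_sum {ι : Type*} (S : Finset ι) (lo hi : ι → ℕ) :
    (∀ i ∈ S, lo i ≤ hi i) → ∀ X : ℕ, ∑ i ∈ S, lo i ≤ X → X ≤ ∑ i ∈ S, hi i →
    ∃ x : ι → ℕ, (∀ i ∈ S, lo i ≤ x i ∧ x i ≤ hi i) ∧ ∑ i ∈ S, x i = X := by
  classical
  induction S using Finset.induction_on with
  | empty =>
    intro _ X h1 h2
    simp at h2
    exact ⟨fun _ => 0, by simp, by simp [h2]⟩
  | insert a S ha ih =>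
    intro hle X h1 h2
    rw [Finset.sum_insert ha] at h1 h2
    have hle' : ∀ i ∈ S, lo i ≤ hi i := fun i hi' => hle i (Finset.mem_insert_of_mem hi')
    have hsum : ∑ i ∈ S, lo i ≤ ∑ i ∈ S, hi i := Finset.sum_le_sum hle'
    have hlea := hle a (Finset.mem_insert_self a S)
    obtain ⟨x, hx1, hx2⟩ := ih hle' (X - max (lo a) (X - ∑ i ∈ S, hi i)) (by omega) (by omega)
    refine ⟨Function.update x a (max (lo a) (X - ∑ i ∈ S, hi i)), ?_, ?_⟩
    · intro i hi'
      rcases Finset.mem_insert.mp hi' with rfl | hi''
      · rw [Function.update_self]; omega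
      · have hne : i ≠ a := by rintro rfl; exact ha hi''
        rw [Function.update_of_ne hne]; exact hx1 i hi''
    · rw [Finset.sum_insert ha, Function.update_self]
      have : ∑ i ∈ S, Function.update x a (max (lo a) (X - ∑ i ∈ S, hi i)) i = ∑ i ∈ S, x i := by
        refine Finset.sum_congr rfl fun i hi' => ?_
        rw [Function.update_of_ne]
        rintro rfl; exact ha hi'
      rw [this, hx2]
      omega

section

variable {W : Type} {H : SimpleGraph W}

/-- a walk as a list of steps -/
def toSteps (l : List H.Dart) : List (Step H) :=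
  l.map fun e => ⟨e, e.symm, Or.inr rfl, 0, 0⟩

theorem toSteps_isLW {a b : W} (p : H.Walk a b) : IsLW (toSteps p.darts) a b := by
  induction p with
  | nil => rfl
  | cons h p ih => exact ⟨rfl, ih⟩

theorem toSteps_eq_nil {a b : W} (p : H.Walk a b) : toSteps p.darts = [] ↔ p.darts = [] := by
  simp [toSteps]

theorem symm_eq_iff (e e' : H.Dart) : e.symm = e' ↔ e = e'.symm := by
  constructor
  · rintro rfl; simp
  · rintro rfl; simp

open Classical in
theorem num_toSteps (e : H.Dart) (l : List H.Dart) :
    num e (toSteps l) = l.count e + l.count e.symm := by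
  induction l with
  | nil => simp [toSteps, num]
  | cons e' l ih =>
    have h1 : toSteps (e' :: l) = ⟨e', e'.symm, Or.inr rfl, 0, 0⟩ :: toSteps l := rfl
    rw [h1, num_cons, ih, List.count_cons, List.count_cons]
    simp only [beq_iff_eq, symm_eq_iff]
    ring

theorem mul_eq_num_of_zero (e : H.Dart) (ℓ : List (Step H)) (h : ∀ s ∈ ℓ, s.i = 0 ∧ s.j = 0) :
    mul e ℓ = num e ℓ := by
  classical
  induction ℓ with
  | nil => simp [mul, num]
  | cons s ℓ ih =>
    rw [mul_cons, num_cons, ih fun s hs => h s (List.mem_cons_of_mem _ hs)]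
    have := h s (List.mem_cons_self)
    rw [this.1, this.2]

open Classical in
/-- departures of a walk, in terms of inner visits -/
theorem dep_toSteps {a b : W} (p : H.Walk a b) (w : W) :
    dep w (toSteps p.darts) + (if toSteps p.darts = [] ∧ a = w then 1 else 0) =
      (p.support.tail.dropLast).count w + (if a = w then 1 else 0) := by
  have hdep : ∀ l : List H.Dart, dep w (toSteps l) = (l.map (·.fst)).count w := by
    intro l
    induction l with
    | nil => simp [toSteps, dep]
    | cons e l ih =>
      have h1 : toSteps (e :: l) = ⟨e, e.symm, Or.inr rfl, 0, 0⟩ :: toSteps l := rfl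
      rw [h1, dep_cons, ih, List.map_cons, List.count_cons]
      simp only [beq_iff_eq]
      ring
  rw [hdep, SimpleGraph.Walk.map_fst_darts]
  cases p with
  | nil => simp [toSteps]
  | @cons _ v _ h p =>
    rw [if_neg (by simp [toSteps])]
    have h1 : (SimpleGraph.Walk.cons h p).support = a :: p.support := rfl
    rw [h1]
    have h2 : p.support ≠ [] := by simp
    rw [List.dropLast_cons_of_ne_nil h2, List.count_cons]
    simp

theorem vis_toSteps {a b : W} (p : H.Walk a b) {w : W} (h : w ∈ p.support) :
    Vis (toSteps p.darts) a w := by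
  rw [← SimpleGraph.Walk.cons_map_snd_darts, List.mem_cons] at h
  rcases h with h | h
  · left; exact h.symm
  · right
    rw [List.mem_map] at h
    obtain ⟨e, he, rfl⟩ := h
    exact ⟨⟨e, e.symm, Or.inr rfl, 0, 0⟩, List.mem_map.mpr ⟨e, he, rfl⟩, rfl⟩

end

section

variable {V : Type} {G : SimpleGraph V} {W : Type} {H : SimpleGraph W}

open Classical in
theorem count_darts_reverse {a b : W} (p : H.Walk a b) (e : H.Dart) :
    p.reverse.darts.count e = p.darts.count e.symm := by
  rw [SimpleGraph.Walk.darts_reverse, List.count_reverse]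
  rw [← List.count_map_of_injective p.darts SimpleGraph.Dart.symm
    SimpleGraph.Dart.symm_involutive.injective e.symm]
  simp

open Classical in
theorem count_inner_reverse {a b : W} (p : H.Walk a b) (w : W) :
    (p.reverse.support.tail.dropLast).count w = (p.support.tail.dropLast).count w := by
  rw [SimpleGraph.Walk.support_reverse, List.tail_reverse, List.dropLast_reverse,
    List.count_reverse, List.tail_dropLast]

open Classical in
theorem route_count_symm (R : Routing G H) (d : G.Dart) (e : H.Dart) :
    (R.route d.symm).darts.count e = (R.route d).darts.count e.symm := by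
  rw [R.route_symm]
  exact count_darts_reverse _ _

open Classical in
theorem route_inner_symm (R : Routing G H) (d : G.Dart) (w : W) :
    ((R.route d.symm).support.tail.dropLast).count w =
      ((R.route d).support.tail.dropLast).count w := by
  rw [R.route_symm]
  exact count_inner_reverse _ _

theorem route_support_symm (R : Routing G H) (d : G.Dart) (w : W) :
    w ∈ (R.route d.symm).support ↔ w ∈ (R.route d).support := by
  rw [R.route_symm]
  have h : (R.route d).reverse.support = (R.route d).support.reverse :=
    SimpleGraph.Walk.support_reverse _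
  have h2 : w ∈ (R.route d).reverse.support ↔ w ∈ (R.route d).support := by
    rw [h, List.mem_reverse]
  exact h2

open Classical in
theorem card_fst [Fintype V] (G : SimpleGraph V) (v : V) :
    #{d : G.Dart | d.fst = v} = G.degree v := by
  convert G.dart_fst_fiber_card_eq_degree v

open Classical in
theorem sum_fst_eq_degree [Fintype V] (q : V → W) (w : W) :
    ∑ d : G.Dart, (if q d.fst = w then 1 else 0) = ∑ v with q v = w, G.degree v := by
  have h1 : ∑ d : G.Dart, (if q d.fst = w then 1 else 0) =
      ∑ v : V, ∑ d : G.Dart with d.fst = v, (if q d.fst = w then 1 else 0) :=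
    (Finset.sum_fiberwise _ (fun d : G.Dart => d.fst) _).symm
  rw [h1, Finset.sum_filter]
  refine Finset.sum_congr rfl fun v _ => ?_
  have h2 : ∑ d : G.Dart with d.fst = v, (if q d.fst = w then 1 else 0) =
      ∑ d : G.Dart with d.fst = v, (if q v = w then 1 else 0) := by
    refine Finset.sum_congr rfl fun d hd => ?_
    simp only [Finset.mem_filter, Finset.mem_univ, true_and] at hd
    rw [hd]
  rw [h2, Finset.sum_const, smul_eq_mul, card_fst]
  split_ifs <;> simp

open Classical in
theorem excess_eq [Fintype V] (R : Routing G H) (w : W) :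
    R.excess w = (∑ d : G.Dart, (if R.place d.fst = w then 1 else 0) : ℕ) - 2 * (R.occupancy w : ℤ) := by
  rw [sum_fst_eq_degree, Routing.excess, Routing.occupancy, Finset.sum_sub_distrib]
  push_cast
  simp
  ring

open Classical in
theorem lazy_of_routing [Fintype V] [Fintype W] {k : ℕ} (hk : 2 ≤ k) (R : Routing G H)
    (hR : R.Admissible k) (pos : G.Dart → Prop) (hpos : ∀ d, pos d.symm ↔ ¬ pos d) :
    ∃ L : G.Dart → List (Step H), (∀ d, pos d → IsLW (L d) (R.place d.fst) (R.place d.snd)) ∧
      (∀ d, pos d → L d ≠ []) ∧ (∀ e, ∑ d : G.Dart with pos d, mul e (L d) = k) ∧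
      (∀ w, (Finset.univ.filter fun v => R.place v = w).card +
        ∑ d : G.Dart with pos d, dep w (L d) =
        k + ∑ d : G.Dart with pos d, (if R.place d.fst = w then 1 else 0)) := by
  set L₀ : G.Dart → List (Step H) := fun d => toSteps (R.route d).darts with hL₀
  have hLW₀ : ∀ d, pos d → IsLW (L₀ d) (R.place d.fst) (R.place d.snd) := fun d _ =>
    toSteps_isLW _
  have hlab₀ : ∀ d, ∀ s ∈ L₀ d, s.i = 0 ∧ s.j = 0 := by
    intro d s hs
    rw [hL₀] at hs
    simp only [toSteps, List.mem_map] at hs
    obtain ⟨e, -, rfl⟩ := hs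
    exact ⟨rfl, rfl⟩
  have htraf : ∀ e, ∑ d : G.Dart with pos d, num e (L₀ d) = R.traffic e := by
    intro e
    rw [Routing.traffic, sum_dart_eq pos hpos]
    refine Finset.sum_congr rfl fun d _ => ?_
    rw [hL₀]
    simp only
    rw [num_toSteps, route_count_symm]
  -- notation for the relevant numbers at a vertex
  have hAB : ∀ w, (∑ d : G.Dart with pos d, (if R.place d.fst = w then 1 else 0)) +
      (∑ d : G.Dart with pos d, (if R.place d.snd = w then 1 else 0)) =
      ∑ d : G.Dart, (if R.place d.fst = w then 1 else 0) := by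
    intro w
    rw [sum_dart_eq pos hpos, Finset.sum_add_distrib]
    rfl
  have hnumw : ∀ (L : G.Dart → List (Step H)),
      (∀ d, pos d → IsLW (L d) (R.place d.fst) (R.place d.snd)) → ∀ w,
      (∑ e : H.Dart with e.fst = w, ∑ d : G.Dart with pos d, num e (L d)) +
        (∑ d : G.Dart with pos d, (if R.place d.fst = w then 1 else 0)) =
      2 * (∑ d : G.Dart with pos d, dep w (L d)) +
        (∑ d : G.Dart with pos d, (if R.place d.snd = w then 1 else 0)) := by
    intro L hL w
    rw [Finset.sum_comm, ← Finset.sum_add_distrib, Finset.mul_sum, ← Finset.sum_add_distrib]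
    refine Finset.sum_congr rfl fun d hd => ?_
    simp only [Finset.mem_filter, Finset.mem_univ, true_and] at hd
    exact sum_num w (L d) (hL d hd)
  have hnil : ∀ w, (∑ d : G.Dart with pos d, dep w (L₀ d)) +
      #{d : G.Dart | pos d ∧ L₀ d = [] ∧ R.place d.fst = w} =
      (∑ d : G.Dart with pos d, ((R.route d).support.tail.dropLast).count w) +
      (∑ d : G.Dart with pos d, (if R.place d.fst = w then 1 else 0)) := by
    intro w
    have h1 : #{d : G.Dart | pos d ∧ L₀ d = [] ∧ R.place d.fst = w} =
        ∑ d : G.Dart with pos d, (if L₀ d = [] ∧ R.place d.fst = w then 1 else 0) := by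
      rw [← Finset.filter_filter, Finset.card_filter]
    rw [h1, ← Finset.sum_add_distrib, ← Finset.sum_add_distrib]
    refine Finset.sum_congr rfl fun d _ => ?_
    exact dep_toSteps (R.route d) w
  have htrans : ∀ w, R.twiceTransit w =
      2 * ∑ d : G.Dart with pos d, ((R.route d).support.tail.dropLast).count w := by
    intro w
    rw [Routing.twiceTransit, sum_dart_eq pos hpos, Finset.mul_sum]
    refine Finset.sum_congr rfl fun d _ => ?_
    rw [route_inner_symm]
    ring
  -- the number of excursions at each vertex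
  have hX : ∀ w, ∃ X : ℕ, X + R.occupancy w + (∑ d : G.Dart with pos d, dep w (L₀ d)) =
      k + (∑ d : G.Dart with pos d, (if R.place d.fst = w then 1 else 0)) ∧
      #{d : G.Dart | pos d ∧ L₀ d = [] ∧ R.place d.fst = w} ≤ X := by
    intro w
    have h1 := hR.capacity w
    have h2 := htrans w
    have h3 := hnil w
    refine ⟨k + (∑ d : G.Dart with pos d, (if R.place d.fst = w then 1 else 0)) -
      R.occupancy w - (∑ d : G.Dart with pos d, dep w (L₀ d)), ?_, ?_⟩ <;> omega
  choose X hX1 hX2 using hX
  have hsumT : ∀ w, 2 * X w + (∑ e : H.Dart with e.fst = w, R.traffic e) + 2 * R.occupancy w =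
      2 * k + ∑ d : G.Dart, (if R.place d.fst = w then 1 else 0) := by
    intro w
    have h1 := hnumw L₀ hLW₀ w
    have h2 := hAB w
    have h3 := hX1 w
    simp only [htraf] at h1
    omega
  -- distribute
  have hdist : ∀ w, ∃ x : H.Dart → ℕ, (∀ e ∈ (Finset.univ.filter fun e : H.Dart => e.fst = w),
      (if R.traffic e = 0 then 1 else 0) ≤ x e ∧ x e ≤ (k - R.traffic e) / 2) ∧
      ∑ e : H.Dart with e.fst = w, x e = X w := by
    intro w
    refine exists_between_sum _ _ _ ?_ _ ?_ ?_
    · intro e _
      split_ifs with h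
      · rw [h]; omega
      · exact Nat.zero_le _
    · -- lower bound
      rcases Nat.even_or_odd k with hke | hko
      · have h1 := hR.even_lower hke w
        have h2 := hsumT w
        rw [excess_eq] at h1
        have h3 : ∀ e : H.Dart, (max (R.traffic e) 2 : ℤ) =
            (R.traffic e : ℤ) + 2 * ((if R.traffic e = 0 then 1 else 0 : ℕ) : ℤ) := by
          intro e
          have h4 := hR.traffic_parity e
          rw [Nat.ModEq] at h4
          have h5 : k % 2 = 0 := Nat.even_iff.mp hke
          split_ifs with h6
          · rw [h6]; norm_num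
          · have : 2 ≤ R.traffic e := by omega
            have h7 : (2 : ℤ) ≤ R.traffic e := by exact_mod_cast this
            rw [max_eq_left h7]; simp
        simp only [h3] at h1
        rw [Finset.sum_add_distrib, ← Finset.mul_sum] at h1
        have h8 : (((∑ e : H.Dart with e.fst = w, R.traffic e) +
            2 * ∑ e : H.Dart with e.fst = w, (if R.traffic e = 0 then 1 else 0) : ℕ) : ℤ) ≤
            (2 * k : ℤ) + ((∑ d : G.Dart, (if R.place d.fst = w then 1 else 0) : ℕ) -
              2 * (R.occupancy w : ℤ)) := by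
          refine le_trans (le_of_eq ?_) h1
          push_cast
          ring
        omega
      · have : ∀ e : H.Dart, (if R.traffic e = 0 then 1 else 0) = 0 := by
          intro e
          have h4 := hR.traffic_parity e
          rw [Nat.ModEq] at h4
          have h5 : k % 2 = 1 := Nat.odd_iff.mp hko
          rw [if_neg]
          intro h; rw [h] at h4; omega
        rw [Finset.sum_eq_zero (fun e _ => this e)]
        exact Nat.zero_le _
    · -- upper bound
      have h1 := hR.euler w
      have h2 := hsumT w
      rw [excess_eq] at h1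
      have h3 : ∀ e : H.Dart, R.traffic e + 2 * ((k - R.traffic e) / 2) = k := by
        intro e
        have h4 := hR.traffic_parity e
        rw [Nat.ModEq] at h4
        have h5 := hR.traffic_le e
        omega
      have h6 : (∑ e : H.Dart with e.fst = w, R.traffic e) +
          2 * ∑ e : H.Dart with e.fst = w, (k - R.traffic e) / 2 = H.degree w * k := by
        rw [Finset.mul_sum, ← Finset.sum_add_distrib, Finset.sum_congr rfl (fun e _ => h3 e),
          Finset.sum_const, card_fst, smul_eq_mul]
      have h7 : (((∑ e : H.Dart with e.fst = w, R.traffic e) +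
          2 * ∑ e : H.Dart with e.fst = w, (k - R.traffic e) / 2 : ℕ) : ℤ) =
          (H.degree w : ℤ) * k := by
        rw [h6]; push_cast; ring
      have h8 : (k : ℤ) * ((H.degree w : ℤ) - 2) = (H.degree w : ℤ) * k - 2 * k := by ring
      rw [h8, ← h7] at h1
      omega
  choose x hx1 hx2 using hdist
  set r : H.Dart → ℕ := fun e => x e.fst e with hr
  have hr1 : ∀ e, (if R.traffic e = 0 then 1 else 0) ≤ r e ∧ r e ≤ (k - R.traffic e) / 2 := by
    intro e
    exact hx1 e.fst e (by simp)
  have hr2 : ∀ w, ∑ e : H.Dart with e.fst = w, r e = X w := by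
    intro w
    rw [← hx2 w]
    refine Finset.sum_congr rfl fun e he => ?_
    simp only [Finset.mem_filter, Finset.mem_univ, true_and] at he
    rw [hr]; simp only; rw [he]
  obtain ⟨L₁, hL₁a, hL₁b, hL₁c, hL₁d⟩ := insert_all pos R.place
    (fun e => R.traffic e + 2 * r e) (∑ e, r e) r L₀ rfl hLW₀ hlab₀
    (fun e => by rw [htraf e]) (fun w => by rw [hr2 w]; exact hX2 w)
    (by
      intro w
      obtain ⟨d, hd⟩ := hR.covered w
      by_cases hp : pos d
      · exact ⟨d, hp, vis_toSteps _ hd⟩
      · refine ⟨d.symm, (hpos d).mpr hp, vis_toSteps _ ?_⟩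
        exact (route_support_symm R d w).mpr hd)
  have hge : ∀ e, 1 ≤ R.traffic e + 2 * r e := by
    intro e
    have := (hr1 e).1
    split_ifs at this with h <;> omega
  have hmul₁ : ∀ e, ∑ d : G.Dart with pos d, mul e (L₁ d) = R.traffic e + 2 * r e := by
    intro e
    rw [← hL₁d e]
    refine Finset.sum_congr rfl fun d _ => ?_
    exact mul_eq_num_of_zero e (L₁ d) (hL₁b d)
  obtain ⟨L₂, hL₂a, hL₂b⟩ := raise_all pos k L₁ (fun e => by rw [hL₁d e]; exact hge e)
    (by
      intro e
      rw [hmul₁ e]
      have h4 := hR.traffic_parity e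
      rw [Nat.ModEq] at h4
      have h5 := hR.traffic_le e
      have h6 := (hr1 e).2
      exact ⟨(k - (R.traffic e + 2 * r e)) / 2, by omega⟩)
  refine ⟨L₂, fun d hd => (hL₂a d).isLW (hL₁a d hd), fun d hd => (hL₂a d).ne_nil (hL₁c d hd),
    hL₂b, ?_⟩
  intro w
  have h1 := hnumw L₁ hL₁a w
  have h2 := hAB w
  have h3 := hsumT w
  have h4 : ∑ e : H.Dart with e.fst = w, ∑ d : G.Dart with pos d, num e (L₁ d) =
      (∑ e : H.Dart with e.fst = w, R.traffic e) + 2 * X w := by
    rw [← hr2 w, Finset.mul_sum, ← Finset.sum_add_distrib]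
    exact Finset.sum_congr rfl fun e _ => hL₁d e
  have h5 : ∑ d : G.Dart with pos d, dep w (L₂ d) = ∑ d : G.Dart with pos d, dep w (L₁ d) :=
    Finset.sum_congr rfl fun d _ => (hL₂a d).dep w
  have h6 : (Finset.univ.filter fun v => R.place v = w).card = R.occupancy w := rfl
  rw [h5, h6]
  omega

end

end Pool.Agent.Helper26.KToOne
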