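import Pool.Agent.Helper26.KToOne.PathAn
import Pool.Agent.Helper26.KToOne.Suff
import Pool.Agent.Helper26.KToOne.Real

/-!
# From a `k`-to-1 map to an admissible routing
-/

namespace Pool.Agent.Helper26.KToOne

open Set

section

variable {X : Type} [TopologicalSpace X] {V : Type} {G : SimpleGraph V}
variable {Y : Type} [TopologicalSpace Y] {W : Type} {H : SimpleGraph W}

open Classical in
/-- The family of lazy walks extracted from a `k`-to-1 map. -/
theorem lazy_of_map [Fintype V] [Finite W] [T2Space Y] (cX : Chart X G) (cY : Chart Y H)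
    (pos : G.Dart → Prop) (hpos : ∀ d, pos d.symm ↔ ¬ pos d) (f : X → Y) (hf : Continuous f)
    (k : ℕ) (hk : 1 ≤ k) (hfib : ∀ y, (f ⁻¹' {y}).encard = k) (q : V → W)
    (hq : ∀ v, f (cX.pt v) = cY.pt (q v)) :
    ∃ L : G.Dart → List (Step H), (∀ d, pos d → IsLW (L d) (q d.fst) (q d.snd)) ∧
      (∀ d, pos d → L d ≠ []) ∧
      (∀ e, ∑ d : G.Dart with pos d, num e (L d) ≤ k) ∧
      (∀ e, 1 ≤ ∑ d : G.Dart with pos d, num e (L d)) ∧
      (∀ e, (∑ d : G.Dart with pos d, (trav e (L d) + trav e.symm (L d))) % 2 = k % 2) ∧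
      (∀ w, (Finset.univ.filter fun v => q v = w).card +
        ∑ d : G.Dart with pos d, dep w (L d) =
        k + ∑ d : G.Dart with pos d, (if q d.fst = w then 1 else 0)) := by
  -- finiteness
  have hfin : ∀ (d : G.Dart) (y : Y), (tms (fun t => f (cX.seg d.fst d.snd t)) 0 1 y).Finite := by
    intro d y
    have h1 : (f ⁻¹' {y}).Finite := by
      rw [← Set.encard_lt_top_iff, hfib y]
      exact ENat.natCast_lt_top k
    refine Set.Finite.of_finite_image (f := cX.seg d.fst d.snd) (h1.subset ?_) ?_
    · rintro _ ⟨t, ⟨_, ht⟩, rfl⟩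
      exact ht
    · intro t ht t' ht' h
      exact cX.seg_injOn d.adj ⟨ht.1.1, ht.1.2.le⟩ ⟨ht'.1.1, ht'.1.2.le⟩ h
  have hdata : ∀ d : G.Dart, ∃ ℓ : List (Step H), ℓ ≠ [] ∧ IsLW ℓ (q d.fst) (q d.snd) ∧
      Good cY (fun t => f (cX.seg d.fst d.snd t)) 0 1 ℓ := by
    intro d
    refine good_path cY (hf.comp (cX.cont _ _ d.adj)) _ zero_lt_one ?_ ?_ (hfin d) rfl
    · simp only [Function.comp]; rw [cX.seg_zero _ _ d.adj, hq]
    · simp only [Function.comp]; rw [cX.seg_one d.adj, hq]
  choose L hL1 hL2 hL3 using hdata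
  -- the counting function of a path
  have hcnt : ∀ (d : G.Dart) (y : Y), cnt (fun t => f (cX.seg d.fst d.snd t)) y =
      ((tms (fun t => f (cX.seg d.fst d.snd t)) 0 1 y).ncard : ℕ∞) := by
    intro d y
    rw [(hfin d y).cast_ncard_eq]
    rfl
  have hfibseg : ∀ (e : H.Dart) (y : ℝ), y ∈ Ioo (0 : ℝ) 1 →
      ∑ d : G.Dart with pos d,
        (tms (fun t => f (cX.seg d.fst d.snd t)) 0 1 (cY.seg e.fst e.snd y)).ncard = k := by
    intro e y hy
    have h1 := fiber_encard cX pos hpos f (cY.seg e.fst e.snd y)
    rw [hfib] at h1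
    have h2 : {v : V | f (cX.pt v) = cY.seg e.fst e.snd y}.encard = 0 := by
      rw [encard_eq_zero]
      ext v
      simp only [mem_ofPred_eq, mem_empty_iff_false, iff_false]
      rw [hq]
      exact fun h => cY.seg_ne _ _ e.adj y hy _ h.symm
    rw [h2, zero_add] at h1
    have h3 : ∀ d : G.Dart, cntO (fun t => f (cX.seg d.fst d.snd t)) (cY.seg e.fst e.snd y) =
        ((tms (fun t => f (cX.seg d.fst d.snd t)) 0 1 (cY.seg e.fst e.snd y)).ncard : ℕ∞) := by
      intro d
      rw [← hcnt, cnt_eq_cntO_add, if_neg, add_zero]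
      rw [cX.seg_zero _ _ d.adj, hq]
      exact fun h => cY.seg_ne _ _ e.adj y hy _ h.symm
    simp only [h3] at h1
    exact_mod_cast h1.symm
  -- small levels
  have hsmall : ∀ (P : G.Dart → ℝ → Prop), (∀ d, ∃ ε > 0, ∀ y ∈ Ioo (0 : ℝ) ε, P d y) →
      ∃ y ∈ Ioo (0 : ℝ) 1, ∀ d, P d y := by
    intro P hP
    choose ε hε hPε using hP
    have : ∃ δ > 0, ∀ d, δ ≤ ε d := by
      rcases isEmpty_or_nonempty G.Dart with hemp | hne
      · exact ⟨1, one_pos, fun d => hemp.elim d⟩
      · obtain ⟨d₀, hd₀⟩ := Finite.exists_min ε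
        exact ⟨ε d₀, hε d₀, hd₀⟩
    obtain ⟨δ, hδ, hδε⟩ := this
    refine ⟨min δ 1 / 2, ⟨by positivity, by linarith [min_le_right δ 1]⟩, fun d => ?_⟩
    refine hPε d _ ⟨by positivity, ?_⟩
    have h1 := min_le_left δ 1
    have h2 : 0 < min δ 1 := lt_min hδ one_pos
    linarith [hδε d]
  refine ⟨L, fun d _ => hL2 d, fun d _ => hL1 d, ?_, ?_, ?_, ?_⟩
  · intro e
    obtain ⟨y, hy, hP⟩ := hsmall _ (fun d => (hL3 d).num_le e)
    rw [← hfibseg e y hy]
    exact Finset.sum_le_sum fun d _ => hP d
  · intro e
    by_contra hcon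
    have h0 : ∑ d : G.Dart with pos d, num e (L d) = 0 := by omega
    rw [Finset.sum_eq_zero_iff] at h0
    obtain ⟨y, hy, hP⟩ := hsmall (fun d y => pos d →
      tms (fun t => f (cX.seg d.fst d.snd t)) 0 1 (cY.seg e.fst e.snd y) = ∅) (fun d => by
        by_cases hd : pos d
        · obtain ⟨ε, hε, h1⟩ := (hL3 d).none e (h0 d (by simp [hd]))
          exact ⟨ε, hε, fun y hy _ => h1 y hy⟩
        · exact ⟨1, one_pos, fun y _ h => absurd h hd⟩)
    have h1 := hfibseg e y hy
    rw [Finset.sum_eq_zero] at h1
    · omega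
    · intro d hd
      simp only [Finset.mem_filter, Finset.mem_univ, true_and] at hd
      rw [hP d hd, Set.ncard_empty]
  · intro e
    have hC := fun d => (hL3 d).parity e
    choose C hC1 hC2 using hC
    have hcount : (⋃ d, C d).Countable := countable_iUnion hC1
    have hdense : Dense (⋃ d, C d)ᶜ := hcount.dense_compl ℝ
    obtain ⟨y, hyC, hy⟩ := hdense.inter_open_nonempty (Ioo (0 : ℝ) 1) isOpen_Ioo ⟨1 / 2, by norm_num, by norm_num⟩
    rw [← hfibseg e y hyC, Finset.sum_nat_mod, Finset.sum_nat_mod (s := Finset.univ.filter fun d => pos d)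
      (f := fun d => (tms (fun t => f (cX.seg d.fst d.snd t)) 0 1 (cY.seg e.fst e.snd y)).ncard)]
    congr 1
    refine Finset.sum_congr rfl fun d _ => ?_
    refine ((hC2 d) y hyC ?_).symm
    intro h
    exact hy (mem_iUnion.mpr ⟨d, h⟩)
  · intro w
    have h1 := fiber_encard cX pos hpos f (cY.pt w)
    rw [hfib] at h1
    have h2 : {v : V | f (cX.pt v) = cY.pt w}.encard =
        ((Finset.univ.filter fun v => q v = w).card : ℕ∞) := by
      rw [← Set.encard_coe_eq_coe_finsetCard]
      congr 1
      ext v
      simp only [mem_ofPred_eq, Finset.coe_filter, Finset.mem_univ, true_and]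
      rw [hq, cY.pt_inj.eq_iff]
    have h3 : ∑ d : G.Dart with pos d, cnt (fun t => f (cX.seg d.fst d.snd t)) (cY.pt w) =
        ∑ d : G.Dart with pos d, cntO (fun t => f (cX.seg d.fst d.snd t)) (cY.pt w) +
        ((∑ d : G.Dart with pos d, (if q d.fst = w then 1 else 0) : ℕ) : ℕ∞) := by
      push_cast
      rw [← Finset.sum_add_distrib]
      refine Finset.sum_congr rfl fun d _ => ?_
      rw [cnt_eq_cntO_add]
      congr 1
      rw [cX.seg_zero _ _ d.adj, hq]
      simp only [cY.pt_inj.eq_iff]
    have h4 : ∑ d : G.Dart with pos d, cnt (fun t => f (cX.seg d.fst d.snd t)) (cY.pt w) =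
        ((∑ d : G.Dart with pos d, dep w (L d) : ℕ) : ℕ∞) := by
      push_cast
      refine Finset.sum_congr rfl fun d _ => ?_
      rw [hcnt, (hL3 d).pts]
    have h5 : ((k + ∑ d : G.Dart with pos d, (if q d.fst = w then 1 else 0) : ℕ) : ℕ∞) =
        (((Finset.univ.filter fun v => q v = w).card +
        ∑ d : G.Dart with pos d, dep w (L d) : ℕ) : ℕ∞) := by
      rw [Nat.cast_add, Nat.cast_add, ← h4, h3, ← add_assoc, ← h2, ← h1]
    exact_mod_cast h5.symm

end

section

variable {W : Type} {H : SimpleGraph W}

open Classical in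
/-- number of excursions along `e` -/
noncomputable def exc (e : H.Dart) (ℓ : List (Step H)) : ℕ :=
  (ℓ.map fun s => if s.out = e ∧ s.arr = e then 1 else 0).sum

theorem num_eq_trav (e : H.Dart) (ℓ : List (Step H)) :
    num e ℓ = trav e ℓ + trav e.symm ℓ + 2 * exc e ℓ := by
  classical
  induction ℓ with
  | nil => simp [num, trav, exc]
  | cons s ℓ ih =>
    have h1 : exc e (s :: ℓ) = (if s.out = e ∧ s.arr = e then 1 else 0) + exc e ℓ := by
      simp [exc]
    rw [num_cons, trav_cons, trav_cons, h1, ih]
    have key : (if s.out = e then 1 else 0) + (if s.arr = e then 1 else 0) =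
        (if s.out = e ∧ s.arr = e.symm then 1 else 0) +
        (if s.out = e.symm ∧ s.arr = e.symm.symm then 1 else 0) +
        2 * (if s.out = e ∧ s.arr = e then 1 else 0) := by
      have hne : e ≠ e.symm := (SimpleGraph.Dart.symm_ne e).symm
      rw [SimpleGraph.Dart.symm_symm]
      by_cases h2 : s.out = e <;> by_cases h3 : s.arr = e
      · rw [if_pos h2, if_pos h3, if_neg (fun h => hne (h3.symm.trans h.2)),
          if_neg (fun h => hne (h2.symm.trans h.1)), if_pos ⟨h2, h3⟩]
      · have h4 : s.arr = e.symm := by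
          rcases s.ok with h | h
          · rw [h] at h3; exact absurd h2 h3
          · rw [h, h2]
        rw [if_pos h2, if_neg h3, if_pos ⟨h2, h4⟩, if_neg (fun h => h3 h.2),
          if_neg (fun h => h3 h.2)]
      · have h4 : s.out = e.symm := by
          rcases s.ok with h | h
          · rw [h] at h3; exact absurd h3 h2
          · rw [← SimpleGraph.Dart.symm_symm s.out, ← h, h3]
        rw [if_neg h2, if_pos h3, if_neg (fun h => h2 h.1), if_pos ⟨h4, h3⟩,
          if_neg (fun h => h2 h.1)]
      · rw [if_neg h2, if_neg h3, if_neg (fun h => h2 h.1), if_neg (fun h => h3 h.2),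
          if_neg (fun h => h2 h.1)]
    rw [key]
    ring

open Classical in
theorem sum_trav_le [Fintype W] (w : W) (ℓ : List (Step H)) :
    ∑ e : H.Dart with e.fst = w, trav e ℓ ≤ dep w ℓ := by
  induction ℓ with
  | nil => simp [trav, dep]
  | cons s ℓ ih =>
    rw [dep_cons]
    simp only [trav_cons]
    rw [Finset.sum_add_distrib]
    refine add_le_add ?_ ih
    calc ∑ e : H.Dart with e.fst = w, (if s.out = e ∧ s.arr = e.symm then 1 else 0)
        ≤ ∑ e : H.Dart with e.fst = w, (if s.out = e then 1 else 0) := by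
          refine Finset.sum_le_sum fun e _ => ?_
          split_ifs with h1 h2
          · exact le_refl _
          · exact absurd h1.1 h2
          · exact Nat.zero_le _
          · exact le_refl _
      _ = if s.out.fst = w then 1 else 0 := sum_dart_ite w s.out

theorem vis_out {ℓ : List (Step H)} {a b : W} (h : IsLW ℓ a b) {s : Step H} (hs : s ∈ ℓ) :
    Vis ℓ a s.out.fst := by
  induction ℓ generalizing a with
  | nil => simp at hs
  | cons s' ℓ ih =>
    rcases List.mem_cons.mp hs with rfl | hs'
    · left; exact h.1.symm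
    · rcases ih h.2 hs' with h1 | ⟨s'', hs'', h1⟩
      · right; exact ⟨s', List.mem_cons_self, h1⟩
      · right; exact ⟨s'', List.mem_cons_of_mem _ hs'', h1⟩

open Classical in
/-- The walk underlying a lazy walk. -/
theorem exists_walk (ℓ : List (Step H)) {a b : W} (h : IsLW ℓ a b) :
    ∃ p : H.Walk a b, (∀ e, p.darts.count e = trav e ℓ) ∧ ∀ x, Vis ℓ a x → x ∈ p.support := by
  induction ℓ generalizing a with
  | nil =>
    have h' : a = b := h
    subst h'
    refine ⟨SimpleGraph.Walk.nil, fun e => by simp [trav], ?_⟩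
    rintro x (h1 | ⟨s, hs, -⟩)
    · simp [h1]
    · simp at hs
  | cons s ℓ ih =>
    obtain ⟨p, hp1, hp2⟩ := ih h.2
    have ha := h.1
    subst ha
    rcases s.ok with hs | hs
    · -- excursion
      have hfst : s.arr.fst = s.out.fst := by rw [hs]
      refine ⟨p.copy hfst rfl, ?_, ?_⟩
      · intro e
        rw [SimpleGraph.Walk.darts_copy, hp1, trav_cons, if_neg, zero_add]
        rintro ⟨h1, h2⟩
        rw [hs, h1] at h2
        exact (SimpleGraph.Dart.symm_ne e) h2.symm
      · rintro x (h1 | ⟨s', hs', h1⟩)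
        · rw [SimpleGraph.Walk.support_copy]
          exact hp2 x (Or.inl (by rw [hfst, h1]))
        · rw [SimpleGraph.Walk.support_copy]
          rcases List.mem_cons.mp hs' with rfl | hs''
          · exact hp2 x (Or.inl h1)
          · exact hp2 x (Or.inr ⟨s', hs'', h1⟩)
    · -- traverse
      have hfst : s.arr.fst = s.out.snd := by rw [hs]; rfl
      refine ⟨SimpleGraph.Walk.cons s.out.adj (p.copy hfst rfl), ?_, ?_⟩
      · intro e
        rw [SimpleGraph.Walk.darts_cons, SimpleGraph.Walk.darts_copy, List.count_cons, hp1,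
          trav_cons]
        have h1 : (s.out = e ∧ s.arr = e.symm) ↔ s.out = e := by
          constructor
          · exact fun h => h.1
          · intro h; exact ⟨h, by rw [hs, h]⟩
        simp only [beq_iff_eq, h1]
        rw [add_comm]
      · rintro x (h1 | ⟨s', hs', h1⟩)
        · rw [SimpleGraph.Walk.support_cons, h1]
          exact List.mem_cons_self
        · rw [SimpleGraph.Walk.support_cons, SimpleGraph.Walk.support_copy]
          refine List.mem_cons_of_mem _ ?_
          rcases List.mem_cons.mp hs' with rfl | hs''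
          · exact hp2 x (Or.inl h1)
          · exact hp2 x (Or.inr ⟨s', hs'', h1⟩)

end

section

variable {V : Type} {G : SimpleGraph V} {W : Type} {H : SimpleGraph W}

open Classical in
theorem dep_toSteps_eq [Fintype W] {a b : W} (p : H.Walk a b) (w : W) :
    dep w (toSteps p.darts) = ∑ e : H.Dart with e.fst = w, p.darts.count e := by
  have hdep : ∀ l : List H.Dart, dep w (toSteps l) = ∑ e : H.Dart with e.fst = w, l.count e := by
    intro l
    induction l with
    | nil => simp [toSteps, dep]
    | cons e l ih =>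
      have h1 : toSteps (e :: l) = ⟨e, e.symm, Or.inr rfl, 0, 0⟩ :: toSteps l := rfl
      rw [h1, dep_cons, ih]
      simp only [List.count_cons, beq_iff_eq]
      rw [Finset.sum_add_distrib, sum_dart_ite, add_comm]
  exact hdep _

open Classical in
theorem routing_of_lazy [Fintype V] [Fintype W] {k : ℕ} (hk : 2 ≤ k) (hG : ∀ v, ∃ u, G.Adj v u)
    (pos : G.Dart → Prop) (hpos : ∀ d, pos d.symm ↔ ¬ pos d) (q : V → W)
    (L : G.Dart → List (Step H)) (hL1 : ∀ d, pos d → IsLW (L d) (q d.fst) (q d.snd))
    (hL2 : ∀ d, pos d → L d ≠ [])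
    (hle : ∀ e, ∑ d : G.Dart with pos d, num e (L d) ≤ k)
    (hge : ∀ e, 1 ≤ ∑ d : G.Dart with pos d, num e (L d))
    (hpar : ∀ e, (∑ d : G.Dart with pos d, (trav e (L d) + trav e.symm (L d))) % 2 = k % 2)
    (hdep : ∀ w, (Finset.univ.filter fun v => q v = w).card +
        ∑ d : G.Dart with pos d, dep w (L d) =
        k + ∑ d : G.Dart with pos d, (if q d.fst = w then 1 else 0)) :
    ∃ R : Routing G H, R.Admissible k := by
  have hwalk : ∀ d : G.Dart, ∃ p : H.Walk (q d.fst) (q d.snd), pos d →
      (∀ e, p.darts.count e = trav e (L d)) ∧ ∀ x, Vis (L d) (q d.fst) x → x ∈ p.support := by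
    intro d
    by_cases hd : pos d
    · obtain ⟨p, hp1, hp2⟩ := exists_walk (L d) (hL1 d hd)
      exact ⟨p, fun _ => ⟨hp1, hp2⟩⟩
    · have hd' : pos d.symm := (hpos d).mpr hd
      obtain ⟨p, -, -⟩ := exists_walk (L d.symm) (hL1 d.symm hd')
      exact ⟨p.reverse, fun h => absurd h hd⟩
  choose P hP using hwalk
  let rt : ∀ d : G.Dart, H.Walk (q d.fst) (q d.snd) :=
    fun d => if pos d then P d else (P d.symm).reverse
  have hrt : ∀ d : G.Dart, rt d.symm = (rt d).reverse := by
    intro d
    by_cases hd : pos d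
    · have hd' : ¬ pos d.symm := fun h => (hpos d).mp h hd
      have e1 : rt d.symm = (P d.symm.symm).reverse := if_neg hd'
      have e2 : rt d = P d := if_pos hd
      exact e1.trans (congrArg (fun p => p.reverse) e2.symm)
    · have hd' : pos d.symm := (hpos d).mpr hd
      have e1 : rt d.symm = P d.symm := if_pos hd'
      have e2 : rt d = (P d.symm).reverse := if_neg hd
      have e3 : (rt d).reverse = P d.symm :=
        (congrArg (fun p => p.reverse) e2).trans (SimpleGraph.Walk.reverse_reverse _)
      exact e1.trans e3.symm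
  let R : Routing G H :=
    { place := q
      route := rt
      route_symm := hrt }
  have hplace : R.place = q := rfl
  have hroute : ∀ d, pos d → R.route d = P d := fun d hd => if_pos hd
  have htraf : ∀ e, R.traffic e = ∑ d : G.Dart with pos d, (trav e (L d) + trav e.symm (L d)) := by
    intro e
    rw [Routing.traffic, sum_dart_eq pos hpos]
    refine Finset.sum_congr rfl fun d hd => ?_
    simp only [Finset.mem_filter, Finset.mem_univ, true_and] at hd
    rw [route_count_symm, hroute d hd, (hP d hd).1, (hP d hd).1]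
  have hnum : ∀ e, ∑ d : G.Dart with pos d, num e (L d) =
      R.traffic e + 2 * ∑ d : G.Dart with pos d, exc e (L d) := by
    intro e
    rw [htraf, Finset.mul_sum, ← Finset.sum_add_distrib]
    exact Finset.sum_congr rfl fun d _ => num_eq_trav e (L d)
  have hAB : ∀ w, (∑ d : G.Dart with pos d, (if q d.fst = w then 1 else 0)) +
      (∑ d : G.Dart with pos d, (if q d.snd = w then 1 else 0)) =
      ∑ d : G.Dart, (if q d.fst = w then 1 else 0) := by
    intro w
    rw [sum_dart_eq pos hpos, Finset.sum_add_distrib]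
    rfl
  have hnumw : ∀ w, (∑ e : H.Dart with e.fst = w, ∑ d : G.Dart with pos d, num e (L d)) +
        (∑ d : G.Dart with pos d, (if q d.fst = w then 1 else 0)) =
      2 * (∑ d : G.Dart with pos d, dep w (L d)) +
        (∑ d : G.Dart with pos d, (if q d.snd = w then 1 else 0)) := by
    intro w
    rw [Finset.sum_comm, ← Finset.sum_add_distrib, Finset.mul_sum, ← Finset.sum_add_distrib]
    refine Finset.sum_congr rfl fun d hd => ?_
    simp only [Finset.mem_filter, Finset.mem_univ, true_and] at hd
    exact sum_num w (L d) (hL1 d hd)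
  have hocc : ∀ w, R.occupancy w = (Finset.univ.filter fun v => q v = w).card := fun w => rfl
  have hload : ∀ w, ((∑ e : H.Dart with e.fst = w, ∑ d : G.Dart with pos d, num e (L d) : ℕ) : ℤ) =
      2 * k + R.excess w := by
    intro w
    rw [excess_eq, hplace]
    have h1 := hnumw w
    have h2 := hAB w
    have h3 := hdep w
    have h4 := hocc w
    rw [← h4] at h3
    omega
  refine ⟨R, ?_, ?_, ?_, ?_, ?_, ?_⟩
  · intro e
    have h1 := hle e
    rw [hnum] at h1
    omega
  · intro e
    rw [Nat.ModEq, htraf]
    exact hpar e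
  · intro w
    have htrans : R.twiceTransit w =
        2 * ∑ d : G.Dart with pos d, ((R.route d).support.tail.dropLast).count w := by
      rw [Routing.twiceTransit, sum_dart_eq pos hpos, Finset.mul_sum]
      refine Finset.sum_congr rfl fun d _ => ?_
      rw [route_inner_symm]
      ring
    have hinner : (∑ d : G.Dart with pos d, ((R.route d).support.tail.dropLast).count w) +
        (∑ d : G.Dart with pos d, (if q d.fst = w then 1 else 0)) ≤
        ∑ d : G.Dart with pos d, dep w (L d) := by
      rw [← Finset.sum_add_distrib]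
      refine Finset.sum_le_sum fun d hd => ?_
      simp only [Finset.mem_filter, Finset.mem_univ, true_and] at hd
      have h1 : dep w (toSteps (R.route d).darts) +
          (if toSteps (R.route d).darts = [] ∧ q d.fst = w then 1 else 0) =
          ((R.route d).support.tail.dropLast).count w + (if q d.fst = w then 1 else 0) :=
        dep_toSteps (R.route d) w
      rw [dep_toSteps_eq] at h1
      have h2 : ∑ e : H.Dart with e.fst = w, (R.route d).darts.count e ≤ dep w (L d) := by
        rw [hroute d hd]
        refine le_trans (le_of_eq ?_) (sum_trav_le w (L d))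
        exact Finset.sum_congr rfl fun e _ => (hP d hd).1 e
      by_cases hnil : toSteps (R.route d).darts = [] ∧ q d.fst = w
      · rw [if_pos hnil, if_pos hnil.2] at h1
        rw [if_pos hnil.2]
        have hd0 : (R.route d).darts = [] := (toSteps_eq_nil _).mp hnil.1
        rw [hd0] at h1
        simp only [List.count_nil, Finset.sum_const_zero, zero_add] at h1
        have h3 : ((R.route d).support.tail.dropLast).count w = 0 := by omega
        rw [h3]
        have h4 : 1 ≤ dep w (L d) := by
          have h5 := hL1 d hd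
          have h6 := hL2 d hd
          cases hℓ : L d with
          | nil => exact absurd hℓ h6
          | cons s ℓ =>
            rw [hℓ] at h5
            rw [dep_cons, if_pos (h5.1.trans hnil.2)]
            omega
        omega
      · rw [if_neg hnil] at h1
        omega
    have h1 := hdep w
    rw [← hocc w] at h1
    rw [htrans]
    omega
  · intro w
    have h1 := hload w
    have h2 : ∑ e : H.Dart with e.fst = w, ∑ d : G.Dart with pos d, num e (L d) ≤
        H.degree w * k := by
      refine (Finset.sum_le_sum fun e _ => hle e).trans ?_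
      rw [Finset.sum_const, card_fst, smul_eq_mul]
    have h3 : ((∑ e : H.Dart with e.fst = w, ∑ d : G.Dart with pos d, num e (L d) : ℕ) : ℤ) ≤
        (H.degree w : ℤ) * k := by exact_mod_cast h2
    have h4 : (k : ℤ) * ((H.degree w : ℤ) - 2) = (H.degree w : ℤ) * k - 2 * k := by ring
    rw [h4]
    linarith
  · intro hke w
    rw [← hload w]
    push_cast
    refine Finset.sum_le_sum fun e _ => ?_
    have h1 := hnum e
    have h2 := hge e
    have h3 : R.traffic e % 2 = k % 2 := by rw [htraf]; exact hpar e
    have h4 : k % 2 = 0 := Nat.even_iff.mp hke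
    have h5 : max (R.traffic e) 2 ≤ ∑ d : G.Dart with pos d, num e (L d) := by
      rw [max_le_iff]
      constructor <;> omega
    exact_mod_cast h5
  · intro w
    have h1 := hdep w
    by_cases hocc0 : ∃ v, q v = w
    · obtain ⟨v, hv⟩ := hocc0
      obtain ⟨u, hu⟩ := hG v
      subst hv
      exact ⟨⟨(v, u), hu⟩, (R.route ⟨(v, u), hu⟩).start_mem_support⟩
    · have h2 : (Finset.univ.filter fun v => q v = w).card = 0 := by
        rw [Finset.card_eq_zero, Finset.eq_empty_iff_forall_notMem]
        intro v hv
        simp only [Finset.mem_filter, Finset.mem_univ, true_and] at hv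
        exact hocc0 ⟨v, hv⟩
      rw [h2, zero_add] at h1
      have h3 : ∃ d, pos d ∧ dep w (L d) ≠ 0 := by
        by_contra hcon
        push Not at hcon
        rw [Finset.sum_eq_zero] at h1
        · omega
        · intro d hd
          simp only [Finset.mem_filter, Finset.mem_univ, true_and] at hd
          exact hcon d hd
      obtain ⟨d, hd, hne⟩ := h3
      refine ⟨d, ?_⟩
      rw [hroute d hd]
      refine (hP d hd).2 w ?_
      obtain ⟨s, hs, hsw⟩ : ∃ s ∈ L d, s.out.fst = w := by
        by_contra hcon
        push Not at hcon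
        apply hne
        rw [dep, List.sum_eq_zero]
        intro n hn
        rw [List.mem_map] at hn
        obtain ⟨s, hs, rfl⟩ := hn
        rw [if_neg (hcon s hs)]
      rw [← hsw]
      exact vis_out (hL1 d hd) hs

end

end Pool.Agent.Helper26.KToOne
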