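import Mathlib

/-!
# Parity of the number of crossings of a level
-/

namespace Pool.Agent.Helper26.KToOne

open Set Filter Topology

/-- values at local extrema -/
def extVals (g : ℝ → ℝ) : Set ℝ := {y | ∃ t, (IsLocalMax g t ∨ IsLocalMin g t) ∧ g t = y}

theorem extVals_countable (g : ℝ → ℝ) : (extVals g).Countable := by
  have key : ∀ g : ℝ → ℝ, {y | ∃ t, IsLocalMax g t ∧ g t = y}.Countable := by
    intro g
    refine (countable_range fun pq : ℚ × ℚ => sSup (g '' Ioo (pq.1 : ℝ) pq.2)).mono ?_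
    rintro y ⟨t, ht, rfl⟩
    obtain ⟨l, u, ⟨hl, hu⟩, hsub⟩ := mem_nhds_iff_exists_Ioo_subset.mp ht
    obtain ⟨p, hp1, hp2⟩ := exists_rat_btwn hl
    obtain ⟨q, hq1, hq2⟩ := exists_rat_btwn hu
    refine ⟨(p, q), ?_⟩
    have hg : IsGreatest (g '' Ioo (p : ℝ) q) (g t) := by
      refine ⟨⟨t, ⟨hp2, hq1⟩, rfl⟩, ?_⟩
      rintro _ ⟨s, ⟨hs1, hs2⟩, rfl⟩
      exact hsub ⟨hp1.trans hs1, hs2.trans hq2⟩
    exact hg.csSup_eq
  have h1 := key g
  have h2 := (key fun t => -g t).image fun y => -y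
  refine (h1.union h2).mono ?_
  rintro y ⟨t, ht | ht, rfl⟩
  · left; exact ⟨t, ht, rfl⟩
  · right
    exact ⟨-g t, ⟨t, ht.neg, rfl⟩, by simp⟩

/-- no zero, no sign change -/
theorem sign_const {g : ℝ → ℝ} {a b y : ℝ} (hab : a ≤ b) (hg : ContinuousOn g (Icc a b))
    (h : ∀ t ∈ Icc a b, g t ≠ y) : 0 < (g a - y) * (g b - y) := by
  have ha := h a ⟨le_refl _, hab⟩
  have hb := h b ⟨hab, le_refl _⟩
  rcases lt_or_gt_of_ne ha with h1 | h1 <;> rcases lt_or_gt_of_ne hb with h2 | h2
  · nlinarith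
  · exfalso
    obtain ⟨t, ht, hty⟩ := intermediate_value_Icc hab hg ⟨h1.le, h2.le⟩
    exact h t ht hty
  · exfalso
    obtain ⟨t, ht, hty⟩ := intermediate_value_Icc' hab hg ⟨h2.le, h1.le⟩
    exact h t ht hty
  · nlinarith

theorem odd_add_one_add (m₁ m₂ : ℕ) :
    (m₁ + 1 + m₂) % 2 = 1 ↔ ((m₁ % 2 = 1) ↔ (m₂ % 2 = 1)) := by
  constructor
  · intro h
    constructor <;> intro h' <;> omega
  · intro h
    by_cases h' : m₁ % 2 = 1
    · have := h.mp h'; omega
    · have : ¬ m₂ % 2 = 1 := fun h2 => h' (h.mpr h2)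
      omega

theorem neg_mul_iff {x z : ℝ} (hx : x ≠ 0) (hz : z ≠ 0) :
    x * z < 0 ↔ ¬ ((0 < x) ↔ (0 < z)) := by
  rcases lt_or_gt_of_ne hx with h1 | h1 <;> rcases lt_or_gt_of_ne hz with h2 | h2
  · have h3 : ¬ (x * z < 0) := by nlinarith
    have h4 : ¬ 0 < x := by linarith
    have h5 : ¬ 0 < z := by linarith
    tauto
  · have h3 : x * z < 0 := by nlinarith
    have h4 : ¬ 0 < x := by linarith
    tauto
  · have h3 : x * z < 0 := by nlinarith
    have h5 : ¬ 0 < z := by linarith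
    tauto
  · have h3 : ¬ (x * z < 0) := by nlinarith
    tauto

theorem odd_crossings (n : ℕ) : ∀ {g : ℝ → ℝ} {a b y : ℝ}, a < b → ContinuousOn g (Icc a b) →
    g a ≠ y → g b ≠ y → {t | t ∈ Ioo a b ∧ g t = y}.Finite →
    (∀ t ∈ Ioo a b, g t = y → ¬ IsLocalMax g t ∧ ¬ IsLocalMin g t) →
    {t | t ∈ Ioo a b ∧ g t = y}.ncard = n →
    (n % 2 = 1 ↔ (g a - y) * (g b - y) < 0) := by
  induction n using Nat.strong_induction_on with
  | _ n ih =>
  intro g a b y hab hg ha hb hfin hext hn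
  rcases Nat.eq_zero_or_pos n with h0 | hpos
  · subst h0
    have hempty : {t | t ∈ Ioo a b ∧ g t = y} = ∅ := (Set.ncard_eq_zero hfin).mp hn
    have hne : ∀ t ∈ Icc a b, g t ≠ y := by
      intro t ht
      rcases ht.1.eq_or_lt with h1 | h1
      · rw [← h1]; exact ha
      · rcases ht.2.eq_or_lt with h2 | h2
        · rw [h2]; exact hb
        · intro h
          have : t ∈ {t | t ∈ Ioo a b ∧ g t = y} := ⟨⟨h1, h2⟩, h⟩
          rw [hempty] at this
          exact this
    have := sign_const hab.le hg hne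
    constructor
    · intro h; norm_num at h
    · intro h; linarith
  · have hne : {t | t ∈ Ioo a b ∧ g t = y}.Nonempty := by
      rw [Set.nonempty_iff_ne_empty]
      intro h
      rw [h, Set.ncard_empty] at hn
      omega
    obtain ⟨t₀, ⟨ht₀, hgt₀⟩⟩ := hne
    -- isolate
    have hfin' : ({t | t ∈ Ioo a b ∧ g t = y} \ {t₀}).Finite := hfin.subset sdiff_subset
    have hopen : Ioo a b \ ({t | t ∈ Ioo a b ∧ g t = y} \ {t₀}) ∈ 𝓝 t₀ := by
      refine (isOpen_Ioo.sdiff hfin'.isClosed).mem_nhds ⟨ht₀, ?_⟩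
      simp
    obtain ⟨l, u, ⟨hl, hu⟩, hsub⟩ := mem_nhds_iff_exists_Ioo_subset.mp hopen
    set s := (max l a + t₀) / 2 with hs
    set s' := (min u b + t₀) / 2 with hs'
    have hmax : max l a < t₀ := max_lt hl ht₀.1
    have hmin : t₀ < min u b := lt_min hu ht₀.2
    have hst : s < t₀ := by rw [hs]; linarith
    have hst' : t₀ < s' := by rw [hs']; linarith
    have hls : l < s := by rw [hs]; linarith [le_max_left l a]
    have has : a < s := by rw [hs]; linarith [le_max_right l a]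
    have hsu : s' < u := by rw [hs']; linarith [min_le_left u b]
    have hsb : s' < b := by rw [hs']; linarith [min_le_right u b]
    have hno : ∀ t ∈ Ioo l u, t ≠ t₀ → g t ≠ y := by
      intro t ht hne hty
      have h1 := hsub ht
      exact h1.2 ⟨⟨h1.1, hty⟩, hne⟩
    have hgs : g s ≠ y := hno s ⟨hls, by linarith⟩ hst.ne
    have hgs' : g s' ≠ y := hno s' ⟨by linarith, hsu⟩ hst'.ne'
    -- opposite signs
    have hleft : ∀ t ∈ Ico s t₀, 0 < (g s - y) * (g t - y) := by
      intro t ht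
      refine sign_const ht.1 (hg.mono (Icc_subset_Icc has.le (by linarith [ht.2, ht₀.2]))) ?_
      intro r hr
      exact hno r ⟨by linarith [hr.1], by linarith [hr.2, ht.2]⟩ (by linarith [hr.2, ht.2] : r < t₀).ne
    have hright : ∀ t ∈ Ioc t₀ s', 0 < (g t - y) * (g s' - y) := by
      intro t ht
      refine sign_const ht.2 (hg.mono (Icc_subset_Icc (by linarith [ht.1, ht₀.1]) hsb.le)) ?_
      intro r hr
      exact hno r ⟨by linarith [hr.1, ht.1], by linarith [hr.2]⟩ (by linarith [hr.1, ht.1] : t₀ < r).ne'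
    have hopp : (g s - y) * (g s' - y) < 0 := by
      by_contra hcon
      push Not at hcon
      have h1 : g s - y ≠ 0 := sub_ne_zero.mpr hgs
      have h2 : g s' - y ≠ 0 := sub_ne_zero.mpr hgs'
      have h3 : 0 < (g s - y) * (g s' - y) := lt_of_le_of_ne hcon (mul_ne_zero h1 h2).symm
      have hev := hext t₀ ht₀ hgt₀
      have hnb : Ioo s s' ∈ 𝓝 t₀ := Ioo_mem_nhds hst hst'
      rcases lt_or_gt_of_ne h1 with h4 | h4
      · -- both negative: local max
        have h5 : g s' - y < 0 := by nlinarith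
        apply hev.1
        filter_upwards [hnb] with t ht
        rcases lt_trichotomy t t₀ with h6 | h6 | h6
        · have := hleft t ⟨ht.1.le, h6⟩
          have : g t - y < 0 := by nlinarith
          rw [hgt₀]; linarith
        · rw [h6]
        · have := hright t ⟨h6, ht.2.le⟩
          have : g t - y < 0 := by nlinarith
          rw [hgt₀]; linarith
      · have h5 : 0 < g s' - y := by nlinarith
        apply hev.2
        filter_upwards [hnb] with t ht
        rcases lt_trichotomy t t₀ with h6 | h6 | h6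
        · have := hleft t ⟨ht.1.le, h6⟩
          have : 0 < g t - y := by nlinarith
          rw [hgt₀]; linarith
        · rw [h6]
        · have := hright t ⟨h6, ht.2.le⟩
          have : 0 < g t - y := by nlinarith
          rw [hgt₀]; linarith
    -- decomposition
    have hdec : {t | t ∈ Ioo a b ∧ g t = y} =
        ({t | t ∈ Ioo a s ∧ g t = y} ∪ {t₀}) ∪ {t | t ∈ Ioo s' b ∧ g t = y} := by
      ext t
      simp only [mem_ofPred_eq, mem_union, mem_singleton_iff, mem_Ioo]
      constructor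
      · rintro ⟨⟨h1, h2⟩, h3⟩
        by_cases h4 : t = t₀
        · left; right; exact h4
        · by_cases h5 : t < s
          · left; left; exact ⟨⟨h1, h5⟩, h3⟩
          · by_cases h6 : s' < t
            · right; exact ⟨⟨h6, h2⟩, h3⟩
            · exfalso
              push Not at h5 h6
              exact hno t ⟨by linarith, by linarith⟩ h4 h3
      · rintro ((⟨⟨h1, h2⟩, h3⟩ | rfl) | ⟨⟨h1, h2⟩, h3⟩)
        · exact ⟨⟨h1, by linarith [ht₀.2]⟩, h3⟩
        · exact ⟨ht₀, hgt₀⟩
        · exact ⟨⟨by linarith [ht₀.1], h2⟩, h3⟩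
    have hf1 : {t | t ∈ Ioo a s ∧ g t = y}.Finite := by
      refine hfin.subset ?_
      rw [hdec]
      exact fun t ht => Or.inl (Or.inl ht)
    have hf2 : {t | t ∈ Ioo s' b ∧ g t = y}.Finite := by
      refine hfin.subset ?_
      rw [hdec]
      exact fun t ht => Or.inr ht
    have hcard : n = {t | t ∈ Ioo a s ∧ g t = y}.ncard + 1 + {t | t ∈ Ioo s' b ∧ g t = y}.ncard := by
      rw [← hn, hdec, Set.ncard_union_eq _ (hf1.union (finite_singleton _)) hf2,
        Set.ncard_union_eq _ hf1 (finite_singleton _), Set.ncard_singleton]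
      · rw [Set.disjoint_singleton_right]
        rintro ⟨⟨_, h⟩, _⟩
        linarith
      · rw [Set.disjoint_left]
        rintro t (⟨⟨_, h1⟩, _⟩ | h1) ⟨⟨h2, _⟩, _⟩
        · linarith
        · rw [mem_singleton_iff] at h1
          linarith
    have ih1 := ih _ (by omega) has (hg.mono (Icc_subset_Icc (le_refl _) (by linarith [ht₀.2]))) ha hgs
      hf1 (fun t ht h => hext t ⟨ht.1, by linarith [ht.2, ht₀.2]⟩ h) rfl
    have ih2 := ih _ (by omega) hsb (hg.mono (Icc_subset_Icc (by linarith [ht₀.1]) (le_refl _))) hgs' hb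
      hf2 (fun t ht h => hext t ⟨by linarith [ht.1, ht₀.1], ht.2⟩ h) rfl
    have hA : g a - y ≠ 0 := sub_ne_zero.mpr ha
    have hB : g b - y ≠ 0 := sub_ne_zero.mpr hb
    have hS : g s - y ≠ 0 := sub_ne_zero.mpr hgs
    have hS' : g s' - y ≠ 0 := sub_ne_zero.mpr hgs'
    rw [neg_mul_iff hA hS] at ih1
    rw [neg_mul_iff hS' hB] at ih2
    rw [neg_mul_iff hS hS'] at hopp
    rw [neg_mul_iff hA hB, hcard, odd_add_one_add, ih1, ih2]
    clear ih1 ih2 hcard hf1 hf2 hdec hleft hright hno hsub hopen hfin hfin' hext hg ih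
    tauto

end Pool.Agent.Helper26.KToOne
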