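import Pool.Agent.Helper26.KToOne.Comb
import Pool.Agent.Helper26.KToOne.Parity

/-!
# Analysis of a path in a graph: extraction of a lazy walk
-/

namespace Pool.Agent.Helper26.KToOne

open Set Filter Topology

section

variable {Y : Type} [TopologicalSpace Y] {W : Type} {H : SimpleGraph W}

/-- an open segment -/
def oseg (c : Chart Y H) (e : H.Dart) : Set Y := c.seg e.fst e.snd '' Ioo (0 : ℝ) 1

theorem oseg_symm (c : Chart Y H) (e : H.Dart) : oseg c e.symm = oseg c e := by
  have key : ∀ e : H.Dart, oseg c e.symm ⊆ oseg c e := by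
    rintro e _ ⟨t, ht, rfl⟩
    refine ⟨1 - t, ⟨by linarith [ht.2], by linarith [ht.1]⟩, ?_⟩
    change _ = c.seg e.snd e.fst t
    rw [c.seg_rev _ _ e.adj]
  refine Subset.antisymm (key e) ?_
  have := key e.symm
  rwa [SimpleGraph.Dart.symm_symm] at this

theorem oseg_disjoint (c : Chart Y H) {e e' : H.Dart} (h : e' ≠ e) (h' : e' ≠ e.symm) :
    Disjoint (oseg c e) (oseg c e') := by
  rw [Set.disjoint_left]
  rintro _ ⟨t, ht, rfl⟩ ⟨t', ht', heq⟩
  rcases c.seg_inj _ _ _ _ e'.adj e.adj t' ht' t ht heq with ⟨h1, h2, -⟩ | ⟨h1, h2, -⟩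
  · apply h
    ext
    · exact h1.symm
    · exact h2.symm
  · apply h'
    ext
    · exact h2.symm
    · exact h1.symm

theorem oseg_isOpen [Finite W] [T2Space Y] (c : Chart Y H) (e : H.Dart) : IsOpen (oseg c e) := by
  have hfin : Finite H.Dart := Finite.of_injective _ SimpleGraph.Dart.toProd_injective
  have hset : (oseg c e)ᶜ = (range c.pt) ∪
      ⋃ e' : {e' : H.Dart // e' ≠ e ∧ e' ≠ e.symm}, c.seg e'.1.fst e'.1.snd '' Icc (0 : ℝ) 1 := by
    ext y
    simp only [mem_compl_iff, mem_union, mem_range, mem_iUnion]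
    constructor
    · intro hy
      rcases c.cover y with ⟨w, hw⟩ | ⟨a, b, hab, t, ht, rfl⟩
      · left; exact ⟨w, hw⟩
      · right
        refine ⟨⟨⟨(a, b), hab⟩, ?_, ?_⟩, t, ⟨ht.1.le, ht.2.le⟩, rfl⟩
        · rintro rfl
          exact hy ⟨t, ht, rfl⟩
        · intro h
          apply hy
          rw [← oseg_symm, ← h]
          exact ⟨t, ht, rfl⟩
    · rintro (⟨w, rfl⟩ | ⟨⟨e', h1, h2⟩, t, ht, rfl⟩)
      · rintro ⟨t, ht, h⟩
        exact c.seg_ne _ _ e.adj t ht w h
      · intro hmem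
        rcases icc_cases ht with rfl | rfl | ht'
        · rw [c.seg_zero _ _ e'.adj] at hmem
          obtain ⟨s, hs, h⟩ := hmem
          exact c.seg_ne _ _ e.adj s hs _ h
        · rw [c.seg_one e'.adj] at hmem
          obtain ⟨s, hs, h⟩ := hmem
          exact c.seg_ne _ _ e.adj s hs _ h
        · exact Set.disjoint_left.mp (oseg_disjoint c h1 h2) hmem ⟨t, ht', rfl⟩
  rw [← isClosed_compl_iff, hset]
  refine IsClosed.union (Set.finite_range _).isClosed ?_
  refine isClosed_iUnion_of_finite fun e' => ?_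
  exact ((isCompact_Icc).image (c.cont _ _ e'.1.adj)).isClosed

/-- Between two consecutive visits to vertices a path stays in one edge, with a continuous level. -/
theorem exists_level [Finite W] [T2Space Y] (c : Chart Y H) {g : ℝ → Y} (hg : Continuous g)
    {a b : ℝ} (hab : a < b) {u v : W} (hu : g a = c.pt u) (hv : g b = c.pt v)
    (hno : ∀ t ∈ Ioo a b, ∀ w, g t ≠ c.pt w) :
    ∃ (e : H.Dart) (lam : ℝ → ℝ), e.fst = u ∧ ContinuousOn lam (Icc a b) ∧ lam a = 0 ∧
      (∀ t ∈ Ioo a b, lam t ∈ Ioo (0 : ℝ) 1) ∧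
      ((lam b = 1 ∧ e.snd = v) ∨ (lam b = 0 ∧ e.fst = v)) ∧
      ∀ t ∈ Icc a b, g t = c.seg e.fst e.snd (lam t) := by
  have hfin : Finite H.Dart := Finite.of_injective _ SimpleGraph.Dart.toProd_injective
  -- the edge
  have hmid : (a + b) / 2 ∈ Ioo a b := ⟨by linarith, by linarith⟩
  obtain ⟨e, he⟩ : ∃ e : H.Dart, g ((a + b) / 2) ∈ oseg c e := by
    rcases c.cover (g ((a + b) / 2)) with ⟨w, hw⟩ | ⟨x, y, hxy, t, ht, h⟩
    · exact absurd hw.symm (hno _ hmid w)
    · exact ⟨⟨(x, y), hxy⟩, t, ht, h⟩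
  have hsub : g '' Ioo a b ⊆ oseg c e := by
    have hopen2 : IsOpen (⋃ e' : {e' : H.Dart // e' ≠ e ∧ e' ≠ e.symm}, oseg c e'.1) :=
      isOpen_iUnion fun e' => oseg_isOpen c e'.1
    refine IsPreconnected.subset_left_of_subset_union (oseg_isOpen c e) hopen2 ?_ ?_ ?_ ?_
    · rw [Set.disjoint_iUnion_right]
      rintro ⟨e', h1, h2⟩
      exact oseg_disjoint c h1 h2
    · rintro _ ⟨t, ht, rfl⟩
      rcases c.cover (g t) with ⟨w, hw⟩ | ⟨x, y, hxy, s, hs, h⟩
      · exact absurd hw.symm (hno _ ht w)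
      · by_cases h1 : (⟨(x, y), hxy⟩ : H.Dart) = e
        · left; rw [← h1]; exact ⟨s, hs, h⟩
        · by_cases h2 : (⟨(x, y), hxy⟩ : H.Dart) = e.symm
          · left; rw [← oseg_symm, ← h2]; exact ⟨s, hs, h⟩
          · right
            rw [mem_iUnion]
            exact ⟨⟨_, h1, h2⟩, s, hs, h⟩
    · exact ⟨_, ⟨_, hmid, rfl⟩, he⟩
    · exact (isPreconnected_Ioo).image _ hg.continuousOn
  -- general orientation-free level
  have main : ∀ e : H.Dart, g '' Ioo a b ⊆ oseg c e → ∃ lam : ℝ → ℝ,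
      ContinuousOn lam (Icc a b) ∧ (∀ t ∈ Icc a b, lam t ∈ Icc (0 : ℝ) 1) ∧
      (∀ t ∈ Icc a b, g t = c.seg e.fst e.snd (lam t)) := by
    intro e hsub
    have hcl : IsClosed (c.seg e.fst e.snd '' Icc (0 : ℝ) 1) :=
      ((isCompact_Icc).image (c.cont _ _ e.adj)).isClosed
    have hsub2 : ∀ t ∈ Icc a b, g t ∈ c.seg e.fst e.snd '' Icc (0 : ℝ) 1 := by
      intro t ht
      rw [← closure_Ioo hab.ne] at ht
      have h1 : closure (Ioo a b) ⊆ g ⁻¹' (c.seg e.fst e.snd '' Icc (0 : ℝ) 1) := by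
        refine closure_minimal ?_ (hcl.preimage hg)
        intro s hs
        have := hsub ⟨s, hs, rfl⟩
        obtain ⟨r, hr, h⟩ := this
        exact ⟨r, ⟨hr.1.le, hr.2.le⟩, h⟩
      exact h1 ht
    refine ⟨fun t => Function.invFunOn (c.seg e.fst e.snd) (Icc (0 : ℝ) 1) (g t), ?_, ?_, ?_⟩
    · rw [continuousOn_iff_isClosed]
      intro C hC
      refine ⟨g ⁻¹' (c.seg e.fst e.snd '' (Icc (0 : ℝ) 1 ∩ C)), ?_, ?_⟩
      · exact (((isCompact_Icc).inter_right hC).image (c.cont _ _ e.adj)).isClosed.preimage hg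
      · ext t
        simp only [mem_inter_iff, mem_preimage]
        refine and_congr_left fun ht => ?_
        have h1 := Function.invFunOn_mem (hsub2 t ht)
        have h2 := Function.invFunOn_eq (hsub2 t ht)
        constructor
        · intro h
          exact ⟨_, ⟨h1, h⟩, h2⟩
        · rintro ⟨s, ⟨hs, hsC⟩, h⟩
          have : s = Function.invFunOn (c.seg e.fst e.snd) (Icc (0 : ℝ) 1) (g t) :=
            c.seg_injOn e.adj hs h1 (h.trans h2.symm)
          rw [← this]; exact hsC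
    · intro t ht
      exact Function.invFunOn_mem (hsub2 t ht)
    · intro t ht
      exact (Function.invFunOn_eq (hsub2 t ht)).symm
  have haI : a ∈ Icc a b := ⟨le_refl _, hab.le⟩
  have hbI : b ∈ Icc a b := ⟨hab.le, le_refl _⟩
  -- orientation
  obtain ⟨e', hsub', lam, hc, hI, hl, h0⟩ : ∃ e' : H.Dart, g '' Ioo a b ⊆ oseg c e' ∧
      ∃ lam : ℝ → ℝ, ContinuousOn lam (Icc a b) ∧ (∀ t ∈ Icc a b, lam t ∈ Icc (0 : ℝ) 1) ∧
      (∀ t ∈ Icc a b, g t = c.seg e'.fst e'.snd (lam t)) ∧ lam a = 0 := by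
    obtain ⟨lam, hc, hI, hl⟩ := main e hsub
    rcases icc_cases (hI a haI) with h | h | h
    · exact ⟨e, hsub, lam, hc, hI, hl, h⟩
    · refine ⟨e.symm, by rw [oseg_symm]; exact hsub, fun t => 1 - lam t, continuousOn_const.sub hc,
        ?_, ?_, ?_⟩
      · intro t ht
        have := hI t ht
        exact ⟨by linarith [this.2], by linarith [this.1]⟩
      · intro t ht
        rw [hl t ht]
        change _ = c.seg e.snd e.fst (1 - lam t)
        rw [c.seg_rev _ _ e.adj]
        congr 1; ring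
      · simp only; rw [h]; norm_num
    · exfalso
      have h1 := hl a haI
      rw [hu] at h1
      exact c.seg_ne _ _ e.adj _ h u h1.symm
  have hfst : e'.fst = u := by
    have h1 := hl a haI
    rw [hu, h0, c.seg_zero _ _ e'.adj] at h1
    exact (c.pt_inj h1).symm
  refine ⟨e', lam, hfst, hc, h0, ?_, ?_, hl⟩
  · intro t ht
    have htI : t ∈ Icc a b := ⟨ht.1.le, ht.2.le⟩
    rcases icc_cases (hI t htI) with h | h | h
    · exfalso
      have h1 := hl t htI
      rw [h, c.seg_zero _ _ e'.adj] at h1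
      exact hno t ht _ h1
    · exfalso
      have h1 := hl t htI
      rw [h, c.seg_one e'.adj] at h1
      exact hno t ht _ h1
    · exact h
  · have h1 := hl b hbI
    rcases icc_cases (hI b hbI) with h | h | h
    · right
      rw [h, c.seg_zero _ _ e'.adj, hv] at h1
      exact ⟨h, (c.pt_inj h1).symm⟩
    · left
      rw [h, c.seg_one e'.adj, hv] at h1
      exact ⟨h, (c.pt_inj h1).symm⟩
    · exfalso
      rw [hv] at h1
      exact c.seg_ne _ _ e'.adj _ h v h1.symm

/-- times in `[a,b)` at which the path is at `y` -/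
def tms (g : ℝ → Y) (a b : ℝ) (y : Y) : Set ℝ := {t | t ∈ Ico a b ∧ g t = y}

/-- The properties of a lazy walk extracted from a path. -/
structure Good (c : Chart Y H) (g : ℝ → Y) (a b : ℝ) (ℓ : List (Step H)) : Prop where
  pts : ∀ w, (tms g a b (c.pt w)).ncard = dep w ℓ
  num_le : ∀ e : H.Dart, ∃ ε > 0, ∀ y ∈ Ioo (0 : ℝ) ε,
    num e ℓ ≤ (tms g a b (c.seg e.fst e.snd y)).ncard
  parity : ∀ e : H.Dart, ∃ C : Set ℝ, C.Countable ∧ ∀ y ∈ Ioo (0 : ℝ) 1, y ∉ C →
    (tms g a b (c.seg e.fst e.snd y)).ncard % 2 = (trav e ℓ + trav e.symm ℓ) % 2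
  none : ∀ e : H.Dart, num e ℓ = 0 → ∃ ε > 0, ∀ y ∈ Ioo (0 : ℝ) ε,
    tms g a b (c.seg e.fst e.snd y) = ∅

theorem num_append (e : H.Dart) (ℓ ℓ' : List (Step H)) : num e (ℓ ++ ℓ') = num e ℓ + num e ℓ' := by
  simp [num]

theorem dep_append (w : W) (ℓ ℓ' : List (Step H)) : dep w (ℓ ++ ℓ') = dep w ℓ + dep w ℓ' := by
  simp [dep]

theorem trav_append (e : H.Dart) (ℓ ℓ' : List (Step H)) :
    trav e (ℓ ++ ℓ') = trav e ℓ + trav e ℓ' := by
  simp [trav]

theorem IsLW.append {ℓ ℓ' : List (Step H)} {a b x : W} (h : IsLW ℓ a b) (h' : IsLW ℓ' b x) :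
    IsLW (ℓ ++ ℓ') a x := by
  induction ℓ generalizing a with
  | nil =>
    have h1 : a = b := h
    rw [h1]; exact h'
  | cons s ℓ ih => exact ⟨h.1, ih h.2⟩

omit [TopologicalSpace Y] in
theorem tms_split (g : ℝ → Y) {a t b : ℝ} (h1 : a ≤ t) (h2 : t ≤ b) (y : Y) :
    tms g a b y = tms g a t y ∪ tms g t b y := by
  ext s
  simp only [tms, mem_ofPred_eq, mem_union, mem_Ico]
  constructor
  · rintro ⟨⟨h3, h4⟩, h5⟩
    rcases lt_or_ge s t with h | h
    · left; exact ⟨⟨h3, h⟩, h5⟩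
    · right; exact ⟨⟨h, h4⟩, h5⟩
  · rintro (⟨⟨h3, h4⟩, h5⟩ | ⟨⟨h3, h4⟩, h5⟩)
    · exact ⟨⟨h3, by linarith⟩, h5⟩
    · exact ⟨⟨by linarith, h4⟩, h5⟩

omit [TopologicalSpace Y] in
theorem tms_disjoint (g : ℝ → Y) (a t b : ℝ) (y : Y) : Disjoint (tms g a t y) (tms g t b y) := by
  rw [Set.disjoint_left]
  rintro s ⟨⟨_, h⟩, _⟩ ⟨⟨h', _⟩, _⟩
  linarith

theorem Good.append {c : Chart Y H} {g : ℝ → Y} {a t b : ℝ} {ℓ ℓ' : List (Step H)} (hat : a ≤ t)
    (htb : t ≤ b) (hfin : ∀ y, (tms g a b y).Finite) (h : Good c g a t ℓ) (h' : Good c g t b ℓ') :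
    Good c g a b (ℓ ++ ℓ') := by
  have hcard : ∀ y, (tms g a b y).ncard = (tms g a t y).ncard + (tms g t b y).ncard := by
    intro y
    have hf := hfin y
    rw [tms_split g hat htb] at hf ⊢
    exact Set.ncard_union_eq (tms_disjoint _ _ _ _ _) (hf.subset subset_union_left)
      (hf.subset subset_union_right)
  constructor
  · intro w
    rw [hcard, dep_append, h.pts, h'.pts]
  · intro e
    obtain ⟨ε, hε, h1⟩ := h.num_le e
    obtain ⟨ε', hε', h1'⟩ := h'.num_le e
    refine ⟨min ε ε', lt_min hε hε', fun y hy => ?_⟩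
    rw [hcard, num_append]
    exact add_le_add (h1 y ⟨hy.1, hy.2.trans_le (min_le_left _ _)⟩)
      (h1' y ⟨hy.1, hy.2.trans_le (min_le_right _ _)⟩)
  · intro e
    obtain ⟨C, hC, h1⟩ := h.parity e
    obtain ⟨C', hC', h1'⟩ := h'.parity e
    refine ⟨C ∪ C', hC.union hC', fun y hy hyC => ?_⟩
    rw [mem_union, not_or] at hyC
    rw [hcard, trav_append, trav_append]
    have h2 := h1 y hy hyC.1
    have h3 := h1' y hy hyC.2
    omega
  · intro e he
    rw [num_append] at he
    obtain ⟨ε, hε, h1⟩ := h.none e (by omega)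
    obtain ⟨ε', hε', h1'⟩ := h'.none e (by omega)
    refine ⟨min ε ε', lt_min hε hε', fun y hy => ?_⟩
    rw [tms_split g hat htb, h1 y ⟨hy.1, hy.2.trans_le (min_le_left _ _)⟩,
      h1' y ⟨hy.1, hy.2.trans_le (min_le_right _ _)⟩, union_self]

/-- The base case. -/
theorem good_single [Finite W] [T2Space Y] (c : Chart Y H) {g : ℝ → Y} (hg : Continuous g)
    {a b : ℝ} (hab : a < b) {u v : W} (hu : g a = c.pt u) (hv : g b = c.pt v)
    (hno : ∀ t ∈ Ioo a b, ∀ w, g t ≠ c.pt w) (hfin : ∀ y, (tms g a b y).Finite) :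
    ∃ s : Step H, IsLW [s] u v ∧ Good c g a b [s] := by
  classical
  obtain ⟨e, lam, he, hc, h0, hI, hend, hl⟩ := exists_level c hg hab hu hv hno
  have haI : a ∈ Icc a b := ⟨le_refl _, hab.le⟩
  have hbI : b ∈ Icc a b := ⟨hab.le, le_refl _⟩
  -- times at a vertex
  have hpts : ∀ w, (tms g a b (c.pt w)).ncard = if e.fst = w then 1 else 0 := by
    intro w
    split_ifs with h
    · have : tms g a b (c.pt w) = {a} := by
        ext t
        simp only [tms, mem_ofPred_eq, mem_singleton_iff]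
        constructor
        · rintro ⟨ht, h1⟩
          rcases ht.1.eq_or_lt with h2 | h2
          · exact h2.symm
          · exact absurd h1 (hno t ⟨h2, ht.2⟩ w)
        · rintro rfl
          exact ⟨⟨le_refl _, hab⟩, by rw [hu, ← he, h]⟩
      rw [this, Set.ncard_singleton]
    · have : tms g a b (c.pt w) = ∅ := by
        ext t
        simp only [tms, mem_ofPred_eq, mem_empty_iff_false, iff_false, not_and]
        intro ht h1
        rcases ht.1.eq_or_lt with h2 | h2
        · rw [← h2, hu] at h1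
          apply h
          rw [he]
          exact c.pt_inj h1
        · exact hno t ⟨h2, ht.2⟩ w h1
      rw [this, Set.ncard_empty]
  -- times in the interior of `e`
  have hin : ∀ y ∈ Ioo (0 : ℝ) 1, tms g a b (c.seg e.fst e.snd y) =
      {t | t ∈ Ioo a b ∧ lam t = y} := by
    intro y hy
    ext t
    simp only [tms, mem_ofPred_eq]
    constructor
    · rintro ⟨ht, h1⟩
      have h2 : a < t := by
        rcases ht.1.eq_or_lt with h2 | h2
        · exfalso
          rw [← h2, hu] at h1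
          exact c.seg_ne _ _ e.adj y hy u h1.symm
        · exact h2
      refine ⟨⟨h2, ht.2⟩, ?_⟩
      rw [hl t ⟨ht.1, ht.2.le⟩] at h1
      have h3 := hI t ⟨h2, ht.2⟩
      exact c.seg_injOn e.adj ⟨h3.1.le, h3.2.le⟩ ⟨hy.1.le, hy.2.le⟩ h1
    · rintro ⟨ht, h1⟩
      exact ⟨⟨ht.1.le, ht.2⟩, by rw [hl t ⟨ht.1.le, ht.2.le⟩, h1]⟩
  have hsym : ∀ y, c.seg e.symm.fst e.symm.snd y = c.seg e.fst e.snd (1 - y) := by
    intro y
    change c.seg e.snd e.fst y = _
    exact c.seg_rev _ _ e.adj y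
  have hother : ∀ e' : H.Dart, e' ≠ e → e' ≠ e.symm → ∀ y ∈ Ioo (0 : ℝ) 1,
      tms g a b (c.seg e'.fst e'.snd y) = ∅ := by
    intro e' h1 h2 y hy
    ext t
    simp only [tms, mem_ofPred_eq, mem_empty_iff_false, iff_false, not_and]
    intro ht h3
    rcases ht.1.eq_or_lt with h4 | h4
    · rw [← h4, hu] at h3
      exact c.seg_ne _ _ e'.adj y hy u h3.symm
    · rw [hl t ⟨ht.1, ht.2.le⟩] at h3
      exact Set.disjoint_left.mp (oseg_disjoint c h1 h2) ⟨_, hI t ⟨h4, ht.2⟩, h3⟩ ⟨y, hy, rfl⟩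
  have hfin' : ∀ y ∈ Ioo (0 : ℝ) 1, {t | t ∈ Ioo a b ∧ lam t = y}.Finite := by
    intro y hy
    rw [← hin y hy]; exact hfin _
  -- parity of the level crossings
  have hpar : ∀ y ∈ Ioo (0 : ℝ) 1, y ∉ extVals lam →
      ({t | t ∈ Ioo a b ∧ lam t = y}.ncard % 2 = 1 ↔ lam b = 1) := by
    intro y hy hyC
    have hb : lam b = 0 ∨ lam b = 1 := by
      rcases hend with ⟨h, -⟩ | ⟨h, -⟩
      · right; exact h
      · left; exact h
    have h1 := odd_crossings _ hab hc (y := y) (by rw [h0]; exact hy.1.ne)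
      (by rcases hb with h | h <;> rw [h]; exacts [hy.1.ne, hy.2.ne']) (hfin' y hy)
      (by
        intro t _ hty
        constructor
        · intro hm; exact hyC ⟨t, Or.inl hm, hty⟩
        · intro hm; exact hyC ⟨t, Or.inr hm, hty⟩) rfl
    rw [h1, h0]
    rcases hb with h | h
    · rw [h]
      constructor
      · intro h2; nlinarith [hy.1]
      · intro h2; norm_num at h2
    · rw [h]
      constructor
      · intro; rfl
      · intro _; nlinarith [hy.1, hy.2]
  -- a level is attained between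
  rcases hend with ⟨h1, hsnd⟩ | ⟨h1, hfst⟩
  · -- traverse
    set s : Step H := ⟨e, e.symm, Or.inr rfl, 0, 0⟩ with hs
    have hne : e ≠ e.symm := (SimpleGraph.Dart.symm_ne e).symm
    have hlevel : ∀ y ∈ Ioo (0 : ℝ) 1, 1 ≤ {t | t ∈ Ioo a b ∧ lam t = y}.ncard := by
      intro y hy
      have : y ∈ Icc (lam a) (lam b) := by rw [h0, h1]; exact ⟨hy.1.le, hy.2.le⟩
      obtain ⟨t, ht, hty⟩ := intermediate_value_Icc hab.le hc this
      rw [Nat.one_le_iff_ne_zero, Ne, Set.ncard_eq_zero (hfin' y hy)]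
      intro hemp
      have hta : t ≠ a := by rintro rfl; rw [h0] at hty; exact hy.1.ne hty
      have htb : t ≠ b := by rintro rfl; rw [h1] at hty; exact hy.2.ne' hty
      have : t ∈ {t | t ∈ Ioo a b ∧ lam t = y} :=
        ⟨⟨lt_of_le_of_ne ht.1 hta.symm, lt_of_le_of_ne ht.2 htb⟩, hty⟩
      rw [hemp] at this
      exact this
    refine ⟨s, ⟨he, hsnd⟩, ?_, ?_, ?_, ?_⟩
    · intro w
      rw [hpts, dep_cons]
      simp [dep, hs]
    · intro e'
      refine ⟨1, one_pos, fun y hy => ?_⟩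
      have hnum : num e' [s] = (if e = e' then 1 else 0) + (if e.symm = e' then 1 else 0) := by
        rw [num_cons]; simp [num, hs]
      rw [hnum]
      by_cases h2 : e = e'
      · subst h2
        rw [if_pos rfl, if_neg hne.symm, hin y hy]
        exact hlevel y hy
      · by_cases h3 : e.symm = e'
        · subst h3
          rw [if_neg h2, if_pos rfl, hsym]
          have hy' : 1 - y ∈ Ioo (0 : ℝ) 1 := ⟨by linarith [hy.2], by linarith [hy.1]⟩
          rw [hin (1 - y) hy']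
          exact hlevel _ hy'
        · rw [if_neg h2, if_neg h3]
          exact Nat.zero_le _
    · intro e'
      refine ⟨extVals lam ∪ (fun y => 1 - y) '' extVals lam,
        (extVals_countable _).union ((extVals_countable _).image _), fun y hy hyC => ?_⟩
      rw [mem_union, not_or] at hyC
      have htr : ∀ e' : H.Dart, trav e' [s] = (if e = e' then 1 else 0) := by
        intro e'
        rw [trav_cons]
        have : (s.out = e' ∧ s.arr = e'.symm) ↔ e = e' := by
          constructor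
          · exact fun h => h.1
          · rintro rfl; exact ⟨rfl, rfl⟩
        simp only [this]
        simp [trav]
      rw [htr, htr]
      by_cases h2 : e = e'
      · subst h2
        rw [if_pos rfl, if_neg hne, hin y hy, (hpar y hy hyC.1).mpr h1]
      · by_cases h3 : e = e'.symm
        · rw [if_neg h2, if_pos h3]
          have h4 : e' = e.symm := by rw [h3]; simp
          subst h4
          rw [hsym]
          have hy' : 1 - y ∈ Ioo (0 : ℝ) 1 := ⟨by linarith [hy.2], by linarith [hy.1]⟩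
          rw [hin (1 - y) hy', (hpar (1 - y) hy' (fun h => hyC.2 ⟨1 - y, h, by ring⟩)).mpr h1]
        · rw [if_neg h2, if_neg h3, hother e' (Ne.symm h2) _ y hy, Set.ncard_empty]
          rintro rfl
          exact h3 (by simp)
    · intro e' he'
      refine ⟨1, one_pos, fun y hy => ?_⟩
      have hnum : num e' [s] = (if e = e' then 1 else 0) + (if e.symm = e' then 1 else 0) := by
        rw [num_cons]; simp [num, hs]
      rw [hnum] at he'
      refine hother e' ?_ ?_ y hy
      · rintro rfl; simp at he'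
      · rintro rfl; simp at he'
  · -- excursion
    set s : Step H := ⟨e, e, Or.inl rfl, 0, 0⟩ with hs
    have hne : e ≠ e.symm := (SimpleGraph.Dart.symm_ne e).symm
    have hmid : (a + b) / 2 ∈ Ioo a b := ⟨by linarith, by linarith⟩
    have hnum : ∀ e', num e' [s] = 2 * (if e = e' then 1 else 0) := by
      intro e'
      rw [num_cons]; simp only [num, hs, List.map_nil, List.sum_nil]; split_ifs <;> rfl
    have hlevel : ∀ y ∈ Ioo (0 : ℝ) (lam ((a + b) / 2)),
        2 ≤ {t | t ∈ Ioo a b ∧ lam t = y}.ncard := by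
      intro y hy
      have hmI := hI _ hmid
      have hy1 : y ∈ Ioo (0 : ℝ) 1 := ⟨hy.1, hy.2.trans hmI.2⟩
      have hy2 : y ∈ Icc (lam a) (lam ((a + b) / 2)) := by rw [h0]; exact ⟨hy.1.le, hy.2.le⟩
      obtain ⟨t₁, ht₁, hty₁⟩ := intermediate_value_Icc hmid.1.le
        (hc.mono (Icc_subset_Icc (le_refl _) hmid.2.le)) hy2
      have hy3 : y ∈ Icc (lam b) (lam ((a + b) / 2)) := by rw [h1]; exact ⟨hy.1.le, hy.2.le⟩
      obtain ⟨t₂, ht₂, hty₂⟩ := intermediate_value_Icc' hmid.2.le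
        (hc.mono (Icc_subset_Icc hmid.1.le (le_refl _))) hy3
      have hta : t₁ ≠ a := by rintro rfl; rw [h0] at hty₁; exact hy.1.ne hty₁
      have htb : t₂ ≠ b := by rintro rfl; rw [h1] at hty₂; exact hy.1.ne hty₂
      have htm : t₁ ≠ (a + b) / 2 := by rintro h; rw [h] at hty₁; exact hy.2.ne hty₁.symm
      have htm2 : t₂ ≠ (a + b) / 2 := by rintro h; rw [h] at hty₂; exact hy.2.ne hty₂.symm
      have h5 : t₁ < (a + b) / 2 := lt_of_le_of_ne ht₁.2 htm
      have h6 : (a + b) / 2 < t₂ := lt_of_le_of_ne ht₂.1 htm2.symm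
      have hsub : ({t₁, t₂} : Set ℝ) ⊆ {t | t ∈ Ioo a b ∧ lam t = y} := by
        rintro t (rfl | rfl)
        · exact ⟨⟨lt_of_le_of_ne ht₁.1 hta.symm, by linarith [hmid.2]⟩, hty₁⟩
        · exact ⟨⟨by linarith [hmid.1], lt_of_le_of_ne ht₂.2 htb⟩, hty₂⟩
      have h7 := Set.ncard_le_ncard hsub (hfin' y hy1)
      rwa [Set.ncard_pair (by linarith : t₁ < t₂).ne] at h7
    refine ⟨s, ⟨he, hfst⟩, ?_, ?_, ?_, ?_⟩
    · intro w
      rw [hpts, dep_cons]
      simp [dep, hs]
    · intro e'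
      by_cases h2 : e = e'
      · subst h2
        refine ⟨lam ((a + b) / 2), (hI _ hmid).1, fun y hy => ?_⟩
        have hy1 : y ∈ Ioo (0 : ℝ) 1 := ⟨hy.1, hy.2.trans (hI _ hmid).2⟩
        rw [hnum, if_pos rfl, hin y hy1]
        exact hlevel y hy
      · refine ⟨1, one_pos, fun y hy => ?_⟩
        rw [hnum, if_neg h2]
        exact Nat.zero_le _
    · intro e'
      refine ⟨extVals lam ∪ (fun y => 1 - y) '' extVals lam,
        (extVals_countable _).union ((extVals_countable _).image _), fun y hy hyC => ?_⟩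
      rw [mem_union, not_or] at hyC
      have htr : ∀ e' : H.Dart, trav e' [s] = 0 := by
        intro e'
        rw [trav_cons, if_neg]
        · simp [trav]
        · rintro ⟨h2, h3⟩
          have h4 : s.out = s.arr := rfl
          rw [h2, h3] at h4
          exact (SimpleGraph.Dart.symm_ne e').symm h4
      have hbne : ¬ lam b = 1 := by rw [h1]; norm_num
      rw [htr, htr]
      by_cases h2 : e = e'
      · subst h2
        rw [hin y hy]
        have := hpar y hy hyC.1
        have h3 : ¬ ({t | t ∈ Ioo a b ∧ lam t = y}.ncard % 2 = 1) := fun h => hbne (this.mp h)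
        omega
      · by_cases h3 : e = e'.symm
        · have h4 : e' = e.symm := by rw [h3]; simp
          subst h4
          rw [hsym]
          have hy' : 1 - y ∈ Ioo (0 : ℝ) 1 := ⟨by linarith [hy.2], by linarith [hy.1]⟩
          rw [hin (1 - y) hy']
          have := hpar (1 - y) hy' (fun h => hyC.2 ⟨1 - y, h, by ring⟩)
          have h3 : ¬ ({t | t ∈ Ioo a b ∧ lam t = 1 - y}.ncard % 2 = 1) := fun h => hbne (this.mp h)
          omega
        · rw [hother e' (Ne.symm h2) _ y hy, Set.ncard_empty]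
          rintro rfl
          exact h3 (by simp)
    · intro e' he'
      rw [hnum] at he'
      have h2 : e ≠ e' := by rintro rfl; simp at he'
      by_cases h3 : e.symm = e'
      · subst h3
        -- the level stays away from one
        obtain ⟨m, hm, hmax⟩ := (isCompact_Icc).exists_isMaxOn ⟨a, haI⟩ hc
        have hm1 : lam m < 1 := by
          rcases hm.1.eq_or_lt with h4 | h4
          · rw [← h4, h0]; norm_num
          · rcases hm.2.eq_or_lt with h5 | h5
            · rw [h5, h1]; norm_num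
            · exact (hI m ⟨h4, h5⟩).2
        have hm0 : 0 ≤ lam m := by
          have : lam a ≤ lam m := hmax haI
          rwa [h0] at this
        refine ⟨1 - lam m, by linarith, fun y hy => ?_⟩
        have hy' : 1 - y ∈ Ioo (0 : ℝ) 1 := ⟨by linarith [hy.2], by linarith [hy.1]⟩
        rw [hsym, hin (1 - y) hy']
        ext t
        simp only [mem_ofPred_eq, mem_empty_iff_false, iff_false, not_and]
        intro ht h4
        have : lam t ≤ lam m := hmax ⟨ht.1.le, ht.2.le⟩
        linarith [hy.2]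
      · exact ⟨1, one_pos, fun y hy => hother e' h2.symm (Ne.symm h3) y hy⟩

/-- Extraction of a lazy walk from a path. -/
theorem good_path [Finite W] [T2Space Y] (c : Chart Y H) {g : ℝ → Y} (hg : Continuous g) :
    ∀ (n : ℕ) {a b : ℝ}, a < b → ∀ {u v : W}, g a = c.pt u → g b = c.pt v →
    (∀ y, (tms g a b y).Finite) → {t | t ∈ Ioo a b ∧ ∃ w, g t = c.pt w}.ncard = n →
    ∃ ℓ : List (Step H), ℓ ≠ [] ∧ IsLW ℓ u v ∧ Good c g a b ℓ := by
  intro n
  induction n using Nat.strong_induction_on with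
  | _ n ih =>
  intro a b hab u v hu hv hfin hn
  have hfinV : {t | t ∈ Ioo a b ∧ ∃ w, g t = c.pt w}.Finite := by
    have h1 : {t | t ∈ Ioo a b ∧ ∃ w, g t = c.pt w} ⊆ ⋃ w, tms g a b (c.pt w) := by
      rintro t ⟨ht, w, hw⟩
      rw [mem_iUnion]
      exact ⟨w, ⟨ht.1.le, ht.2⟩, hw⟩
    exact (finite_iUnion fun w => hfin _).subset h1
  rcases Nat.eq_zero_or_pos n with h0 | hpos
  · subst h0
    rw [Set.ncard_eq_zero hfinV] at hn
    obtain ⟨s, h1, h2⟩ := good_single c hg hab hu hv (by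
      intro t ht w hw
      have : t ∈ {t | t ∈ Ioo a b ∧ ∃ w, g t = c.pt w} := ⟨ht, w, hw⟩
      rw [hn] at this
      exact this) hfin
    exact ⟨[s], by simp, h1, h2⟩
  · have hne : {t | t ∈ Ioo a b ∧ ∃ w, g t = c.pt w}.Nonempty := by
      rw [Set.nonempty_iff_ne_empty]
      intro h
      rw [h, Set.ncard_empty] at hn
      omega
    obtain ⟨t₀, ht₀, w₀, hw₀⟩ := hne
    have hlt1 : {t | t ∈ Ioo a t₀ ∧ ∃ w, g t = c.pt w}.ncard < n := by
      rw [← hn]
      refine Set.ncard_lt_ncard ?_ hfinV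
      constructor
      · rintro t ⟨ht, hw⟩
        exact ⟨⟨ht.1, ht.2.trans ht₀.2⟩, hw⟩
      · intro hcon
        have := hcon ⟨ht₀, w₀, hw₀⟩
        exact absurd this.1.2 (lt_irrefl _)
    have hlt2 : {t | t ∈ Ioo t₀ b ∧ ∃ w, g t = c.pt w}.ncard < n := by
      rw [← hn]
      refine Set.ncard_lt_ncard ?_ hfinV
      constructor
      · rintro t ⟨ht, hw⟩
        exact ⟨⟨ht₀.1.trans ht.1, ht.2⟩, hw⟩
      · intro hcon
        have := hcon ⟨ht₀, w₀, hw₀⟩
        exact absurd this.1.1 (lt_irrefl _)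
    have hf1 : ∀ y, (tms g a t₀ y).Finite := fun y => (hfin y).subset (by
      rw [tms_split g ht₀.1.le ht₀.2.le]; exact subset_union_left)
    have hf2 : ∀ y, (tms g t₀ b y).Finite := fun y => (hfin y).subset (by
      rw [tms_split g ht₀.1.le ht₀.2.le]; exact subset_union_right)
    obtain ⟨ℓ₁, h1, h2, h3⟩ := ih _ hlt1 ht₀.1 hu hw₀ hf1 rfl
    obtain ⟨ℓ₂, h1', h2', h3'⟩ := ih _ hlt2 ht₀.2 hw₀ hv hf2 rfl
    exact ⟨ℓ₁ ++ ℓ₂, by simp [h1], h2.append h2', h3.append ht₀.1.le ht₀.2.le hfin h3'⟩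

end

end Pool.Agent.Helper26.KToOne
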