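import Pool.Agent.Helper26.KToOne.Chart

/-!
# Lazy walks: lists of steps, each step being a traverse of an edge or a half-way excursion into it
-/

namespace Pool.Agent.Helper26.KToOne

open Set

/-- A step of a lazy walk: it leaves along the half-edge `out` and arrives along the half-edge
`arr`, both being half-edges of the same edge.  The labels `i`, `j` are the numbers of additional
folds put on the two halves. -/
structure Step {W : Type} (H : SimpleGraph W) where
  out : H.Dart
  arr : H.Dart
  ok : arr = out ∨ arr = out.symm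
  i : ℕ
  j : ℕ

/-- `IsLW ℓ a b`: the list of steps `ℓ` is a lazy walk from `a` to `b`. -/
def IsLW {W : Type} {H : SimpleGraph W} : List (Step H) → W → W → Prop
  | [], a, b => a = b
  | s :: ℓ, a, b => s.out.fst = a ∧ IsLW ℓ s.arr.fst b

section

variable {Y : Type} [TopologicalSpace Y] {W : Type} {H : SimpleGraph W}

/-- the half path -/
noncomputable def half (c : Chart Y H) (e : H.Dart) (j : ℕ) : ℝ → Y :=
  fun t => c.seg e.fst e.snd (lev j t / 2)

theorem half_continuous (c : Chart Y H) (e : H.Dart) (j : ℕ) : Continuous (half c e j) :=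
  (c.cont _ _ e.adj).comp ((lev_continuous j).div_const 2)

theorem half_zero (c : Chart Y H) (e : H.Dart) (j : ℕ) : half c e j 0 = c.pt e.fst := by
  rw [half, lev_zero, zero_div, c.seg_zero _ _ e.adj]

theorem half_one (c : Chart Y H) (e : H.Dart) (j : ℕ) :
    half c e j 1 = c.seg e.fst e.snd (1 / 2) := by
  rw [half, lev_one]

theorem mid_symm (c : Chart Y H) (e : H.Dart) :
    c.seg e.symm.fst e.symm.snd (1 / 2) = c.seg e.fst e.snd (1 / 2) := by
  change c.seg e.snd e.fst (1 / 2) = _
  rw [c.seg_rev _ _ e.adj]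
  norm_num

theorem lev_half_mem (j : ℕ) {t : ℝ} (ht : t ∈ Ioo (0 : ℝ) 1) : lev j t / 2 ∈ Ioo (0 : ℝ) 1 := by
  have h1 := lev_pos j ht.1
  have h2 := lev_le_one j ht.2.le
  exact ⟨by linarith, by linarith⟩

theorem cntO_half_pt (c : Chart Y H) (e : H.Dart) (j : ℕ) (w : W) :
    cntO (half c e j) (c.pt w) = 0 := by
  unfold cntO
  rw [encard_eq_zero]
  ext t
  simp only [mem_ofPred_eq, mem_empty_iff_false, iff_false, not_and]
  intro ht
  exact c.seg_ne _ _ e.adj _ (lev_half_mem j ht) w

open Classical in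
/-- Count of a half path at a point of an open half edge. -/
theorem cntO_half_lt (c : Chart Y H) (e : H.Dart) (j : ℕ) (e' : H.Dart) {t : ℝ}
    (ht : t ∈ Ioo (0 : ℝ) (1 / 2)) :
    cntO (half c e j) (c.seg e'.fst e'.snd t) = if e = e' then (2 * j + 1 : ℕ) else 0 := by
  have ht1 : t ∈ Ioo (0 : ℝ) 1 := ⟨ht.1, by linarith [ht.2]⟩
  split_ifs with h
  · subst h
    rw [← cntO_lev_mid j (y := 2 * t) (by linarith [ht.1]) (by linarith [ht.2])]
    unfold cntO
    congr 1
    ext s
    simp only [mem_ofPred_eq]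
    refine and_congr_right fun hs => ?_
    constructor
    · intro h
      rcases c.seg_inj _ _ _ _ e.adj e.adj _ (lev_half_mem j hs) t ht1 h with
        ⟨-, -, h3⟩ | ⟨h1, -, -⟩
      · linarith
      · exact absurd h1 e.fst_ne_snd
    · intro h
      unfold half
      rw [h]; congr 1; ring
  · unfold cntO
    rw [Nat.cast_zero, encard_eq_zero]
    ext s
    simp only [mem_ofPred_eq, mem_empty_iff_false, iff_false, not_and]
    intro hs h'
    rcases c.seg_inj _ _ _ _ e.adj e'.adj _ (lev_half_mem j hs) t ht1 h' with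
        ⟨h1, h2, h3⟩ | ⟨h1, h2, h3⟩
    · apply h
      ext
      · exact h1.symm
      · exact h2.symm
    · have := lev_le_one j hs.2.le
      linarith [ht.2]

open Classical in
/-- Count of a half path at a midpoint. -/
theorem cntO_half_mid (c : Chart Y H) (e : H.Dart) (j : ℕ) (e' : H.Dart) :
    cntO (half c e j) (c.seg e'.fst e'.snd (1 / 2)) =
      if e = e' ∨ e = e'.symm then (j : ℕ) else 0 := by
  have ht1 : (1 / 2 : ℝ) ∈ Ioo (0 : ℝ) 1 := ⟨by norm_num, by norm_num⟩
  have key : ∀ e : H.Dart, cntO (half c e j) (c.seg e.fst e.snd (1 / 2)) = (j : ℕ) := by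
    intro e
    rw [← cntO_lev_one j]
    unfold cntO
    congr 1
    ext s
    simp only [mem_ofPred_eq]
    refine and_congr_right fun hs => ?_
    constructor
    · intro h
      rcases c.seg_inj _ _ _ _ e.adj e.adj _ (lev_half_mem j hs) _ ht1 h with
        ⟨-, -, h3⟩ | ⟨h1, -, -⟩
      · linarith
      · exact absurd h1 e.fst_ne_snd
    · intro h
      unfold half
      rw [h]
  split_ifs with h
  · rcases h with rfl | rfl
    · exact key e
    · rw [← mid_symm c e']
      exact key _
  · unfold cntO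
    rw [Nat.cast_zero, encard_eq_zero]
    ext s
    simp only [mem_ofPred_eq, mem_empty_iff_false, iff_false, not_and]
    intro hs h'
    rcases c.seg_inj _ _ _ _ e.adj e'.adj _ (lev_half_mem j hs) _ ht1 h' with
        ⟨h1, h2, h3⟩ | ⟨h1, h2, h3⟩
    · apply h
      left
      ext
      · exact h1.symm
      · exact h2.symm
    · apply h
      right
      ext
      · exact h2.symm
      · exact h1.symm

/-- the path of a step -/
noncomputable def stepPath (c : Chart Y H) (s : Step H) : ℝ → Y :=
  cat (half c s.out s.i) (fun t => half c s.arr s.j (1 - t))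

theorem stepPath_glue (c : Chart Y H) (s : Step H) :
    half c s.out s.i 1 = (fun t => half c s.arr s.j (1 - t)) 0 := by
  simp only [sub_zero]
  rw [half_one, half_one]
  rcases s.ok with h | h
  · rw [h]
  · rw [h, mid_symm]

theorem stepPath_continuous (c : Chart Y H) (s : Step H) : Continuous (stepPath c s) := by
  refine cat_continuous (half_continuous _ _ _) ?_ (stepPath_glue c s)
  exact (half_continuous _ _ _).comp (by fun_prop)

theorem stepPath_zero (c : Chart Y H) (s : Step H) : stepPath c s 0 = c.pt s.out.fst := by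
  rw [stepPath, cat_zero, half_zero]

theorem stepPath_one (c : Chart Y H) (s : Step H) : stepPath c s 1 = c.pt s.arr.fst := by
  rw [stepPath, cat_one]
  simp only [sub_self]
  rw [half_zero]

theorem cnt_stepPath (c : Chart Y H) (s : Step H) (y : Y) :
    cnt (stepPath c s) y = cnt (half c s.out s.i) y + cnt (fun t => half c s.arr s.j (1 - t)) y :=
  cnt_cat (stepPath_glue c s) y

open Classical in
theorem cnt_stepPath_pt (c : Chart Y H) (s : Step H) (w : W) :
    cnt (stepPath c s) (c.pt w) = if s.out.fst = w then 1 else 0 := by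
  rw [cnt_stepPath, cnt_eq_cntO_add, cnt_eq_cntO_add, cntO_rev, cntO_half_pt, cntO_half_pt,
    half_zero]
  simp only [sub_zero, zero_add]
  rw [half_one, if_neg (c.seg_ne _ _ s.arr.adj _ ⟨by norm_num, by norm_num⟩ _), add_zero]
  simp only [c.pt_inj.eq_iff]

open Classical in
theorem cnt_stepPath_lt (c : Chart Y H) (s : Step H) (e : H.Dart) {t : ℝ}
    (ht : t ∈ Ioo (0 : ℝ) (1 / 2)) :
    cnt (stepPath c s) (c.seg e.fst e.snd t) =
      (((if s.out = e then 2 * s.i + 1 else 0) + (if s.arr = e then 2 * s.j + 1 else 0) : ℕ) : ℕ∞) := by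
  have ht1 : t ∈ Ioo (0 : ℝ) 1 := ⟨ht.1, by linarith [ht.2]⟩
  have hne1 : ¬ (c.pt s.out.fst = c.seg e.fst e.snd t) :=
    fun h => c.seg_ne _ _ e.adj _ ht1 _ h.symm
  have hne2 : ¬ (c.seg s.arr.fst s.arr.snd (1 / 2) = c.seg e.fst e.snd t) := by
    intro h
    rcases c.seg_inj _ _ _ _ s.arr.adj e.adj _ ⟨by norm_num, by norm_num⟩ t ht1 h with
        ⟨h1, h2, h3⟩ | ⟨h1, h2, h3⟩
    · linarith [ht.2]
    · linarith [ht.2]
  rw [cnt_stepPath, cnt_eq_cntO_add, cnt_eq_cntO_add, cntO_rev, cntO_half_lt _ _ _ _ ht,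
    cntO_half_lt _ _ _ _ ht, half_zero]
  simp only [sub_zero]
  rw [half_one, if_neg hne1, if_neg hne2, add_zero, add_zero]
  push_cast
  rfl

open Classical in
theorem cnt_stepPath_mid (c : Chart Y H) (s : Step H) (e : H.Dart) :
    cnt (stepPath c s) (c.seg e.fst e.snd (1 / 2)) =
      ((if s.out = e ∨ s.out = e.symm then s.i + s.j + 1 else 0 : ℕ) : ℕ∞) := by
  have hm : (1 / 2 : ℝ) ∈ Ioo (0 : ℝ) 1 := ⟨by norm_num, by norm_num⟩
  have hiff : (s.arr = e ∨ s.arr = e.symm) ↔ (s.out = e ∨ s.out = e.symm) := by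
    rcases s.ok with h | h
    · rw [h]
    · rw [h]
      constructor
      · rintro (h1 | h1)
        · right; rw [← h1]; simp
        · left; rw [← SimpleGraph.Dart.symm_symm s.out, h1]; simp
      · rintro (h1 | h1)
        · right; rw [h1]
        · left; rw [h1]; simp
  have hiff2 : (c.seg s.arr.fst s.arr.snd (1 / 2) = c.seg e.fst e.snd (1 / 2)) ↔
      (s.arr = e ∨ s.arr = e.symm) := by
    constructor
    · intro h
      rcases c.seg_inj _ _ _ _ s.arr.adj e.adj _ hm _ hm h with ⟨h1, h2, -⟩ | ⟨h1, h2, -⟩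
      · left
        ext
        · exact h1.symm
        · exact h2.symm
      · right
        ext
        · exact h2.symm
        · exact h1.symm
    · rintro (h | h)
      · rw [h]
      · rw [h, mid_symm]
  have hne1 : ¬ (c.pt s.out.fst = c.seg e.fst e.snd (1 / 2)) :=
    fun h => c.seg_ne _ _ e.adj _ hm _ h.symm
  rw [cnt_stepPath, cnt_eq_cntO_add, cnt_eq_cntO_add, cntO_rev, cntO_half_mid, cntO_half_mid,
    half_zero]
  simp only [sub_zero]
  rw [half_one, if_neg hne1, add_zero]
  simp only [hiff2, hiff]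
  split_ifs
  · push_cast; ring
  · simp

/-- The path of a nonempty list of steps. -/
noncomputable def listPath (c : Chart Y H) : Step H → List (Step H) → ℝ → Y
  | s, [] => stepPath c s
  | s, s' :: ℓ => cat (stepPath c s) (listPath c s' ℓ)

theorem listPath_zero (c : Chart Y H) (s : Step H) (ℓ : List (Step H)) :
    listPath c s ℓ 0 = c.pt s.out.fst := by
  cases ℓ with
  | nil => exact stepPath_zero c s
  | cons s' ℓ => rw [listPath, cat_zero, stepPath_zero]

theorem listPath_one (c : Chart Y H) (s : Step H) (ℓ : List (Step H)) {a b : W}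
    (h : IsLW (s :: ℓ) a b) : listPath c s ℓ 1 = c.pt b := by
  induction ℓ generalizing s a with
  | nil =>
    rw [listPath, stepPath_one]
    rw [IsLW, IsLW] at h
    rw [h.2]
  | cons s' ℓ ih =>
    rw [listPath, cat_one]
    exact ih s' h.2

theorem listPath_glue (c : Chart Y H) (s s' : Step H) (ℓ : List (Step H)) {a b : W}
    (h : IsLW (s :: s' :: ℓ) a b) : stepPath c s 1 = listPath c s' ℓ 0 := by
  rw [stepPath_one, listPath_zero]
  rw [IsLW, IsLW] at h
  rw [h.2.1]

theorem listPath_continuous (c : Chart Y H) (s : Step H) (ℓ : List (Step H)) {a b : W}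
    (h : IsLW (s :: ℓ) a b) : Continuous (listPath c s ℓ) := by
  induction ℓ generalizing s a with
  | nil => exact stepPath_continuous c s
  | cons s' ℓ ih =>
    exact cat_continuous (stepPath_continuous c s) (ih s' h.2) (listPath_glue c s s' ℓ h)

theorem cnt_listPath (c : Chart Y H) (s : Step H) (ℓ : List (Step H)) {a b : W}
    (h : IsLW (s :: ℓ) a b) (y : Y) :
    cnt (listPath c s ℓ) y = ((s :: ℓ).map (fun s => cnt (stepPath c s) y)).sum := by
  induction ℓ generalizing s a with
  | nil => simp [listPath]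
  | cons s' ℓ ih =>
    rw [listPath, cnt_cat (listPath_glue c s s' ℓ h), ih s' h.2]
    simp

end

end Pool.Agent.Helper26.KToOne
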