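import Pool.Agent.Helper26.KToOne.Steps

/-!
# From labelled lazy walks to a `k`-to-1 map
-/

namespace Pool.Agent.Helper26.KToOne

open Set

section

variable {W : Type} {H : SimpleGraph W}

open Classical in
/-- number of departures from `w` -/
noncomputable def dep (w : W) (ℓ : List (Step H)) : ℕ :=
  (ℓ.map fun s => if s.out.fst = w then 1 else 0).sum

open Classical in
/-- number of half steps along `e` -/
noncomputable def num (e : H.Dart) (ℓ : List (Step H)) : ℕ :=
  (ℓ.map fun s => (if s.out = e then 1 else 0) + (if s.arr = e then 1 else 0)).sum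

open Classical in
/-- number of strands along `e`, counting additional folds -/
noncomputable def mul (e : H.Dart) (ℓ : List (Step H)) : ℕ :=
  (ℓ.map fun s => (if s.out = e then 2 * s.i + 1 else 0) +
    (if s.arr = e then 2 * s.j + 1 else 0)).sum

open Classical in
/-- number of preimages of the midpoint -/
noncomputable def midc (e : H.Dart) (ℓ : List (Step H)) : ℕ :=
  (ℓ.map fun s => if s.out = e ∨ s.out = e.symm then s.i + s.j + 1 else 0).sum

theorem two_mul_midc (e : H.Dart) (ℓ : List (Step H)) :
    2 * midc e ℓ = mul e ℓ + mul e.symm ℓ := by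
  classical
  induction ℓ with
  | nil => simp [midc, mul]
  | cons s ℓ ih =>
    have h1 : midc e (s :: ℓ) = (if s.out = e ∨ s.out = e.symm then s.i + s.j + 1 else 0) +
        midc e ℓ := by simp [midc]
    have h2 : ∀ e : H.Dart, mul e (s :: ℓ) = (if s.out = e then 2 * s.i + 1 else 0) +
        (if s.arr = e then 2 * s.j + 1 else 0) + mul e ℓ := by
      intro e; simp [mul]
    rw [h1, h2, h2]
    have hne : e ≠ e.symm := (SimpleGraph.Dart.symm_ne e).symm
    have key : 2 * (if s.out = e ∨ s.out = e.symm then s.i + s.j + 1 else 0) =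
        (if s.out = e then 2 * s.i + 1 else 0) + (if s.arr = e then 2 * s.j + 1 else 0) +
        ((if s.out = e.symm then 2 * s.i + 1 else 0) +
          (if s.arr = e.symm then 2 * s.j + 1 else 0)) := by
      rcases s.ok with h | h
      · rw [h]
        by_cases h3 : s.out = e
        · rw [if_pos (Or.inl h3), if_pos h3, if_pos h3, if_neg (by rw [h3]; exact hne),
            if_neg (by rw [h3]; exact hne)]
          ring
        · by_cases h4 : s.out = e.symm
          · rw [if_pos (Or.inr h4), if_neg h3, if_neg h3, if_pos h4, if_pos h4]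
            ring
          · rw [if_neg (by tauto), if_neg h3, if_neg h3, if_neg h4, if_neg h4]
      · by_cases h3 : s.out = e
        · have h5 : s.arr = e.symm := by rw [h, h3]
          have h6 : s.arr ≠ e := by rw [h5]; exact hne.symm
          have h7 : s.out ≠ e.symm := by rw [h3]; exact hne
          rw [if_pos (Or.inl h3), if_pos h3, if_neg h6, if_neg h7, if_pos h5]
          ring
        · by_cases h4 : s.out = e.symm
          · have h5 : s.arr = e := by rw [h, h4]; simp
            have h6 : s.arr ≠ e.symm := by rw [h5]; exact hne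
            rw [if_pos (Or.inr h4), if_neg h3, if_pos h5, if_pos h4, if_neg h6]
            ring
          · have h5 : s.arr ≠ e := by
              rintro h8
              apply h4
              rw [← h8, h]; simp
            have h6 : s.arr ≠ e.symm := by
              rintro h8
              apply h3
              have : s.arr.symm = s.out := by rw [h]; simp
              rw [← this, h8]; simp
            rw [if_neg (by tauto), if_neg h3, if_neg h5, if_neg h4, if_neg h6]
    rw [mul_add, ih, key]
    ring

end

section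

variable {X : Type} [TopologicalSpace X] {V : Type} {G : SimpleGraph V}
variable {Y : Type} [TopologicalSpace Y] {W : Type} {H : SimpleGraph W}

theorem cast_list_sum {α : Type*} (ℓ : List α) (f : α → ℕ) :
    (((ℓ.map f).sum : ℕ) : ℕ∞) = (ℓ.map fun s => (f s : ℕ∞)).sum := by
  induction ℓ with
  | nil => simp
  | cons s ℓ ih => simp [ih]

open Classical in
theorem exists_map_of_lazy [Fintype V] [T2Space X] (cX : Chart X G) (cY : Chart Y H)
    (pos : G.Dart → Prop) (hpos : ∀ d, pos d.symm ↔ ¬ pos d) (q : V → W)
    (L : G.Dart → List (Step H)) (hL : ∀ d, pos d → IsLW (L d) (q d.fst) (q d.snd))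
    (hne : ∀ d, pos d → L d ≠ []) (k : ℕ)
    (hm : ∀ e : H.Dart, ∑ d ∈ Finset.univ.filter pos, mul e (L d) = k)
    (hv : ∀ w : W, (Finset.univ.filter fun v => q v = w).card +
      ∑ d ∈ Finset.univ.filter pos, dep w (L d) =
      k + ∑ d ∈ Finset.univ.filter pos, (if q d.fst = w then 1 else 0)) :
    ∃ f : X → Y, Continuous f ∧ ∀ y, (f ⁻¹' {y}).encard = k := by
  -- paths
  have hdata : ∀ d : G.Dart, ∃ p : ℝ → Y, pos d → (Continuous p ∧ p 0 = cY.pt (q d.fst) ∧
      p 1 = cY.pt (q d.snd) ∧
      ∀ y, cnt p y = ((L d).map (fun s => cnt (stepPath cY s) y)).sum) := by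
    intro d
    by_cases hd : pos d
    · have h1 := hL d hd
      have h2 := hne d hd
      cases hℓ : L d with
      | nil => exact absurd hℓ h2
      | cons s ℓ =>
        rw [hℓ] at h1
        refine ⟨listPath cY s ℓ, fun _ => ⟨listPath_continuous cY s ℓ h1, ?_,
          listPath_one cY s ℓ h1, fun y => cnt_listPath cY s ℓ h1 y⟩⟩
        rw [listPath_zero]
        rw [IsLW] at h1
        rw [h1.1]
    · exact ⟨fun _ => cY.pt (q d.fst), fun h => absurd h hd⟩
  choose p hp using hdata
  obtain ⟨f, hf, hfpt, hfseg⟩ := glue cX pos hpos (fun v => cY.pt (q v)) p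
    (fun d hd => (hp d hd).1) (fun d hd => (hp d hd).2.1) (fun d hd => (hp d hd).2.2.1)
  refine ⟨f, hf, fun y => ?_⟩
  have hcntO : ∀ d, pos d → cntO (fun t => f (cX.seg d.fst d.snd t)) y = cntO (p d) y := by
    intro d hd
    unfold cntO
    congr 1
    ext t
    simp only [mem_ofPred_eq]
    refine and_congr_right fun ht => ?_
    rw [hfseg d hd t ⟨ht.1.le, ht.2.le⟩]
  rw [fiber_encard cX pos hpos f y]
  have hsum : ∑ d ∈ Finset.univ.filter pos, cntO (fun t => f (cX.seg d.fst d.snd t)) y =
      ∑ d ∈ Finset.univ.filter pos, cntO (p d) y := by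
    refine Finset.sum_congr rfl fun d hd => ?_
    rw [Finset.mem_filter] at hd
    exact hcntO d hd.2
  rw [hsum]
  -- key: the sum of the counts
  have hcnt : ∑ d ∈ Finset.univ.filter pos, cnt (p d) y =
      ∑ d ∈ Finset.univ.filter pos, ((L d).map (fun s => cnt (stepPath cY s) y)).sum := by
    refine Finset.sum_congr rfl fun d hd => ?_
    rw [Finset.mem_filter] at hd
    exact (hp d hd.2).2.2.2 y
  have hcnt2 : ∑ d ∈ Finset.univ.filter pos, cnt (p d) y =
      ∑ d ∈ Finset.univ.filter pos, cntO (p d) y +
      ∑ d ∈ Finset.univ.filter pos, (if cY.pt (q d.fst) = y then 1 else 0) := by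
    rw [← Finset.sum_add_distrib]
    refine Finset.sum_congr rfl fun d hd => ?_
    rw [Finset.mem_filter] at hd
    rw [cnt_eq_cntO_add]
    rw [(hp d hd.2).2.1]
  rcases cY.cover y with ⟨w, rfl⟩ | ⟨a, b, hab, t, ht, rfl⟩
  · -- vertices
    have h1 : {v : V | f (cX.pt v) = cY.pt w}.encard =
        ((Finset.univ.filter fun v => q v = w).card : ℕ∞) := by
      rw [← Set.encard_coe_eq_coe_finsetCard]
      congr 1
      ext v
      simp only [mem_ofPred_eq, Finset.coe_filter, Finset.mem_univ, true_and]
      rw [hfpt, cY.pt_inj.eq_iff]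
    have h2 : ∑ d ∈ Finset.univ.filter pos, cnt (p d) (cY.pt w) =
        ((∑ d ∈ Finset.univ.filter pos, dep w (L d) : ℕ) : ℕ∞) := by
      rw [hcnt]
      push_cast
      refine Finset.sum_congr rfl fun d _ => ?_
      rw [dep, cast_list_sum]
      congr 1
      refine List.map_congr_left fun s _ => ?_
      rw [cnt_stepPath_pt]
      push_cast
      rfl
    have h3 : ∑ d ∈ Finset.univ.filter pos, (if cY.pt (q d.fst) = cY.pt w then (1 : ℕ∞) else 0) =
        ((∑ d ∈ Finset.univ.filter pos, (if q d.fst = w then 1 else 0) : ℕ) : ℕ∞) := by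
      push_cast
      refine Finset.sum_congr rfl fun d _ => ?_
      simp only [cY.pt_inj.eq_iff]
    rw [h1]
    rw [h2, h3] at hcnt2
    have h4 := hv w
    have h5 : ((∑ d ∈ Finset.univ.filter pos, (if q d.fst = w then 1 else 0) : ℕ) : ℕ∞) ≠ ⊤ :=
      ENat.natCast_ne_top _
    refine (ENat.add_left_injective_of_ne_top h5) ?_
    simp only
    rw [add_assoc, ← hcnt2]
    exact_mod_cast h4
  · -- points of open segments
    have h1 : {v : V | f (cX.pt v) = cY.seg a b t}.encard = 0 := by
      rw [encard_eq_zero]
      ext v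
      simp only [mem_ofPred_eq, mem_empty_iff_false, iff_false]
      rw [hfpt]
      exact fun h => cY.seg_ne _ _ hab t ht _ h.symm
    have h3 : ∑ d ∈ Finset.univ.filter pos,
        (if cY.pt (q d.fst) = cY.seg a b t then (1 : ℕ∞) else 0) = 0 := by
      refine Finset.sum_eq_zero fun d _ => ?_
      rw [if_neg]
      exact fun h => cY.seg_ne _ _ hab t ht _ h.symm
    rw [h1, zero_add]
    rw [h3, add_zero] at hcnt2
    rw [← hcnt2, hcnt]
    have main : ∀ (e : H.Dart) (t : ℝ), t ∈ Ioo (0 : ℝ) (1 / 2) →
        ∑ d ∈ Finset.univ.filter pos,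
          ((L d).map (fun s => cnt (stepPath cY s) (cY.seg e.fst e.snd t))).sum = k := by
      intro e t ht
      rw [← hm e]
      push_cast
      refine Finset.sum_congr rfl fun d _ => ?_
      rw [mul, cast_list_sum]
      congr 1
      refine List.map_congr_left fun s _ => ?_
      rw [cnt_stepPath_lt cY s e ht]
    rcases lt_trichotomy t (1 / 2) with hlt | heq | hgt
    · exact main ⟨(a, b), hab⟩ t ⟨ht.1, hlt⟩
    · subst heq
      have h4 : ∑ d ∈ Finset.univ.filter pos, midc (⟨(a, b), hab⟩ : H.Dart) (L d) = k := by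
        have h5 : 2 * ∑ d ∈ Finset.univ.filter pos, midc (⟨(a, b), hab⟩ : H.Dart) (L d) =
            2 * k := by
          rw [Finset.mul_sum, two_mul k]
          nth_rewrite 1 [← hm (⟨(a, b), hab⟩ : H.Dart)]
          rw [← hm ((⟨(a, b), hab⟩ : H.Dart).symm), ← Finset.sum_add_distrib]
          refine Finset.sum_congr rfl fun d _ => ?_
          exact two_mul_midc _ _
        omega
      rw [← h4]
      push_cast
      refine Finset.sum_congr rfl fun d _ => ?_
      rw [midc, cast_list_sum]
      congr 1
      refine List.map_congr_left fun s _ => ?_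
      exact cnt_stepPath_mid cY s ⟨(a, b), hab⟩
    · have h4 := main (⟨(a, b), hab⟩ : H.Dart).symm (1 - t) ⟨by linarith [ht.2], by linarith⟩
      rw [← h4]
      refine Finset.sum_congr rfl fun d _ => ?_
      congr 1
      refine List.map_congr_left fun s _ => ?_
      congr 1
      change cY.seg a b t = cY.seg b a (1 - t)
      rw [cY.seg_rev a b hab]; congr 1; ring

end

end Pool.Agent.Helper26.KToOne
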